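import Mathlib

/-!
# Reduction of the monotonicity problem to the base inequality `N = mβ`
-/

namespace Spread

open Finset

/-- Harmonic numbers (real valued). -/
noncomputable def H (n : ℕ) : ℝ := ∑ k ∈ range n, 1 / ((k : ℝ) + 1)

/-- service rate of `j` nodes holding parts of a content spread evenly, `a` of them needed. -/
noncomputable def rate (a j : ℕ) : ℝ := if a ≤ j then (a : ℝ) / (H j - H (j - a)) else 0

/-- the unnormalised hypergeometric sum -/
noncomputable def T (N A : ℕ) (g : ℕ → ℝ) (r : ℕ) : ℝ :=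
  ∑ j ∈ range (r + 1), ((A.choose j : ℕ) : ℝ) * (((N - A).choose (r - j) : ℕ) : ℝ) * g j

lemma H_sub {a j : ℕ} (h : a ≤ j) :
    H j - H (j - a) = ∑ k ∈ range a, 1 / (((j - a : ℕ) : ℝ) + ((k : ℝ) + 1)) := by
  unfold H
  obtain ⟨i, rfl⟩ := Nat.exists_eq_add_of_le h
  have e : a + i - a = i := by omega
  rw [e, add_comm a i, Finset.sum_range_add]
  simp only [Nat.cast_add]
  rw [add_sub_cancel_left]
  refine Finset.sum_congr rfl fun k _ => ?_
  congr 1; ring

lemma H_sub_pos {a j : ℕ} (ha : 1 ≤ a) (h : a ≤ j) : 0 < H j - H (j - a) := by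
  rw [H_sub h]
  apply Finset.sum_pos
  · intro k _; positivity
  · exact ⟨0, by simp; omega⟩

lemma rate_nonneg (a j : ℕ) : 0 ≤ rate a j := by
  unfold rate
  split_ifs with h
  · rcases Nat.eq_zero_or_pos a with rfl | ha
    · simp
    · exact div_nonneg (by positivity) (H_sub_pos ha h).le
  · exact le_rfl

lemma rate_pos {a j : ℕ} (ha : 1 ≤ a) (h : a ≤ j) : 0 < rate a j := by
  unfold rate
  rw [if_pos h]
  have : (0:ℝ) < a := by exact_mod_cast ha
  exact div_pos this (H_sub_pos ha h)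

lemma rate_zero {a j : ℕ} (h : j < a) : rate a j = 0 := by
  unfold rate; rw [if_neg (by omega)]

/-- Pascal step. -/
lemma T_succ {N A : ℕ} (hA : A ≤ N) (g : ℕ → ℝ) (r : ℕ) :
    T (N + 1) A g (r + 1) = T N A g (r + 1) + T N A g r := by
  unfold T
  rw [Finset.sum_range_succ, Finset.sum_range_succ (n := r + 1)]
  have e1 : N + 1 - A = (N - A) + 1 := by omega
  rw [e1]
  have h2 : ∀ j ∈ range (r + 1), ((A.choose j : ℕ) : ℝ) * ((((N - A) + 1).choose (r + 1 - j) : ℕ) : ℝ) * g j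
      = ((A.choose j : ℕ) : ℝ) * (((N - A).choose (r + 1 - j) : ℕ) : ℝ) * g j
        + ((A.choose j : ℕ) : ℝ) * (((N - A).choose (r - j) : ℕ) : ℝ) * g j := by
    intro j hj
    have hj' : j ≤ r := by simpa [Nat.lt_succ_iff] using hj
    have e2 : r + 1 - j = (r - j) + 1 := by omega
    rw [e2, Nat.choose_succ_succ]
    push_cast; ring
  rw [Finset.sum_congr rfl h2, Finset.sum_add_distrib]
  simp only [Nat.sub_self, Nat.choose_zero_right]
  ring

lemma T_rate_lt {N A a r : ℕ} (h : r < a) : T N A (rate a) r = 0 := by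
  unfold T
  refine Finset.sum_eq_zero fun j hj => ?_
  have : j ≤ r := by simpa [Nat.lt_succ_iff] using hj
  rw [rate_zero (by omega)]; ring

lemma T_gt {N A : ℕ} (hA : A ≤ N) (g : ℕ → ℝ) : T N A g (N + 1) = 0 := by
  unfold T
  refine Finset.sum_eq_zero fun j _ => ?_
  by_cases h : j ≤ A
  · have : (N - A).choose (N + 1 - j) = 0 := Nat.choose_eq_zero_of_lt (by omega)
    rw [this]; simp
  · have : A.choose j = 0 := Nat.choose_eq_zero_of_lt (by omega)
    rw [this]; simp

lemma T_nonneg {N A a : ℕ} (r : ℕ) : 0 ≤ T N A (rate a) r := by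
  unfold T
  refine Finset.sum_nonneg fun j _ => ?_
  have := rate_nonneg a j
  positivity

lemma T_pos {N A a r : ℕ} (ha : 1 ≤ a) (haA : a ≤ A) (hA : A ≤ N) (har : a ≤ r) (hr : r ≤ N) :
    0 < T N A (rate a) r := by
  unfold T
  -- choose j = max a (r - (N - A))
  apply Finset.sum_pos'
  · intro j _
    have := rate_nonneg a j
    positivity
  · refine ⟨max a (r - (N - A)), ?_, ?_⟩
    · simp only [mem_range]; omega
    · have h1 : 0 < A.choose (max a (r - (N - A))) := Nat.choose_pos (by omega)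
      have h2 : 0 < (N - A).choose (r - max a (r - (N - A))) := Nat.choose_pos (by omega)
      have h3 : 0 < rate a (max a (r - (N - A))) := rate_pos ha (le_max_left _ _)
      have h1' : (0:ℝ) < ((A.choose (max a (r - (N - A))) : ℕ) : ℝ) := by exact_mod_cast h1
      have h2' : (0:ℝ) < (((N - A).choose (r - max a (r - (N - A))) : ℕ) : ℝ) := by exact_mod_cast h2
      positivity

/-- If `N = A` the sum is a single term. -/
lemma T_self (A : ℕ) (g : ℕ → ℝ) (r : ℕ) : T A A g r = ((A.choose r : ℕ) : ℝ) * g r := by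
  unfold T
  rw [Finset.sum_range_succ]
  have : ∑ j ∈ range r, ((A.choose j : ℕ) : ℝ) * (((A - A).choose (r - j) : ℕ) : ℝ) * g j = 0 := by
    refine Finset.sum_eq_zero fun j hj => ?_
    have hj' : j < r := by simpa using hj
    have : (A - A).choose (r - j) = 0 := Nat.choose_eq_zero_of_lt (by omega)
    rw [this]; simp
  rw [this]; simp

/-- The base inequality, as a hypothesis. -/
def Base : Prop := ∀ m a b r : ℕ, 1 ≤ m → 1 ≤ a → a < b → b ≤ r → r ≤ m * b →
  T (m * b) (m * a) (rate a) r < ((m * b).choose r : ℝ) * rate b r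

/-- sign pattern -/
lemma pattern (hB : Base) {m a b : ℕ} (hm : 1 ≤ m) (ha : 1 ≤ a) (hab : a < b) :
    ∀ N : ℕ, m * b ≤ N →
      0 < T N (m * b) (rate b) N - T N (m * a) (rate a) N ∧
      ∀ r : ℕ, a ≤ r → r + 1 ≤ N → 0 ≤ T N (m * b) (rate b) r - T N (m * a) (rate a) r →
        0 < T N (m * b) (rate b) (r + 1) - T N (m * a) (rate a) (r + 1) := by
  have hmab : m * a ≤ m * b := Nat.mul_le_mul_left m hab.le
  have hbm : b ≤ m * b := Nat.le_mul_of_pos_left b hm
  have ham : a ≤ m * a := Nat.le_mul_of_pos_left a hm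
  intro N hN
  induction N, hN using Nat.le_induction with
  | base =>
    constructor
    · rw [T_self]
      have := hB m a b (m * b) hm ha hab hbm le_rfl
      linarith
    · intro r har hr h0
      rw [T_self] at h0 ⊢
      by_cases hbr : b ≤ r
      · have := hB m a b (r + 1) hm ha hab (by omega) hr
        linarith
      · rw [rate_zero (by omega)] at h0
        have := T_pos (N := m * b) (A := m * a) ha ham hmab har (by omega)
        linarith
  | succ N hN ih =>
    obtain ⟨ih1, ih2⟩ := ih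
    have hbN : m * b ≤ N := hN
    have haN : m * a ≤ N := hmab.trans hN
    constructor
    · rw [T_succ hbN, T_succ haN, T_gt hbN, T_gt haN]
      linarith
    · intro r har hr h0
      obtain ⟨k, rfl⟩ : ∃ k, r = k + 1 := ⟨r - 1, by omega⟩
      rw [T_succ hbN, T_succ haN] at h0
      rw [T_succ hbN, T_succ haN]
      -- D_N (k+1) ≥ 0
      have h1 : 0 ≤ T N (m * b) (rate b) (k + 1) - T N (m * a) (rate a) (k + 1) := by
        by_contra hneg
        push Not at hneg
        have hk : 0 < T N (m * b) (rate b) k - T N (m * a) (rate a) k := by linarith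
        by_cases hak : a ≤ k
        · have := ih2 k hak (by omega) hk.le
          linarith
        · rw [T_rate_lt (by omega), T_rate_lt (by omega)] at hk
          simp at hk
      by_cases hkN : k + 1 + 1 ≤ N
      · have := ih2 (k + 1) har hkN h1
        linarith
      · have hkN' : k + 1 = N := by omega
        rw [hkN', T_gt hbN, T_gt haN]
        linarith

/-- propagation along `r`. -/
lemma propagate (hB : Base) {m a b N : ℕ} (hm : 1 ≤ m) (ha : 1 ≤ a) (hab : a < b)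
    (hN : m * b ≤ N) {r r' : ℕ} (har : a ≤ r) (hrr : r < r') (hr' : r' ≤ N)
    (h0 : T N (m * a) (rate a) r ≤ T N (m * b) (rate b) r) :
    T N (m * a) (rate a) r' < T N (m * b) (rate b) r' := by
  obtain ⟨-, hp⟩ := pattern hB hm ha hab N hN
  have key : ∀ k : ℕ, r + k + 1 ≤ N →
      0 < T N (m * b) (rate b) (r + k + 1) - T N (m * a) (rate a) (r + k + 1) := by
    intro k
    induction k with
    | zero => intro h; exact hp r har h (by linarith)
    | succ k ih =>
      intro h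
      have := ih (by omega)
      exact hp (r + k + 1) (by omega) h this.le
  have := key (r' - r - 1) (by omega)
  have e : r + (r' - r - 1) + 1 = r' := by omega
  rw [e] at this
  linarith

end Spread

/-!
# Hypergeometric weights: recurrence, mean, variance, overshoot bound
-/

namespace Spread

open Finset

/-- hypergeometric weight -/
noncomputable def w (a b r j : ℕ) : ℝ :=
  if j ≤ r then ((a.choose j : ℕ) : ℝ) * ((b.choose (r - j) : ℕ) : ℝ) else 0

lemma w_nonneg (a b r j : ℕ) : 0 ≤ w a b r j := by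
  unfold w; split_ifs <;> positivity

lemma choose_succ_real (n k : ℕ) :
    ((n.choose (k + 1) : ℕ) : ℝ) * ((k : ℝ) + 1) = ((n.choose k : ℕ) : ℝ) * ((n : ℝ) - k) := by
  by_cases h : k ≤ n
  · have := Nat.choose_succ_right_eq n k
    have h2 : ((n.choose (k + 1) * (k + 1) : ℕ) : ℝ) = ((n.choose k * (n - k) : ℕ) : ℝ) := by
      rw [this]
    push_cast [Nat.cast_sub h] at h2
    exact h2
  · rw [Nat.choose_eq_zero_of_lt (by omega : n < k + 1), Nat.choose_eq_zero_of_lt (by omega : n < k)]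
    simp

/-- the basic recurrence -/
lemma w_rec (a b r j : ℕ) :
    w a b r (j + 1) * (((j : ℝ) + 1) * ((b : ℝ) - r + j + 1)) = w a b r j * (((a : ℝ) - j) * ((r : ℝ) - j)) := by
  unfold w
  rcases lt_trichotomy j r with h | h | h
  · rw [if_pos (by omega), if_pos (by omega)]
    have h1 := choose_succ_real a j
    have h2 := choose_succ_real b (r - (j + 1))
    have e : r - (j + 1) + 1 = r - j := by omega
    rw [e] at h2
    have e2 : ((r - (j + 1) : ℕ) : ℝ) = (r : ℝ) - (j + 1) := by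
      rw [Nat.cast_sub (by omega)]; push_cast; ring
    rw [e2] at h2
    have h2' : ((b.choose (r - (j+1)) : ℕ) : ℝ) * ((b : ℝ) - r + j + 1)
        = ((b.choose (r - j) : ℕ) : ℝ) * ((r : ℝ) - j) := by
      linarith
    calc _ = (((a.choose (j + 1) : ℕ) : ℝ) * ((j : ℝ) + 1)) *
        (((b.choose (r - (j+1)) : ℕ) : ℝ) * ((b : ℝ) - r + j + 1)) := by ring
      _ = _ := by rw [h1, h2']; ring
  · subst h
    rw [if_neg (by omega)]; simp
  · rw [if_neg (by omega), if_neg (by omega)]; simp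

lemma w_gt {a b r j : ℕ} (h : r < j) : w a b r j = 0 := by
  unfold w; rw [if_neg (by omega)]

/-- total mass -/
lemma w_sum (a b r : ℕ) : ∑ j ∈ range (r + 1), w a b r j = (((a + b).choose r : ℕ) : ℝ) := by
  rw [Nat.add_choose_eq, Finset.Nat.sum_antidiagonal_eq_sum_range_succ
    (fun i j => a.choose i * b.choose j) r]
  push_cast
  refine Finset.sum_congr rfl fun j hj => ?_
  have : j ≤ r := by simpa [Nat.lt_succ_iff] using hj
  unfold w; rw [if_pos this]

lemma w_mean (a b r : ℕ) :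
    ∑ j ∈ range (r + 1), w a b r j * ((j : ℝ) * (a + b) - a * r) = 0 := by
  have h : ∀ j ∈ range (r + 1), w a b r j * ((j : ℝ) * (a + b) - a * r)
      = - (w a b r (j + 1) * (((j + 1 : ℕ) : ℝ) * ((b : ℝ) - r + ((j + 1 : ℕ) : ℝ)))
        - w a b r j * ((j : ℝ) * ((b : ℝ) - r + j))) := by
    intro j _
    have := w_rec a b r j
    push_cast
    linear_combination this
  rw [Finset.sum_congr rfl h, Finset.sum_neg_distrib,
    Finset.sum_range_sub (fun j => w a b r j * ((j : ℝ) * ((b : ℝ) - r + j)))]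
  rw [w_gt (by omega)]; simp

lemma w_second (a b r : ℕ) :
    ∑ j ∈ range (r + 1), w a b r j * ((j : ℝ) * ((j : ℝ) * (a + b) - a * r))
     = ∑ j ∈ range (r + 1), w a b r j * ((j : ℝ) * ((b : ℝ) - r + j)) := by
  rw [← sub_eq_zero, ← Finset.sum_sub_distrib]
  have h : ∀ j ∈ range (r + 1), w a b r j * ((j : ℝ) * ((j : ℝ) * (a + b) - a * r))
        - w a b r j * ((j : ℝ) * ((b : ℝ) - r + j))
      = - (w a b r (j + 1) * ((((j + 1 : ℕ) : ℝ) - 1) * (((j + 1 : ℕ) : ℝ) * ((b : ℝ) - r + ((j + 1 : ℕ) : ℝ))))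
        - w a b r j * (((j : ℝ) - 1) * ((j : ℝ) * ((b : ℝ) - r + j)))) := by
    intro j _
    have := w_rec a b r j
    push_cast
    linear_combination (j : ℝ) * this
  rw [Finset.sum_congr rfl h, Finset.sum_neg_distrib,
    Finset.sum_range_sub (fun j => w a b r j * (((j : ℝ) - 1) * ((j : ℝ) * ((b : ℝ) - r + j))))]
  rw [w_gt (by omega)]; simp

/-- second moment about an arbitrary centre -/
lemma w_var (a b r : ℕ) (hr : 1 ≤ r) (hM : 2 ≤ a + b) (c : ℝ) :
    ∑ j ∈ range (r + 1), w a b r j * ((j : ℝ) - c) ^ 2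
      ≤ (((a + b).choose r : ℕ) : ℝ) *
        (((a : ℝ) * r / (a + b) - c) ^ 2 + (r : ℝ) * ((a : ℝ) / (a + b)) * ((b : ℝ) / (a + b))) := by
  set W : ℝ := (((a + b).choose r : ℕ) : ℝ) with hW
  set m1 : ℝ := ∑ j ∈ range (r + 1), w a b r j * (j : ℝ) with hm1
  set m2 : ℝ := ∑ j ∈ range (r + 1), w a b r j * (j : ℝ) ^ 2 with hm2
  have h0 := w_sum a b r
  have h1 := w_mean a b r
  have h2 := w_second a b r
  have e1 : ∑ j ∈ range (r + 1), w a b r j * ((j : ℝ) * (a + b) - a * r)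
      = ((a : ℝ) + b) * m1 - a * r * W := by
    rw [hm1, hW, ← h0, Finset.mul_sum, Finset.mul_sum, ← Finset.sum_sub_distrib]
    exact Finset.sum_congr rfl fun j _ => by ring
  have e2 : ∑ j ∈ range (r + 1), w a b r j * ((j : ℝ) * ((j : ℝ) * (a + b) - a * r))
      = ((a : ℝ) + b) * m2 - a * r * m1 := by
    rw [hm1, hm2, Finset.mul_sum, Finset.mul_sum, ← Finset.sum_sub_distrib]
    exact Finset.sum_congr rfl fun j _ => by ring
  have e3 : ∑ j ∈ range (r + 1), w a b r j * ((j : ℝ) * ((b : ℝ) - r + j))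
      = ((b : ℝ) - r) * m1 + m2 := by
    rw [hm1, hm2, Finset.mul_sum, ← Finset.sum_add_distrib]
    exact Finset.sum_congr rfl fun j _ => by ring
  have e4 : ∑ j ∈ range (r + 1), w a b r j * ((j : ℝ) - c) ^ 2 = m2 - 2 * c * m1 + c ^ 2 * W := by
    rw [hm1, hm2, hW, ← h0, Finset.mul_sum, Finset.mul_sum, ← Finset.sum_sub_distrib,
      ← Finset.sum_add_distrib]
    exact Finset.sum_congr rfl fun j _ => by ring
  rw [e1] at h1
  rw [e2, e3] at h2
  rw [e4]
  have hM' : (2 : ℝ) ≤ (a : ℝ) + b := by exact_mod_cast hM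
  have hMpos : (0 : ℝ) < (a : ℝ) + b := by linarith
  have hM1 : (0 : ℝ) < (a : ℝ) + b - 1 := by linarith
  have hm1' : m1 = a * r / (a + b) * W := by
    field_simp
    linarith
  have hW0 : 0 ≤ W := by rw [hW]; positivity
  -- (M-1) m2 = (a r + b - r) m1
  have h3 : ((a : ℝ) + b - 1) * m2 = ((a : ℝ) * r + b - r) * m1 := by linarith
  have hm2' : m2 = ((a : ℝ) * r + b - r) * (a * r / (a + b) * W) / (a + b - 1) := by
    rw [← hm1']; field_simp; linarith
  rw [hm2', hm1']
  have hrr : (1 : ℝ) ≤ r := by exact_mod_cast hr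
  have ha0 : (0 : ℝ) ≤ a := by positivity
  have hb0 : (0 : ℝ) ≤ b := by positivity
  have key : W * (((a : ℝ) * r / (a + b) - c) ^ 2 + (r : ℝ) * ((a : ℝ) / (a + b)) * ((b : ℝ) / (a + b)))
      - (((a : ℝ) * r + b - r) * (a * r / (a + b) * W) / (a + b - 1) - 2 * c * (a * r / (a + b) * W) + c ^ 2 * W)
      = W * (a * b * r * (r - 1)) / ((a + b) ^ 2 * (a + b - 1)) := by
    field_simp
    ring
  have : 0 ≤ W * (a * b * r * ((r : ℝ) - 1)) / ((a + b) ^ 2 * (a + b - 1)) := by
    apply div_nonneg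
    · apply mul_nonneg hW0
      apply mul_nonneg
      · positivity
      · linarith
    · positivity
  linarith

/-- Abel-summation inequality for a nonincreasing nonnegative sequence. -/
lemma abel (P : ℕ → ℝ) (n : ℕ) (h0 : ∀ i, i < n → 0 ≤ P i) (hd : ∀ i, i + 1 < n → P (i + 1) ≤ P i)
    (B : ℝ) :
    0 ≤ ∑ i ∈ range n, P i * (3 * ((i : ℝ) + 1) ^ 2 - (8 * B - 1) * ((i : ℝ) + 1) + 4 * B ^ 2) := by
  have key : ∀ k, k ≤ n → 1 ≤ k → P (k - 1) * (k * ((k : ℝ) + 1 - 2 * B) ^ 2) ≤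
      ∑ i ∈ range k, P i * (3 * ((i : ℝ) + 1) ^ 2 - (8 * B - 1) * ((i : ℝ) + 1) + 4 * B ^ 2) := by
    intro k hk hk1
    induction k, hk1 using Nat.le_induction with
    | base => simp; apply le_of_eq; ring
    | succ k hk1 ih =>
      rw [Finset.sum_range_succ]
      have h1 := ih (by omega)
      have h2 : P k ≤ P (k - 1) := by
        have := hd (k - 1) (by omega)
        have e : k - 1 + 1 = k := by omega
        rwa [e] at this
      have h3 : P k * (k * ((k : ℝ) + 1 - 2 * B) ^ 2) ≤ P (k - 1) * (k * ((k : ℝ) + 1 - 2 * B) ^ 2) := by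
        apply mul_le_mul_of_nonneg_right h2; positivity
      have e : k + 1 - 1 = k := by omega
      rw [e]
      push_cast
      have : P k * (((k : ℝ) + 1) * ((k : ℝ) + 1 + 1 - 2 * B) ^ 2)
        = P k * (k * ((k : ℝ) + 1 - 2 * B) ^ 2) + P k * (3 * ((k : ℝ) + 1) ^ 2 - (8 * B - 1) * ((k : ℝ) + 1) + 4 * B ^ 2) := by
        ring
      rw [this]
      linarith
  rcases Nat.eq_zero_or_pos n with rfl | hn
  · simp
  · have := key n le_rfl hn
    have h1 := h0 (n - 1) (by omega)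
    have : 0 ≤ P (n - 1) * (n * ((n : ℝ) + 1 - 2 * B) ^ 2) := by positivity
    linarith

/-- first overshoot inequality (summed ratio inequality) -/
lemma ratio_sum (P c d : ℕ → ℝ) (n : ℕ) (hc : c 0 = 0) (hd : 0 ≤ d n * P n)
    (h : ∀ i, i < n → c (i + 1) * P (i + 1) ≤ d i * P i) :
    ∑ i ∈ range (n + 1), c i * P i ≤ ∑ i ∈ range (n + 1), d i * P i := by
  rw [Finset.sum_range_succ', Finset.sum_range_succ (fun i => d i * P i), hc]
  have := Finset.sum_le_sum fun i (hi : i ∈ range n) => h i (by simpa using hi)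
  linarith

/-- The overshoot bound. `α ≥ 1`, `δ ≥ 1`, population `mα + mδ`, draws `r = α + δ + s`. -/
lemma overshoot {m α δ s : ℕ} (hm : 1 ≤ m) (hα : 1 ≤ α) (hδ : 1 ≤ δ) {B : ℝ} (hB : 1 ≤ B)
    (hBq : 3 * ((α : ℝ) / (α + δ)) * (δ + s) ≤
      4 * B ^ 2 + (3 * ((α : ℝ) / (α + δ)) * (s - 1) - 1) * B) :
    ∑ i ∈ range α, w (m * α) (m * δ) (α + δ + s) (α - 1 - i) * ((i : ℝ) + 1)
      ≤ B * ∑ i ∈ range α, w (m * α) (m * δ) (α + δ + s) (α - 1 - i) := by
  set P : ℕ → ℝ := fun i => w (m * α) (m * δ) (α + δ + s) (α - 1 - i) with hP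
  have hα' : (1 : ℝ) ≤ α := by exact_mod_cast hα
  have hδ' : (1 : ℝ) ≤ δ := by exact_mod_cast hδ
  have hm' : (1 : ℝ) ≤ m := by exact_mod_cast hm
  have hs' : (0 : ℝ) ≤ s := by positivity
  have hP0 : ∀ i, 0 ≤ P i := fun i => w_nonneg _ _ _ _
  -- ratio inequality
  have hratio : ∀ i, i + 1 < α →
      (α : ℝ) * (δ + s + 2 + i) * P (i + 1) ≤ δ * (α - 1 - i) * P i := by
    intro i hi
    have hrec := w_rec (m * α) (m * δ) (α + δ + s) (α - 1 - (i + 1))
    have e1 : α - 1 - (i + 1) + 1 = α - 1 - i := by omega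
    rw [e1] at hrec
    have e2 : ((α - 1 - (i + 1) : ℕ) : ℝ) = α - 2 - i := by
      have : α - 1 - (i + 1) = α - (i + 2) := by omega
      rw [this, Nat.cast_sub (by omega)]; push_cast; ring
    rw [e2] at hrec
    push_cast at hrec
    have hi' : (i : ℝ) + 2 ≤ α := by exact_mod_cast hi
    have hi0 : (0 : ℝ) ≤ i := by positivity
    set Q1 := P (i + 1) with hQ1
    set Q0 := P i with hQ0
    have hQ0' : w (m * α) (m * δ) (α + δ + s) (α - 1 - i) = Q0 := rfl
    have hQ1' : w (m * α) (m * δ) (α + δ + s) (α - 1 - (i + 1)) = Q1 := rfl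
    rw [hQ0', hQ1'] at hrec
    have hc : (0 : ℝ) < (m - 1) * α + i + 2 := by nlinarith
    have h0 : 0 ≤ Q0 := hP0 i
    -- hrec : Q0 * ((α-2-i+1) * (mδ - (α+δ+s) + (α-2-i) + 1)) = Q1 * ((mα - (α-2-i)) * ((α+δ+s) - (α-2-i)))
    have hmul : ((m - 1) * α + i + 2) * ((α : ℝ) * (δ + s + 2 + i) * Q1)
        ≤ ((m - 1) * α + i + 2) * (δ * (α - 1 - i) * Q0) := by
      have e3 : ((m - 1) * α + i + 2) * ((α : ℝ) * (δ + s + 2 + i) * Q1)
          = α * (Q0 * ((α - 1 - i) * ((m - 1) * δ - s - 1 - i))) := by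
        linear_combination (-(α : ℝ)) * hrec
      rw [e3]
      have h5 : (0 : ℝ) ≤ (α - 1 - i) * Q0 := by
        apply mul_nonneg _ h0; linarith
      have h6 : (α : ℝ) * ((m - 1) * δ - s - 1 - i) ≤ δ * ((m - 1) * α + i + 2) := by
        have : 0 ≤ (α : ℝ) * (s + 1 + i) := by positivity
        have : 0 ≤ (δ : ℝ) * (i + 2) := by positivity
        nlinarith
      nlinarith
    exact le_of_mul_le_mul_left hmul hc
  have hdec : ∀ i, i + 1 < α → P (i + 1) ≤ P i := by
    intro i hi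
    have h1 := hratio i hi
    have hi' : (i : ℝ) + 2 ≤ α := by exact_mod_cast hi
    have hi0 : (0 : ℝ) ≤ i := by positivity
    have h2 : (δ : ℝ) * (α - 1 - i) * P i ≤ (α * (δ + s + 2 + i)) * P i := by
      apply mul_le_mul_of_nonneg_right _ (hP0 i)
      have : (0 : ℝ) ≤ α * (s + 2 + i) := by positivity
      nlinarith
    have h3 : (0 : ℝ) < α * (δ + s + 2 + i) := by positivity
    have h4 : (α : ℝ) * (δ + s + 2 + i) * P (i + 1) ≤ (α * (δ + s + 2 + i)) * P i := h1.trans h2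
    exact le_of_mul_le_mul_left h4 h3
  -- Abel
  have hab := abel P α (fun i _ => hP0 i) hdec B
  -- summed ratio inequality
  obtain ⟨n, rfl⟩ : ∃ n, α = n + 1 := ⟨α - 1, by omega⟩
  have hrs := ratio_sum P (fun i => (i : ℝ) * ((n : ℝ) + 1) * (δ + s + 1 + i))
    (fun i => ((i : ℝ) + 1) * δ * (n - i)) n (by simp) (by simp) (by
      intro i hi
      have := hratio i (by omega)
      push_cast at this ⊢
      have hi0 : (0 : ℝ) ≤ (i : ℝ) + 1 := by positivity
      calc ((i : ℝ) + 1) * ((n : ℝ) + 1) * (δ + s + 1 + (i + 1)) * P (i + 1)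
          = ((i : ℝ) + 1) * (((n : ℝ) + 1) * (δ + s + 2 + i) * P (i + 1)) := by ring
        _ ≤ ((i : ℝ) + 1) * (δ * ((n : ℝ) + 1 - 1 - i) * P i) := mul_le_mul_of_nonneg_left this hi0
        _ = _ := by ring)
  set p0 := ∑ i ∈ range (n + 1), P i with hp0
  set p1 := ∑ i ∈ range (n + 1), P i * ((i : ℝ) + 1) with hp1
  set p2 := ∑ i ∈ range (n + 1), P i * ((i : ℝ) + 1) ^ 2 with hp2
  have e1 : ∑ i ∈ range (n + 1), P i * (3 * ((i : ℝ) + 1) ^ 2 - (8 * B - 1) * ((i : ℝ) + 1) + 4 * B ^ 2)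
      = 3 * p2 - (8 * B - 1) * p1 + 4 * B ^ 2 * p0 := by
    rw [hp0, hp1, hp2, Finset.mul_sum, Finset.mul_sum, Finset.mul_sum, ← Finset.sum_sub_distrib,
      ← Finset.sum_add_distrib]
    exact Finset.sum_congr rfl fun j _ => by ring
  have e2 : ∑ i ∈ range (n + 1), ((i : ℝ) + 1) * δ * (n - i) * P i
      - ∑ i ∈ range (n + 1), (i : ℝ) * ((n : ℝ) + 1) * (δ + s + 1 + i) * P i
      = -((n : ℝ) + 1 + δ) * p2 - (n + 1) * (s - 1) * p1 + (n + 1) * (δ + s) * p0 := by
    rw [hp0, hp1, hp2, Finset.mul_sum, Finset.mul_sum, Finset.mul_sum, ← Finset.sum_sub_distrib,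
      ← Finset.sum_sub_distrib, ← Finset.sum_add_distrib]
    exact Finset.sum_congr rfl fun j _ => by ring
  rw [e1] at hab
  have h7 : 0 ≤ -((n : ℝ) + 1 + δ) * p2 - (n + 1) * (s - 1) * p1 + (n + 1) * (δ + s) * p0 := by
    rw [← e2]; linarith
  have hp0nn : 0 ≤ p0 := Finset.sum_nonneg fun i _ => hP0 i
  push_cast at hBq hα' ⊢
  have hpos : (0 : ℝ) < (n : ℝ) + 1 + δ := by linarith
  have hq : 3 * ((n : ℝ) + 1) * (δ + s) ≤ (n + 1 + δ) * (4 * B ^ 2 - B) + 3 * (n + 1) * (s - 1) * B := by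
    have := mul_le_mul_of_nonneg_left hBq hpos.le
    have e : ((n : ℝ) + 1 + δ) * (3 * (((n : ℝ) + 1) / (n + 1 + δ)) * (δ + s)) = 3 * ((n : ℝ) + 1) * (δ + s) := by
      field_simp
    have e' : ((n : ℝ) + 1 + δ) * (4 * B ^ 2 + (3 * (((n : ℝ) + 1) / (n + 1 + δ)) * (s - 1) - 1) * B)
        = (n + 1 + δ) * (4 * B ^ 2 - B) + 3 * (n + 1) * (s - 1) * B := by
      field_simp
      ring
    rw [e, e'] at this
    exact this
  -- combine: multiply Abel by (n+1+δ), add 3*h7
  have h8 : 0 ≤ ((n : ℝ) + 1 + δ) * (3 * p2 - (8 * B - 1) * p1 + 4 * B ^ 2 * p0)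
      + 3 * (-((n : ℝ) + 1 + δ) * p2 - (n + 1) * (s - 1) * p1 + (n + 1) * (δ + s) * p0) := by
    have := mul_nonneg hpos.le hab
    linarith
  have h9 : (((n : ℝ) + 1 + δ) * (8 * B - 1) + 3 * (n + 1) * (s - 1)) * p1
      ≤ (((n : ℝ) + 1 + δ) * (8 * B - 1) + 3 * (n + 1) * (s - 1)) * (B * p0) := by
    have h10 : 3 * ((n : ℝ) + 1) * (δ + s) * p0 ≤
        ((n + 1 + δ) * (4 * B ^ 2 - B) + 3 * (n + 1) * (s - 1) * B) * p0 :=
      mul_le_mul_of_nonneg_right hq hp0nn
    nlinarith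
  have hcoef : (0 : ℝ) < ((n : ℝ) + 1 + δ) * (8 * B - 1) + 3 * (n + 1) * (s - 1) := by
    have : (0 : ℝ) ≤ n := by positivity
    nlinarith
  exact le_of_mul_le_mul_left h9 hcoef

end Spread

/-!
# Upper bound for the upper tail of a hypergeometric variable (median type bound)
-/

namespace Spread

open Finset

/-- real version of `n.choose k * (n+1) = (n+1).choose k * (n+1-k)`. -/
lemma choose_pred_real (n k : ℕ) :
    ((n.choose k : ℕ) : ℝ) * ((n : ℝ) + 1) = (((n + 1).choose k : ℕ) : ℝ) * ((n : ℝ) + 1 - k) := by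
  by_cases h : k ≤ n + 1
  · have := Nat.choose_mul_succ_eq n k
    have h2 : ((n.choose k * (n + 1) : ℕ) : ℝ) = (((n + 1).choose k * (n + 1 - k) : ℕ) : ℝ) := by
      rw [this]
    push_cast [Nat.cast_sub h] at h2
    exact h2
  · rw [Nat.choose_eq_zero_of_lt (by omega : n < k), Nat.choose_eq_zero_of_lt (by omega : n + 1 < k)]
    simp

/-- symmetric form of the tail -/
def F (M A r a : ℕ) : ℕ := ∑ j ∈ Ico a (A + 1), r.choose j * (M - r).choose (A - j)

lemma F_top {M A r a : ℕ} (h : a ≤ A) :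
    F M A r a = r.choose a * (M - r).choose (A - a) + F M A r (a + 1) := by
  unfold F
  rw [Finset.sum_eq_sum_Ico_succ_bot (by omega)]

lemma F_nil {M A r : ℕ} : F M A r (A + 1) = 0 := by
  unfold F; simp

lemma F_succ_aux {M A r : ℕ} (hr : r < M) :
    ∀ d a : ℕ, 1 ≤ a → a + d = A + 1 →
      F M A (r + 1) a = F M A r a + (if a ≤ A then r.choose (a - 1) * (M - r - 1).choose (A - a) else 0) := by
  intro d
  induction d with
  | zero =>
    intro a _ had
    have : a = A + 1 := by omega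
    subst this
    rw [F_nil, F_nil, if_neg (by omega)]
  | succ d ih =>
    intro a ha had
    have haA : a ≤ A := by omega
    rw [F_top haA, F_top haA, ih (a + 1) (by omega) (by omega), if_pos haA]
    obtain ⟨b, rfl⟩ : ∃ b, a = b + 1 := ⟨a - 1, by omega⟩
    obtain ⟨K, hK⟩ : ∃ K, M - r = K + 1 := ⟨M - r - 1, by omega⟩
    have hK1 : M - (r + 1) = K := by omega
    have hK2 : M - r - 1 = K := by omega
    rw [hK, hK1]
    simp only [Nat.add_sub_cancel]
    by_cases h : b + 1 + 1 ≤ A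
    · rw [if_pos h]
      obtain ⟨c, hc⟩ : ∃ c, A - (b + 1) = c + 1 := ⟨A - (b + 1) - 1, by omega⟩
      have hc2 : A - (b + 1 + 1) = c := by omega
      rw [hc, hc2, Nat.choose_succ_succ r b, Nat.choose_succ_succ K c]
      ring
    · rw [if_neg h]
      have : A - (b + 1) = 0 := by omega
      rw [this, Nat.choose_succ_succ r b]
      simp
      ring

lemma F_succ {M A r a : ℕ} (hr : r < M) (ha : 1 ≤ a) (haA : a ≤ A) :
    F M A (r + 1) a = F M A r a + r.choose (a - 1) * (M - r - 1).choose (A - a) := by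
  have := F_succ_aux (M := M) (A := A) hr (A + 1 - a) a ha (by omega)
  rw [if_pos haA] at this
  exact this

lemma F_zero {M A a : ℕ} (ha : 1 ≤ a) : F M A 0 a = 0 := by
  unfold F
  refine Finset.sum_eq_zero fun j hj => ?_
  have : a ≤ j := (Finset.mem_Ico.1 hj).1
  rw [Nat.choose_eq_zero_of_lt (by omega)]; simp

lemma F_eq_sum {M A a : ℕ} (ha : 1 ≤ a) (haA : a ≤ A) :
    ∀ r, r ≤ M → F M A r a = ∑ t ∈ range r, t.choose (a - 1) * (M - t - 1).choose (A - a) := by
  intro r
  induction r with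
  | zero => intro _; rw [F_zero ha]; simp
  | succ r ih =>
    intro hr
    rw [F_succ (by omega) ha haA, ih (by omega), Finset.sum_range_succ]

lemma F_full {M A a : ℕ} (haA : a ≤ A) : F M A M a = M.choose A := by
  unfold F
  rw [Finset.sum_Ico_succ_top (by omega)]
  have : ∑ j ∈ Ico a A, M.choose j * (M - M).choose (A - j) = 0 := by
    refine Finset.sum_eq_zero fun j hj => ?_
    have : j < A := (Finset.mem_Ico.1 hj).2
    rw [Nat.choose_eq_zero_of_lt (by omega : M - M < A - j)]; simp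
  rw [this]; simp

lemma eq_mul_div' {x y u v : ℝ} (hv : v ≠ 0) (h : x * v = y * u) : x = y * (u / v) := by
  rw [← mul_div_assoc, eq_div_iff hv]; exact h

lemma ratio_real (n a d i : ℝ) (hn : 0 ≤ n) (ha : 1 ≤ a) (hd : i + 2 ≤ d) (hi : 0 ≤ i) :
    (d - 1 - i) / (a + d - 1 - i) * (((n + 1) * (a + d) + i + 1) / ((n + 1) * d + i + 2))
      ≤ ((a + d + i + 1) / (d + i + 1)) * (((n + 1) * d - i) / ((n + 1) * (a + d) - 1 - i)) := by
  have hd0 : 0 < d := by linarith
  have p1 : 0 < a + d - 1 - i := by linarith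
  have p2 : 0 < (n + 1) * d + i + 2 := by positivity
  have p3 : 0 < d + i + 1 := by linarith
  have p4 : 0 < (n + 1) * (a + d) - 1 - i := by nlinarith
  rw [div_mul_div_comm, div_mul_div_comm, div_le_div_iff₀ (mul_pos p1 p2) (mul_pos p3 p4)]
  have hb2 : 0 ≤ (a + d) ^ 2 - (i + 1) ^ 2 := by nlinarith
  have hdd : 0 ≤ (a + d) ^ 2 - d ^ 2 := by nlinarith
  have hnn : 0 ≤ (n + 1) ^ 2 - 1 := by nlinarith
  have s1 : ((a + d) ^ 2 - (i + 1) ^ 2) * (((n + 1) * d) ^ 2 - (i + 1) ^ 2)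
      ≤ ((a + d) ^ 2 - (i + 1) ^ 2) * (((n + 1) * d + 1) ^ 2 - (i + 1) ^ 2) := by
    apply mul_le_mul_of_nonneg_left _ hb2
    have : 0 ≤ (n + 1) * d := by positivity
    nlinarith
  have s2 : ((a + d) ^ 2 - (i + 1) ^ 2) * (((n + 1) * d) ^ 2 - (i + 1) ^ 2)
      - (d ^ 2 - (i + 1) ^ 2) * (((n + 1) * (a + d)) ^ 2 - (i + 1) ^ 2)
      = (i + 1) ^ 2 * ((a + d) ^ 2 - d ^ 2) * ((n + 1) ^ 2 - 1) := by ring
  have s3 : 0 ≤ (i + 1) ^ 2 * ((a + d) ^ 2 - d ^ 2) * ((n + 1) ^ 2 - 1) := by positivity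
  calc (d - 1 - i) * ((n + 1) * (a + d) + i + 1) * ((d + i + 1) * ((n + 1) * (a + d) - 1 - i))
      = (d ^ 2 - (i + 1) ^ 2) * (((n + 1) * (a + d)) ^ 2 - (i + 1) ^ 2) := by ring
    _ ≤ ((a + d) ^ 2 - (i + 1) ^ 2) * (((n + 1) * d + 1) ^ 2 - (i + 1) ^ 2) := by linarith
    _ = _ := by ring

/-- the reflected inequality -/
lemma reflect {m α δ : ℕ} (hm : 2 ≤ m) (hα : 1 ≤ α) :
    ∀ i, i < δ →
      (((α + δ - 1 - i).choose α : ℕ) : ℝ) * ((((m - 1) * (α + δ) + i).choose ((m - 1) * α - 1) : ℕ) : ℝ)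
      ≤ (((α + δ + i).choose α : ℕ) : ℝ) * ((((m - 1) * (α + δ) - 1 - i).choose ((m - 1) * α - 1) : ℕ) : ℝ) := by
  obtain ⟨n, rfl⟩ : ∃ n, m = n + 2 := ⟨m - 2, by omega⟩
  have e0 : n + 2 - 1 = n + 1 := by omega
  rw [e0]
  have hα' : (1 : ℝ) ≤ α := by exact_mod_cast hα
  have hn0 : (0 : ℝ) ≤ n := by positivity
  have hn1 : 1 ≤ (n + 1) * α := by nlinarith
  have hk : (((n + 1) * α - 1 : ℕ) : ℝ) = ((n : ℝ) + 1) * α - 1 := by
    rw [Nat.cast_sub hn1]; push_cast; ring
  intro i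
  induction i with
  | zero =>
    intro hδ
    have hδ' : (1 : ℝ) ≤ δ := by exact_mod_cast hδ
    have hb1 : 1 ≤ (n + 1) * (α + δ) := by nlinarith
    have h1 := choose_pred_real (α + δ - 1) α
    have e1 : α + δ - 1 + 1 = α + δ := by omega
    have e1' : ((α + δ - 1 : ℕ) : ℝ) = (α : ℝ) + δ - 1 := by
      rw [Nat.cast_sub (by omega)]; push_cast; ring
    rw [e1, e1'] at h1
    have h2 := choose_pred_real ((n + 1) * (α + δ) - 1) ((n + 1) * α - 1)
    have e2 : (n + 1) * (α + δ) - 1 + 1 = (n + 1) * (α + δ) := by omega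
    have e2' : (((n + 1) * (α + δ) - 1 : ℕ) : ℝ) = ((n : ℝ) + 1) * (α + δ) - 1 := by
      rw [Nat.cast_sub hb1]; push_cast; ring
    rw [e2, e2', hk] at h2
    simp only [Nat.sub_zero, Nat.add_zero]
    set X1 := (((α + δ - 1).choose α : ℕ) : ℝ)
    set X2 := (((α + δ).choose α : ℕ) : ℝ) with hX2
    set Y1 := ((((n + 1) * (α + δ) - 1).choose ((n + 1) * α - 1) : ℕ) : ℝ)
    set Y2 := ((((n + 1) * (α + δ)).choose ((n + 1) * α - 1) : ℕ) : ℝ) with hY2
    have hX20 : 0 ≤ X2 := by positivity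
    have hY20 : 0 ≤ Y2 := by positivity
    have h1' : X1 = X2 * (δ / (α + δ)) := by
      field_simp; linarith
    have h2' : Y1 = Y2 * ((((n : ℝ) + 1) * δ + 1) / ((n + 1) * (α + δ))) := by
      field_simp; linarith
    rw [h1', h2']
    have hc : (δ : ℝ) / (α + δ) ≤ (((n : ℝ) + 1) * δ + 1) / ((n + 1) * (α + δ)) := by
      rw [div_le_div_iff₀ (by positivity) (by positivity)]
      nlinarith
    calc X2 * (δ / (α + δ)) * Y2 = (X2 * Y2) * (δ / (α + δ)) := by ring
      _ ≤ (X2 * Y2) * ((((n : ℝ) + 1) * δ + 1) / ((n + 1) * (α + δ))) :=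
        mul_le_mul_of_nonneg_left hc (by positivity)
      _ = _ := by ring
  | succ i ih =>
    intro hi
    have ih' := ih (by omega)
    have hiδ : (i : ℝ) + 2 ≤ δ := by exact_mod_cast hi
    have hi0 : (0 : ℝ) ≤ i := by positivity
    have hbig : i + 2 ≤ (n + 1) * (α + δ) := by nlinarith
    -- r1
    have h1 := choose_pred_real (α + δ - 1 - (i + 1)) α
    have e1 : α + δ - 1 - (i + 1) + 1 = α + δ - 1 - i := by omega
    have e1' : ((α + δ - 1 - (i + 1) : ℕ) : ℝ) = (α : ℝ) + δ - 2 - i := by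
      have : α + δ - 1 - (i + 1) = α + δ - (i + 2) := by omega
      rw [this, Nat.cast_sub (by omega)]; push_cast; ring
    rw [e1, e1'] at h1
    -- r2
    have h2 := choose_pred_real ((n + 1) * (α + δ) + i) ((n + 1) * α - 1)
    rw [hk] at h2
    push_cast at h2
    -- r3
    have h3 := choose_pred_real (α + δ + i) α
    push_cast at h3
    -- r4
    have h4 := choose_pred_real ((n + 1) * (α + δ) - 1 - (i + 1)) ((n + 1) * α - 1)
    have e4 : (n + 1) * (α + δ) - 1 - (i + 1) + 1 = (n + 1) * (α + δ) - 1 - i := by omega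
    have e4' : (((n + 1) * (α + δ) - 1 - (i + 1) : ℕ) : ℝ) = ((n : ℝ) + 1) * (α + δ) - 2 - i := by
      have : (n + 1) * (α + δ) - 1 - (i + 1) = (n + 1) * (α + δ) - (i + 2) := by omega
      rw [this, Nat.cast_sub (by omega)]; push_cast; ring
    rw [e4, e4', hk] at h4
    have e5 : (n + 1) * (α + δ) + (i + 1) = (n + 1) * (α + δ) + i + 1 := by ring
    have e6 : α + δ + (i + 1) = α + δ + i + 1 := by ring
    rw [e5, e6]
    set X1 := (((α + δ - 1 - (i + 1)).choose α : ℕ) : ℝ)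
    set X0 := (((α + δ - 1 - i).choose α : ℕ) : ℝ) with hX0
    set Y1 := ((((n + 1) * (α + δ) + i + 1).choose ((n + 1) * α - 1) : ℕ) : ℝ)
    set Y0 := ((((n + 1) * (α + δ) + i).choose ((n + 1) * α - 1) : ℕ) : ℝ) with hY0
    set Z1 := (((α + δ + i + 1).choose α : ℕ) : ℝ)
    set Z0 := (((α + δ + i).choose α : ℕ) : ℝ) with hZ0
    set V1 := ((((n + 1) * (α + δ) - 1 - (i + 1)).choose ((n + 1) * α - 1) : ℕ) : ℝ)
    set V0 := ((((n + 1) * (α + δ) - 1 - i).choose ((n + 1) * α - 1) : ℕ) : ℝ) with hV0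
    have hX00 : 0 ≤ X0 := by positivity
    have hY00 : 0 ≤ Y0 := by positivity
    have hZ00 : 0 ≤ Z0 := by positivity
    have hV00 : 0 ≤ V0 := by positivity
    -- positivity of the factors
    have p1 : (0 : ℝ) < (α : ℝ) + δ - 1 - i := by linarith
    have p2 : (0 : ℝ) < ((n : ℝ) + 1) * δ + i + 2 := by positivity
    have p3 : (0 : ℝ) < (δ : ℝ) + i + 1 := by positivity
    have p4 : (0 : ℝ) < ((n : ℝ) + 1) * (α + δ) - 1 - i := by nlinarith
    have p5 : (0 : ℝ) ≤ ((n : ℝ) + 1) * δ - i := by nlinarith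
    have p6 : (0 : ℝ) ≤ (δ : ℝ) - 1 - i := by linarith
    have q1 : X1 = X0 * ((δ - 1 - i) / (α + δ - 1 - i)) :=
      eq_mul_div' p1.ne' (by linear_combination h1)
    have q2 : Y1 = Y0 * ((((n : ℝ) + 1) * (α + δ) + i + 1) / ((n + 1) * δ + i + 2)) :=
      eq_mul_div' p2.ne' (by linear_combination -h2)
    have q3 : Z1 = Z0 * ((α + δ + i + 1) / (δ + i + 1)) :=
      eq_mul_div' p3.ne' (by linear_combination -h3)
    have q4 : V1 = V0 * ((((n : ℝ) + 1) * δ - i) / ((n + 1) * (α + δ) - 1 - i)) :=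
      eq_mul_div' p4.ne' (by linear_combination h4)
    rw [q1, q2, q3, q4]
    have hc := ratio_real (n : ℝ) α δ i hn0 hα' hiδ hi0
    calc X0 * ((δ - 1 - i) / (α + δ - 1 - i)) * (Y0 * ((((n : ℝ) + 1) * (α + δ) + i + 1) / ((n + 1) * δ + i + 2)))
        = (X0 * Y0) * (((δ : ℝ) - 1 - i) / (α + δ - 1 - i) * ((((n : ℝ) + 1) * (α + δ) + i + 1) / ((n + 1) * δ + i + 2))) := by ring
      _ ≤ (X0 * Y0) * ((((α : ℝ) + δ + i + 1) / (δ + i + 1)) * ((((n : ℝ) + 1) * δ - i) / ((n + 1) * (α + δ) - 1 - i))) :=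
        mul_le_mul_of_nonneg_left hc (by positivity)
      _ ≤ (Z0 * V0) * ((((α : ℝ) + δ + i + 1) / (δ + i + 1)) * ((((n : ℝ) + 1) * δ - i) / ((n + 1) * (α + δ) - 1 - i))) := by
        apply mul_le_mul_of_nonneg_right ih'
        apply mul_nonneg
        · positivity
        · exact div_nonneg p5 p4.le
      _ = _ := by ring

/-- `P(J ≥ α+1) ≤ 1/2` when the mean is `α`. -/
lemma median {m α δ : ℕ} (hm : 2 ≤ m) (hα : 1 ≤ α) (hδ : 1 ≤ δ) :
    2 * F (m * (α + δ)) (m * α) (α + δ) (α + 1) ≤ (m * (α + δ)).choose (m * α) := by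
  have hmα : α + 1 ≤ m * α := by nlinarith
  have hβM : (α + δ) + δ ≤ m * (α + δ) := by nlinarith
  set q : ℕ → ℕ := fun t => t.choose α * (m * (α + δ) - t - 1).choose (m * α - (α + 1)) with hq
  have h1 : F (m * (α + δ)) (m * α) (α + δ) (α + 1) = ∑ t ∈ range (α + δ), q t := by
    rw [F_eq_sum (by omega) hmα _ (by omega)]
    refine Finset.sum_congr rfl fun t _ => ?_
    simp [hq]
  have h2 : (m * (α + δ)).choose (m * α) = ∑ t ∈ range (m * (α + δ)), q t := by
    rw [← F_full (M := m * (α + δ)) (A := m * α) (a := α + 1) hmα, F_eq_sum (by omega) hmα _ le_rfl]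
    refine Finset.sum_congr rfl fun t _ => ?_
    simp [hq]
  have h3 : ∑ t ∈ range (α + δ), q t = ∑ i ∈ range δ, q (α + δ - 1 - i) := by
    rw [← Finset.sum_range_reflect, add_comm α δ, Finset.sum_range_add]
    have : ∑ x ∈ range α, q (δ + α - 1 - (δ + x)) = 0 := by
      refine Finset.sum_eq_zero fun x hx => ?_
      have hx' : x < α := by simpa using hx
      simp only [hq]
      rw [Nat.choose_eq_zero_of_lt (by omega : δ + α - 1 - (δ + x) < α)]; simp
    rw [this, add_zero]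
  have h4 : ∀ i ∈ range δ, q (α + δ - 1 - i) ≤ q (α + δ + i) := by
    intro i hi
    have hi' : i < δ := by simpa using hi
    have := reflect (δ := δ) hm hα i hi'
    simp only [hq]
    have e1 : m * (α + δ) - (α + δ - 1 - i) - 1 = (m - 1) * (α + δ) + i := by
      obtain ⟨n, rfl⟩ : ∃ n, m = n + 2 := ⟨m - 2, by omega⟩
      have : (n + 2) * (α + δ) = (n + 1) * (α + δ) + (α + δ) := by ring
      have e0 : n + 2 - 1 = n + 1 := by omega
      rw [this, e0]; omega
    have e2 : m * (α + δ) - (α + δ + i) - 1 = (m - 1) * (α + δ) - 1 - i := by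
      obtain ⟨n, rfl⟩ : ∃ n, m = n + 2 := ⟨m - 2, by omega⟩
      have : (n + 2) * (α + δ) = (n + 1) * (α + δ) + (α + δ) := by ring
      have e0 : n + 2 - 1 = n + 1 := by omega
      rw [this, e0]; omega
    have e3 : m * α - (α + 1) = (m - 1) * α - 1 := by
      obtain ⟨n, rfl⟩ : ∃ n, m = n + 2 := ⟨m - 2, by omega⟩
      have : (n + 2) * α = (n + 1) * α + α := by ring
      have e0 : n + 2 - 1 = n + 1 := by omega
      rw [this, e0]; omega
    rw [e1, e2, e3]
    exact_mod_cast this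
  have h5 : ∑ i ∈ range δ, q (α + δ - 1 - i) ≤ ∑ i ∈ range δ, q (α + δ + i) := Finset.sum_le_sum h4
  have h6 : ∑ t ∈ range (α + δ + δ), q t = ∑ t ∈ range (α + δ), q t + ∑ i ∈ range δ, q (α + δ + i) :=
    Finset.sum_range_add _ _ _
  have h7 : ∑ t ∈ range (α + δ + δ), q t ≤ ∑ t ∈ range (m * (α + δ)), q t :=
    Finset.sum_le_sum_of_subset (Finset.range_mono hβM)
  rw [h1, h2]
  omega

/-- The increments after `β`. -/
lemma incr {m α δ : ℕ} (hm : 1 ≤ m) (hα : 1 ≤ α) (hδ : 1 ≤ δ) :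
    ∀ i, α + δ + i ≤ m * (α + δ) →
      (((α + δ - 1 + i).choose (α - 1) : ℕ) : ℝ) *
        (((m * (α + δ) - (α + δ - 1 + i) - 1).choose (m * α - α) : ℕ) : ℝ)
      ≤ (α : ℝ) / (α + δ) * ((((α + δ).choose α : ℕ) : ℝ) * (((m * (α + δ) - (α + δ)).choose (m * α - α) : ℕ) : ℝ)) := by
  have hα' : (1 : ℝ) ≤ α := by exact_mod_cast hα
  have hδ' : (1 : ℝ) ≤ δ := by exact_mod_cast hδ
  have hm' : (1 : ℝ) ≤ m := by exact_mod_cast hm
  have hmα : α ≤ m * α := Nat.le_mul_of_pos_left α hm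
  intro i
  induction i with
  | zero =>
    intro h
    have h1 : ((α + δ - 1) + 1) * (α + δ - 1).choose (α - 1) = ((α + δ - 1) + 1).choose ((α - 1) + 1) * ((α - 1) + 1) :=
      Nat.add_one_mul_choose_eq _ _
    have e1 : α + δ - 1 + 1 = α + δ := by omega
    have e2 : α - 1 + 1 = α := by omega
    rw [e1, e2] at h1
    have h1' : ((α : ℝ) + δ) * (((α + δ - 1).choose (α - 1) : ℕ) : ℝ) = (((α + δ).choose α : ℕ) : ℝ) * α := by
      exact_mod_cast h1
    have e3 : m * (α + δ) - (α + δ - 1 + 0) - 1 = m * (α + δ) - (α + δ) := by omega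
    rw [e3, Nat.add_zero]
    apply le_of_eq
    field_simp
    linear_combination (((m * (α + δ) - (α + δ)).choose (m * α - α) : ℕ) : ℝ) * h1'
  | succ i ih =>
    intro h
    have ih' := ih (by omega)
    refine le_trans ?_ ih'
    have h1 := choose_pred_real (α + δ - 1 + i) (α - 1)
    have e1 : ((α + δ - 1 + i : ℕ) : ℝ) = (α : ℝ) + δ - 1 + i := by
      have : α + δ - 1 + i = α + δ + i - 1 := by omega
      rw [this, Nat.cast_sub (by omega)]; push_cast; ring
    have e1' : ((α - 1 : ℕ) : ℝ) = (α : ℝ) - 1 := by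
      rw [Nat.cast_sub hα]; push_cast; ring
    rw [e1, e1'] at h1
    have h2 := choose_pred_real (m * (α + δ) - (α + δ - 1 + (i + 1)) - 1) (m * α - α)
    have e2 : m * (α + δ) - (α + δ - 1 + (i + 1)) - 1 + 1 = m * (α + δ) - (α + δ - 1 + i) - 1 := by omega
    have e2' : ((m * (α + δ) - (α + δ - 1 + (i + 1)) - 1 : ℕ) : ℝ) = (m : ℝ) * (α + δ) - (α + δ) - i - 1 := by
      have : m * (α + δ) - (α + δ - 1 + (i + 1)) - 1 = m * (α + δ) - (α + δ + i + 1) := by omega
      rw [this, Nat.cast_sub (by omega)]; push_cast; ring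
    have e2'' : ((m * α - α : ℕ) : ℝ) = (m : ℝ) * α - α := by
      rw [Nat.cast_sub hmα]; push_cast; ring
    rw [e2, e2', e2''] at h2
    have e3 : α + δ - 1 + (i + 1) = α + δ - 1 + i + 1 := by ring
    rw [e3] at h2 ⊢
    set X1 := (((α + δ - 1 + i + 1).choose (α - 1) : ℕ) : ℝ) with hX1
    set X0 := (((α + δ - 1 + i).choose (α - 1) : ℕ) : ℝ) with hX0
    set Y1 := (((m * (α + δ) - (α + δ - 1 + i + 1) - 1).choose (m * α - α) : ℕ) : ℝ) with hY1
    set Y0 := (((m * (α + δ) - (α + δ - 1 + i) - 1).choose (m * α - α) : ℕ) : ℝ) with hY0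
    have hX00 : 0 ≤ X0 := by positivity
    have hY00 : 0 ≤ Y0 := by positivity
    have hi0 : (0 : ℝ) ≤ i := by positivity
    have hR : (α : ℝ) + δ + (i + 1) ≤ m * (α + δ) := by exact_mod_cast h
    -- h1 : X0 * (α+δ-1+i+1) = X1 * (α+δ-1+i+1 - (α-1))
    -- h2 : Y1 * (M - β - i - 1 + 1) = Y0 * (M-β-i-1+1 - (mα - α))
    have p1 : (0 : ℝ) < δ + 1 + i := by positivity
    have p2 : (0 : ℝ) < m * (α + δ) - (α + δ) - i := by linarith
    have q1 : X1 = X0 * ((α + δ + i) / (δ + 1 + i)) :=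
      eq_mul_div' p1.ne' (by linear_combination -h1)
    have q2 : Y1 = Y0 * ((m * (α + δ) - (α + δ) - i - (m * α - α)) / (m * (α + δ) - (α + δ) - i)) :=
      eq_mul_div' p2.ne' (by linear_combination h2)
    rw [q1, q2]
    have hc : ((α : ℝ) + δ + i) / (δ + 1 + i) * ((m * (α + δ) - (α + δ) - i - (m * α - α)) / (m * (α + δ) - (α + δ) - i)) ≤ 1 := by
      rw [div_mul_div_comm, div_le_one (by positivity)]
      have : 0 ≤ (m : ℝ) * i * α := by positivity
      nlinarith
    calc X0 * ((α + δ + i) / (δ + 1 + i)) * (Y0 * ((m * (α + δ) - (α + δ) - i - (m * α - α)) / (m * (α + δ) - (α + δ) - i)))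
        = (X0 * Y0) * (((α : ℝ) + δ + i) / (δ + 1 + i) * ((m * (α + δ) - (α + δ) - i - (m * α - α)) / (m * (α + δ) - (α + δ) - i))) := by ring
      _ ≤ (X0 * Y0) * 1 := mul_le_mul_of_nonneg_left hc (by positivity)
      _ = X0 * Y0 := by ring

/-- Combined tail bound in the symmetric form. -/
lemma F_bound {m α δ s : ℕ} (hm : 2 ≤ m) (hα : 1 ≤ α) (hδ : 1 ≤ δ) (hs : α + δ + s ≤ m * (α + δ)) :
    ((F (m * (α + δ)) (m * α) (α + δ + s) α : ℕ) : ℝ) ≤
      (((m * (α + δ)).choose (m * α) : ℕ) : ℝ) / 2 +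
      (1 + (α : ℝ) / (α + δ) * s) *
        ((((α + δ).choose α : ℕ) : ℝ) * (((m * (α + δ) - (α + δ)).choose (m * α - α) : ℕ) : ℝ)) := by
  have hmα : α ≤ m * α := Nat.le_mul_of_pos_left α (by omega)
  set W0 := ((((α + δ).choose α : ℕ) : ℝ) * (((m * (α + δ) - (α + δ)).choose (m * α - α) : ℕ) : ℝ)) with hW0
  induction s with
  | zero =>
    have h1 := median hm hα hδ
    have h2 : F (m * (α + δ)) (m * α) (α + δ) α = _ := F_top hmα
    have h1' : (2 : ℝ) * ((F (m * (α + δ)) (m * α) (α + δ) (α + 1) : ℕ) : ℝ) ≤ (((m * (α + δ)).choose (m * α) : ℕ) : ℝ) := by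
      exact_mod_cast h1
    rw [Nat.add_zero, h2]
    push_cast
    simp only [mul_zero, add_zero, one_mul]
    rw [hW0]
    linarith
  | succ s ih =>
    have ih' := ih (by omega)
    have h1 := F_succ (M := m * (α + δ)) (A := m * α) (r := α + δ + s) (a := α) (by omega) hα hmα
    have h2 := incr (m := m) (by omega) hα hδ (s + 1) hs
    have e1 : α + δ + (s + 1) = α + δ + s + 1 := by ring
    rw [e1, h1]
    have e2 : α + δ - 1 + (s + 1) = α + δ + s := by omega
    rw [e2] at h2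
    push_cast at h2 ih' ⊢
    rw [← hW0] at h2
    have e3 : (1 + (α : ℝ) / (α + δ) * (s + 1)) * W0 = (1 + (α : ℝ) / (α + δ) * s) * W0 + (α : ℝ) / (α + δ) * W0 := by
      ring
    rw [e3]
    linarith

/-- the two forms of the hypergeometric distribution -/
lemma swap {M A r j : ℕ} (hA : A ≤ M) (hr : r ≤ M) (hj : j ≤ r) :
    A.choose j * (M - A).choose (r - j) * M.choose A
      = (if j ≤ A then r.choose j * (M - r).choose (A - j) else 0) * M.choose r := by
  by_cases hjA : j ≤ A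
  · rw [if_pos hjA]
    have h1 := Nat.choose_mul (n := M) (k := A) (s := j) hjA
    have h2 := Nat.choose_mul (n := M) (k := r) (s := j) hj
    have h3 : (M - j).choose (A - j) * (M - A).choose (r - j) = (M - j).choose (r - j) * (M - r).choose (A - j) := by
      have hs := Nat.choose_mul (n := M - j) (k := (A - j) + (r - j)) (s := A - j) (by omega)
      have hs' := Nat.choose_mul (n := M - j) (k := (A - j) + (r - j)) (s := r - j) (by omega)
      have e1 : M - j - (A - j) = M - A := by omega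
      have e2 : (A - j) + (r - j) - (A - j) = r - j := by omega
      have e3 : M - j - (r - j) = M - r := by omega
      have e4 : (A - j) + (r - j) - (r - j) = A - j := by omega
      rw [e1, e2] at hs
      rw [e3, e4] at hs'
      rw [← hs, ← hs']
      congr 1
      have := Nat.choose_symm (n := (A - j) + (r - j)) (k := A - j) (by omega)
      rw [e2] at this
      exact this.symm
    calc A.choose j * (M - A).choose (r - j) * M.choose A
        = (M.choose A * A.choose j) * (M - A).choose (r - j) := by ring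
      _ = M.choose j * ((M - j).choose (A - j) * (M - A).choose (r - j)) := by rw [h1]; ring
      _ = M.choose j * ((M - j).choose (r - j) * (M - r).choose (A - j)) := by rw [h3]
      _ = (M.choose r * r.choose j) * (M - r).choose (A - j) := by rw [h2]; ring
      _ = _ := by ring
  · rw [if_neg hjA, Nat.choose_eq_zero_of_lt (by omega : A < j)]; simp

end Spread

/-!
# Upper bound for the central hypergeometric probability
-/

namespace Spread

open Finset Real

lemma log_fact (n : ℕ) (hn : n ≠ 0) :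
    Real.log (n.factorial : ℝ) = Real.log (Stirling.stirlingSeq n) + 1 / 2 * (Real.log 2 + Real.log n)
      + n * (Real.log n - 1) := by
  have h := Stirling.log_stirlingSeq_formula n
  have hn' : (n : ℝ) ≠ 0 := by exact_mod_cast hn
  rw [Real.log_div hn' (Real.exp_ne_zero 1), Real.log_exp, Real.log_mul two_ne_zero hn'] at h
  linarith

lemma log_choose (x y : ℕ) :
    Real.log (((x + y).choose x : ℕ) : ℝ) = Real.log ((x + y).factorial : ℝ) - Real.log (x.factorial : ℝ)
      - Real.log (y.factorial : ℝ) := by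
  have h := Nat.add_choose_mul_factorial_mul_factorial x y
  have h' : (((x + y).choose x : ℕ) : ℝ) * (x.factorial : ℝ) * (y.factorial : ℝ) = ((x + y).factorial : ℝ) := by
    rw [Nat.choose_symm_add]
    exact_mod_cast h
  have hc : (((x + y).choose x : ℕ) : ℝ) ≠ 0 := by
    have : 0 < (x + y).choose x := Nat.choose_pos (by omega)
    positivity
  have hx : (x.factorial : ℝ) ≠ 0 := by positivity
  have hy : (y.factorial : ℝ) ≠ 0 := by positivity
  rw [← h', Real.log_mul (mul_ne_zero hc hx) hy, Real.log_mul hc hx]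
  ring

lemma ell_anti {a b : ℕ} (ha : 1 ≤ a) (hab : a ≤ b) :
    Real.log (Stirling.stirlingSeq b) ≤ Real.log (Stirling.stirlingSeq a) := by
  obtain ⟨a', rfl⟩ : ∃ a', a = a' + 1 := ⟨a - 1, by omega⟩
  obtain ⟨b', rfl⟩ : ∃ b', b = b' + 1 := ⟨b - 1, by omega⟩
  exact Stirling.log_stirlingSeq'_antitone (by omega : a' ≤ b')

lemma ell_lower {a : ℕ} (ha : 1 ≤ a) : 1 / 2 * Real.log Real.pi ≤ Real.log (Stirling.stirlingSeq a) := by
  have h := Stirling.sqrt_pi_le_stirlingSeq (n := a) (by omega)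
  have h2 := Real.log_le_log (by positivity) h
  rw [Real.log_sqrt Real.pi_pos.le] at h2
  linarith

lemma central {m α δ : ℕ} (hm : 2 ≤ m) (hα : 1 ≤ α) (hδ : 1 ≤ δ) :
    ((((α + δ).choose α : ℕ) : ℝ) * (((m * (α + δ) - (α + δ)).choose (m * α - α) : ℕ) : ℝ))
      ≤ (((m * (α + δ)).choose (m * α) : ℕ) : ℝ) *
        (1 / Real.sqrt Real.pi * (1 / Real.sqrt ((α : ℝ) * δ / (α + δ)))) := by
  obtain ⟨n, rfl⟩ : ∃ n, m = n + 2 := ⟨m - 2, by omega⟩
  have e1 : (n + 2) * (α + δ) - (α + δ) = (n + 1) * α + (n + 1) * δ := by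
    have : (n + 2) * (α + δ) = (n + 1) * α + (n + 1) * δ + (α + δ) := by ring
    rw [this]; omega
  have e2 : (n + 2) * α - α = (n + 1) * α := by
    have : (n + 2) * α = (n + 1) * α + α := by ring
    rw [this]; omega
  have e3 : (n + 2) * (α + δ) = (n + 2) * α + (n + 2) * δ := by ring
  rw [e1, e2, e3]
  have hα' : (1 : ℝ) ≤ α := by exact_mod_cast hα
  have hδ' : (1 : ℝ) ≤ δ := by exact_mod_cast hδ
  have hn0 : (0 : ℝ) ≤ n := by positivity
  have c1 : (0 : ℝ) < (((α + δ).choose α : ℕ) : ℝ) := by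
    have : 0 < (α + δ).choose α := Nat.choose_pos (by omega)
    positivity
  have c2 : (0 : ℝ) < ((((n + 1) * α + (n + 1) * δ).choose ((n + 1) * α) : ℕ) : ℝ) := by
    have : 0 < ((n + 1) * α + (n + 1) * δ).choose ((n + 1) * α) := Nat.choose_pos (by omega)
    positivity
  have c3 : (0 : ℝ) < ((((n + 2) * α + (n + 2) * δ).choose ((n + 2) * α) : ℕ) : ℝ) := by
    have : 0 < ((n + 2) * α + (n + 2) * δ).choose ((n + 2) * α) := Nat.choose_pos (by omega)
    positivity
  have hq : 0 < (α : ℝ) * δ / (α + δ) := by positivity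
  have c4 : 0 < 1 / Real.sqrt Real.pi * (1 / Real.sqrt ((α : ℝ) * δ / (α + δ))) := by
    have := Real.sqrt_pos.2 hq
    have := Real.sqrt_pos.2 Real.pi_pos
    positivity
  rw [← Real.log_le_log_iff (mul_pos c1 c2) (mul_pos c3 c4)]
  rw [Real.log_mul c1.ne' c2.ne', Real.log_mul c3.ne' c4.ne', log_choose, log_choose, log_choose]
  have hsq : Real.log (1 / Real.sqrt Real.pi * (1 / Real.sqrt ((α : ℝ) * δ / (α + δ))))
      = - (1 / 2 * Real.log Real.pi) - 1 / 2 * (Real.log α + Real.log δ - Real.log (α + δ)) := by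
    have s1 := (Real.sqrt_pos.2 Real.pi_pos).ne'
    have s2 := (Real.sqrt_pos.2 hq).ne'
    rw [Real.log_mul (one_div_ne_zero s1) (one_div_ne_zero s2), one_div, one_div, Real.log_inv,
      Real.log_inv, Real.log_sqrt Real.pi_pos.le, Real.log_sqrt hq.le,
      Real.log_div (by positivity) (by positivity), Real.log_mul (by positivity) (by positivity)]
    ring
  rw [hsq]
  have e4 : (n + 1) * α + (n + 1) * δ = (n + 1) * (α + δ) := by ring
  have e5 : (n + 2) * α + (n + 2) * δ = (n + 2) * (α + δ) := by ring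
  rw [e4, e5]
  have hne : ∀ a b : ℕ, 1 ≤ a → 1 ≤ b → a * b ≠ 0 := by
    intro a b h1 h2; have := Nat.mul_pos h1 h2; omega
  rw [log_fact (α + δ) (by omega), log_fact α (by omega), log_fact δ (by omega),
    log_fact ((n + 1) * (α + δ)) (hne _ _ (by omega) (by omega)),
    log_fact ((n + 1) * α) (hne _ _ (by omega) (by omega)),
    log_fact ((n + 1) * δ) (hne _ _ (by omega) (by omega)),
    log_fact ((n + 2) * (α + δ)) (hne _ _ (by omega) (by omega)),
    log_fact ((n + 2) * α) (hne _ _ (by omega) (by omega)),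
    log_fact ((n + 2) * δ) (hne _ _ (by omega) (by omega))]
  push_cast
  have hn1 : ((n : ℝ) + 1) ≠ 0 := by positivity
  have hn2 : ((n : ℝ) + 2) ≠ 0 := by positivity
  have hβ : ((α : ℝ) + δ) ≠ 0 := by positivity
  have hαne : (α : ℝ) ≠ 0 := by positivity
  have hδne : (δ : ℝ) ≠ 0 := by positivity
  rw [Real.log_mul hn1 hβ, Real.log_mul hn1 hαne, Real.log_mul hn1 hδne, Real.log_mul hn2 hβ,
    Real.log_mul hn2 hαne, Real.log_mul hn2 hδne]
  -- ell inequalities
  have l1 : Real.log (Stirling.stirlingSeq (α + δ)) ≤ Real.log (Stirling.stirlingSeq α) :=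
    ell_anti hα (by omega)
  have l2 : Real.log (Stirling.stirlingSeq ((n + 1) * (α + δ))) ≤ Real.log (Stirling.stirlingSeq δ) :=
    ell_anti hδ (by nlinarith)
  have l3 : Real.log (Stirling.stirlingSeq ((n + 2) * α)) ≤ Real.log (Stirling.stirlingSeq ((n + 1) * α)) :=
    ell_anti (by nlinarith) (by nlinarith)
  have l4 : Real.log (Stirling.stirlingSeq ((n + 2) * δ)) ≤ Real.log (Stirling.stirlingSeq ((n + 1) * δ)) :=
    ell_anti (by nlinarith) (by nlinarith)
  have l5 : 1 / 2 * Real.log Real.pi ≤ Real.log (Stirling.stirlingSeq ((n + 2) * (α + δ))) :=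
    ell_lower (by nlinarith)
  -- log(m/(2(m-1))) ≤ 0
  have l6 : Real.log ((n : ℝ) + 2) ≤ Real.log 2 + Real.log ((n : ℝ) + 1) := by
    rw [← Real.log_mul two_ne_zero hn1]
    apply Real.log_le_log (by positivity)
    linarith
  nlinarith [l1, l2, l3, l4, l5, l6]

/-- numeric form -/
lemma central' {m α δ : ℕ} (hm : 2 ≤ m) (hα : 1 ≤ α) (hδ : 1 ≤ δ) {c : ℝ} (hc : 0.5643 ≤ c) :
    ((((α + δ).choose α : ℕ) : ℝ) * (((m * (α + δ) - (α + δ)).choose (m * α - α) : ℕ) : ℝ))
      ≤ (((m * (α + δ)).choose (m * α) : ℕ) : ℝ) *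
        (c / Real.sqrt ((α : ℝ) * δ / (α + δ))) := by
  refine (central hm hα hδ).trans ?_
  apply mul_le_mul_of_nonneg_left _ (by positivity)
  have hα' : (1 : ℝ) ≤ α := by exact_mod_cast hα
  have hδ' : (1 : ℝ) ≤ δ := by exact_mod_cast hδ
  have hq : 0 < Real.sqrt ((α : ℝ) * δ / (α + δ)) := Real.sqrt_pos.2 (by positivity)
  rw [← mul_div_assoc, mul_one, div_le_div_iff_of_pos_right hq]
  have hpi : (1.7723 : ℝ) ≤ Real.sqrt Real.pi := by
    apply Real.le_sqrt_of_sq_le
    have := Real.pi_gt_d4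
    norm_num at this ⊢
    linarith
  have : 1 / Real.sqrt Real.pi ≤ 1 / 1.7723 := by
    apply one_div_le_one_div_of_le (by norm_num) hpi
  have h2 : (1 : ℝ) / 1.7723 ≤ 0.5643 := by norm_num
  linarith

end Spread

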