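import Pool.Agent.Lib.MP_33b3f7_co.SpreadA

/-!
# The three regimes, in abstract form
-/

namespace Spread

open Finset

/-- `Σ_{k=1}^n 1/(x+k)` -/
noncomputable def A (n : ℕ) (x : ℝ) : ℝ := ∑ k ∈ range n, 1 / (x + ((k : ℝ) + 1))

/-- `Σ_{k=1}^n 1/(x+k)^2` -/
noncomputable def A2 (n : ℕ) (x : ℝ) : ℝ := ∑ k ∈ range n, 1 / (x + ((k : ℝ) + 1)) ^ 2

lemma A_pos {n : ℕ} (hn : 1 ≤ n) {x : ℝ} (hx : 0 ≤ x) : 0 < A n x := by
  unfold A
  apply Finset.sum_pos
  · intro k _; positivity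
  · exact ⟨0, by simp; omega⟩

lemma A2_pos {n : ℕ} (hn : 1 ≤ n) {x : ℝ} (hx : 0 ≤ x) : 0 < A2 n x := by
  unfold A2
  apply Finset.sum_pos
  · intro k _; positivity
  · exact ⟨0, by simp; omega⟩

lemma rate_add {a i : ℕ} : rate a (a + i) = (a : ℝ) / A a i := by
  unfold rate
  rw [if_pos (by omega), H_sub (by omega)]
  have : a + i - a = i := by omega
  rw [this]; rfl

/-- averages decrease -/
lemma avg_lt {α δ : ℕ} (hα : 1 ≤ α) (hδ : 1 ≤ δ) {x s : ℝ} (hx : 0 ≤ x) (hxs : x ≤ s) :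
    (α : ℝ) * A (α + δ) s < ((α : ℝ) + δ) * A α x := by
  have hα' : (1 : ℝ) ≤ α := by exact_mod_cast hα
  have hδ' : (1 : ℝ) ≤ δ := by exact_mod_cast hδ
  have hs : 0 ≤ s := hx.trans hxs
  have h1 : A (α + δ) s = A α s + ∑ i ∈ range δ, 1 / (s + (((α + i : ℕ) : ℝ) + 1)) := by
    unfold A; rw [Finset.sum_range_add]
  have h2 : A α s ≤ A α x := by
    unfold A
    refine Finset.sum_le_sum fun k _ => ?_
    apply one_div_le_one_div_of_le (by positivity)
    linarith
  have h3 : (α : ℝ) * (1 / (s + α)) ≤ A α s := by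
    unfold A
    have : ∑ k ∈ range α, 1 / (s + (α : ℝ)) ≤ ∑ k ∈ range α, 1 / (s + ((k : ℝ) + 1)) := by
      refine Finset.sum_le_sum fun k hk => ?_
      have hk' : k + 1 ≤ α := by simpa using hk
      have hk'' : (k : ℝ) + 1 ≤ α := by exact_mod_cast hk'
      apply one_div_le_one_div_of_le (by positivity)
      linarith
    rw [Finset.sum_const, card_range, nsmul_eq_mul] at this
    exact this
  have h4 : ∑ i ∈ range δ, 1 / (s + (((α + i : ℕ) : ℝ) + 1)) < δ * (1 / (s + α)) := by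
    have : ∑ i ∈ range δ, 1 / (s + (((α + i : ℕ) : ℝ) + 1)) < ∑ i ∈ range δ, 1 / (s + (α : ℝ)) := by
      apply Finset.sum_lt_sum_of_nonempty ⟨0, by simp; omega⟩
      intro i _
      apply one_div_lt_one_div_of_lt (by positivity)
      push_cast
      have : (0 : ℝ) ≤ i := by positivity
      linarith
    rw [Finset.sum_const, card_range, nsmul_eq_mul] at this
    exact this
  rw [h1]
  have hc : 0 < 1 / (s + (α : ℝ)) := by positivity
  nlinarith

section
variable (m α δ s : ℕ)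

/-- lower tail mass -/
noncomputable def P0 : ℝ := ∑ i ∈ range α, w (m * α) (m * δ) (α + δ + s) (α - 1 - i)
/-- lower tail overshoot -/
noncomputable def Em : ℝ := ∑ i ∈ range α, w (m * α) (m * δ) (α + δ + s) (α - 1 - i) * ((i : ℝ) + 1)
/-- upper tail mass -/
noncomputable def Pi : ℝ := ∑ i ∈ range (δ + s + 1), w (m * α) (m * δ) (α + δ + s) (α + i)
/-- upper tail excess -/
noncomputable def E1 : ℝ := ∑ i ∈ range (δ + s + 1), w (m * α) (m * δ) (α + δ + s) (α + i) * (i : ℝ)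
/-- total -/
noncomputable def W : ℝ := (((m * (α + δ)).choose (α + δ + s) : ℕ) : ℝ)

lemma P0_nonneg : 0 ≤ P0 m α δ s := Finset.sum_nonneg fun _ _ => w_nonneg _ _ _ _
lemma Pi_nonneg : 0 ≤ Pi m α δ s := Finset.sum_nonneg fun _ _ => w_nonneg _ _ _ _
lemma Em_nonneg : 0 ≤ Em m α δ s := Finset.sum_nonneg fun _ _ =>
  mul_nonneg (w_nonneg _ _ _ _) (by positivity)
lemma E1_nonneg : 0 ≤ E1 m α δ s := Finset.sum_nonneg fun _ _ =>
  mul_nonneg (w_nonneg _ _ _ _) (by positivity)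

lemma W_pos (h : α + δ + s ≤ m * (α + δ)) : 0 < W m α δ s := by
  unfold W
  have := Nat.choose_pos h
  exact_mod_cast this

/-- splitting sums at `α` -/
lemma split (g : ℕ → ℝ) :
    ∑ j ∈ range (α + δ + s + 1), w (m * α) (m * δ) (α + δ + s) j * g j
      = ∑ i ∈ range α, w (m * α) (m * δ) (α + δ + s) (α - 1 - i) * g (α - 1 - i)
        + ∑ i ∈ range (δ + s + 1), w (m * α) (m * δ) (α + δ + s) (α + i) * g (α + i) := by
  have e : α + δ + s + 1 = α + (δ + s + 1) := by ring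
  rw [e, Finset.sum_range_add]
  congr 1
  exact (Finset.sum_range_reflect (fun j => w (m * α) (m * δ) (α + δ + s) j * g j) α).symm

lemma total : P0 m α δ s + Pi m α δ s = W m α δ s := by
  have h1 := split m α δ s (fun _ => 1)
  simp only [mul_one] at h1
  unfold P0 Pi W
  rw [← h1, w_sum]
  congr 2; ring

lemma mean_id (hm : 1 ≤ m) (hα : 1 ≤ α) :
    E1 m α δ s = W m α δ s * ((α : ℝ) * s / (α + δ)) + Em m α δ s := by
  have hα' : (1 : ℝ) ≤ α := by exact_mod_cast hα
  have hm' : (1 : ℝ) ≤ m := by exact_mod_cast hm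
  have hβ : (0 : ℝ) < (α : ℝ) + δ := by positivity
  have h1 := w_mean (m * α) (m * δ) (α + δ + s)
  rw [split] at h1
  push_cast at h1
  have h2 : ∑ i ∈ range α, w (m * α) (m * δ) (α + δ + s) (α - 1 - i) *
        (((α - 1 - i : ℕ) : ℝ) * ((m : ℝ) * α + m * δ) - m * α * (α + δ + s))
      = - (m * (α + δ)) * Em m α δ s - m * α * s * P0 m α δ s := by
    unfold Em P0
    rw [Finset.mul_sum, Finset.mul_sum, ← Finset.sum_sub_distrib]
    refine Finset.sum_congr rfl fun i hi => ?_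
    have hi' : i < α := by simpa using hi
    have e : ((α - 1 - i : ℕ) : ℝ) = α - 1 - i := by
      rw [Nat.cast_sub (by omega), Nat.cast_sub (by omega)]; simp
    rw [e]; ring
  have h3 : ∑ i ∈ range (δ + s + 1), w (m * α) (m * δ) (α + δ + s) (α + i) *
        (((α : ℝ) + i) * ((m : ℝ) * α + m * δ) - m * α * (α + δ + s))
      = (m * (α + δ)) * E1 m α δ s - m * α * s * Pi m α δ s := by
    unfold E1 Pi
    rw [Finset.mul_sum, Finset.mul_sum, ← Finset.sum_sub_distrib]
    exact Finset.sum_congr rfl fun i _ => by ring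
  rw [h2, h3] at h1
  have h4 := total m α δ s
  have hmm : (m : ℝ) ≠ 0 := by positivity
  field_simp
  have : (m : ℝ) * (E1 m α δ s * (α + δ)) = m * (W m α δ s * (α * s) + (α + δ) * Em m α δ s) := by
    rw [← h4]; linear_combination h1
  have h5 := mul_left_cancel₀ hmm this
  linarith

/-- variance bound for the positive part -/
lemma E1_var (hm : 1 ≤ m) (hα : 1 ≤ α) (hδ : 1 ≤ δ) {t : ℝ} (ht : 0 < t) :
    E1 m α δ s ≤ W m α δ s *
      ((((α : ℝ) * s / (α + δ) + t) ^ 2 + (α + δ + s) * (α / (α + δ)) * (δ / (α + δ))) / (4 * t)) := by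
  have hα' : (1 : ℝ) ≤ α := by exact_mod_cast hα
  have hδ' : (1 : ℝ) ≤ δ := by exact_mod_cast hδ
  have hm' : (1 : ℝ) ≤ m := by exact_mod_cast hm
  have h1 := w_var (m * α) (m * δ) (α + δ + s) (by omega) (by nlinarith) ((α : ℝ) - t)
  have h2 : E1 m α δ s ≤ (∑ j ∈ range (α + δ + s + 1), w (m * α) (m * δ) (α + δ + s) j * ((j : ℝ) - (α - t)) ^ 2) / (4 * t) := by
    rw [split, le_div_iff₀ (by positivity)]
    have h3 : 0 ≤ ∑ i ∈ range α, w (m * α) (m * δ) (α + δ + s) (α - 1 - i) * (((α - 1 - i : ℕ) : ℝ) - (α - t)) ^ 2 :=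
      Finset.sum_nonneg fun _ _ => mul_nonneg (w_nonneg _ _ _ _) (by positivity)
    have h4 : E1 m α δ s * (4 * t) ≤ ∑ i ∈ range (δ + s + 1), w (m * α) (m * δ) (α + δ + s) (α + i) * (((α + i : ℕ) : ℝ) - (α - t)) ^ 2 := by
      unfold E1
      rw [Finset.sum_mul]
      refine Finset.sum_le_sum fun i _ => ?_
      rw [mul_assoc]
      apply mul_le_mul_of_nonneg_left _ (w_nonneg _ _ _ _)
      push_cast
      nlinarith [sq_nonneg ((i : ℝ) - t)]
    linarith
  refine h2.trans ?_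
  rw [div_le_iff₀ (by positivity)]
  refine h1.trans (le_of_eq ?_)
  have e : m * α + m * δ = m * (α + δ) := by ring
  rw [e]
  unfold W
  push_cast
  field_simp
  ring

/-- the upper tail mass is at most `1/2 + (c/q)(1+x)`. -/
lemma Pi_bound (hm : 2 ≤ m) (hα : 1 ≤ α) (hδ : 1 ≤ δ) (hs : α + δ + s ≤ m * (α + δ)) {c : ℝ}
    (hc : 0.5643 ≤ c) :
    Pi m α δ s ≤ W m α δ s *
      (1 / 2 + c / Real.sqrt ((α : ℝ) * δ / (α + δ)) * (1 + (α : ℝ) * s / (α + δ))) := by
  have hmα : α ≤ m * α := Nat.le_mul_of_pos_left α (by omega)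
  have hU : (0 : ℝ) < (((m * (α + δ)).choose (m * α) : ℕ) : ℝ) := by
    have : 0 < (m * (α + δ)).choose (m * α) := Nat.choose_pos (Nat.mul_le_mul_left m (by omega))
    exact_mod_cast this
  set U := (((m * (α + δ)).choose (m * α) : ℕ) : ℝ) with hUdef
  have hF := F_bound (s := s) hm hα hδ hs
  have hcen := central' hm hα hδ hc
  rw [← hUdef] at hcen hF
  -- Pi * U = F * W
  have key : Pi m α δ s * U = ((F (m * (α + δ)) (m * α) (α + δ + s) α : ℕ) : ℝ) * W m α δ s := by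
    unfold Pi W F
    push_cast
    rw [Finset.sum_mul, Finset.sum_mul]
    -- both sides as sums over a common range
    have hL : ∑ i ∈ range (δ + s + 1), w (m * α) (m * δ) (α + δ + s) (α + i) * U
        = ∑ j ∈ Ico α (α + δ + s + 1), w (m * α) (m * δ) (α + δ + s) j * U := by
      rw [Finset.sum_Ico_eq_sum_range]
      have : α + δ + s + 1 - α = δ + s + 1 := by omega
      rw [this]
    rw [hL]
    -- extend to Ico α (max ...)
    set K := max (α + δ + s + 1) (m * α + 1) with hK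
    have h1 : ∑ j ∈ Ico α (α + δ + s + 1), w (m * α) (m * δ) (α + δ + s) j * U
        = ∑ j ∈ Ico α K, w (m * α) (m * δ) (α + δ + s) j * U := by
      apply Finset.sum_subset
      · intro j hj; rw [Finset.mem_Ico] at hj ⊢; omega
      · intro j hj hj'
        rw [Finset.mem_Ico] at hj hj'
        rw [w_gt (by omega)]; simp
    have h2 : ∑ j ∈ Ico α (m * α + 1), (((α + δ + s).choose j : ℕ) : ℝ) * (((m * (α + δ) - (α + δ + s)).choose (m * α - j) : ℕ) : ℝ) * (((m * (α + δ)).choose (α + δ + s) : ℕ) : ℝ)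
        = ∑ j ∈ Ico α K, (if j ≤ m * α then (((α + δ + s).choose j : ℕ) : ℝ) * (((m * (α + δ) - (α + δ + s)).choose (m * α - j) : ℕ) : ℝ) else 0) * (((m * (α + δ)).choose (α + δ + s) : ℕ) : ℝ) := by
      rw [← Finset.sum_subset (s₁ := Ico α (m * α + 1)) (s₂ := Ico α K)]
      · refine Finset.sum_congr rfl fun j hj => ?_
        rw [Finset.mem_Ico] at hj
        rw [if_pos (by omega)]
      · intro j hj; rw [Finset.mem_Ico] at hj ⊢; omega
      · intro j hj hj'
        rw [Finset.mem_Ico] at hj hj'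
        rw [if_neg (by omega)]; simp
    rw [h1, h2]
    refine Finset.sum_congr rfl fun j hj => ?_
    unfold w
    by_cases hj' : j ≤ α + δ + s
    · rw [if_pos hj']
      have hsw := swap (M := m * (α + δ)) (A := m * α) (r := α + δ + s) (j := j)
        (Nat.mul_le_mul_left m (by omega)) hs hj'
      have e : m * (α + δ) - m * α = m * δ := by
        rw [Nat.mul_add]; omega
      rw [e] at hsw
      by_cases hjA : j ≤ m * α
      · rw [if_pos hjA] at hsw ⊢
        rw [hUdef]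
        exact_mod_cast hsw
      · rw [if_neg hjA] at hsw ⊢
        rw [hUdef]
        exact_mod_cast hsw
    · rw [if_neg hj', Nat.choose_eq_zero_of_lt (by omega : α + δ + s < j)]
      simp
  have hW := W_pos m α δ s hs
  have hx : (0 : ℝ) ≤ (α : ℝ) / (α + δ) * s := by positivity
  have hF' : ((F (m * (α + δ)) (m * α) (α + δ + s) α : ℕ) : ℝ) ≤
      U * (1 / 2 + c / Real.sqrt ((α : ℝ) * δ / (α + δ)) * (1 + (α : ℝ) * s / (α + δ))) := by
    refine hF.trans ?_
    have := mul_le_mul_of_nonneg_left hcen (by positivity : (0 : ℝ) ≤ 1 + (α : ℝ) / (α + δ) * s)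
    have e : (α : ℝ) * s / (α + δ) = (α : ℝ) / (α + δ) * s := by ring
    rw [e]
    nlinarith
  have : Pi m α δ s * U ≤ (W m α δ s *
      (1 / 2 + c / Real.sqrt ((α : ℝ) * δ / (α + δ)) * (1 + (α : ℝ) * s / (α + δ)))) * U := by
    rw [key]
    calc _ ≤ (U * (1 / 2 + c / Real.sqrt ((α : ℝ) * δ / (α + δ)) * (1 + (α : ℝ) * s / (α + δ)))) * W m α δ s :=
          mul_le_mul_of_nonneg_right hF' hW.le
      _ = _ := by ring
  exact le_of_mul_le_mul_right this hU

/-- The rate sum. -/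
lemma T_eq (hm : 1 ≤ m) :
    T (m * (α + δ)) (m * α) (rate α) (α + δ + s)
      = ∑ i ∈ range (δ + s + 1), w (m * α) (m * δ) (α + δ + s) (α + i) * (α / A α i) := by
  have e : m * (α + δ) - m * α = m * δ := by rw [Nat.mul_add]; omega
  have h1 : T (m * (α + δ)) (m * α) (rate α) (α + δ + s)
      = ∑ j ∈ range (α + δ + s + 1), w (m * α) (m * δ) (α + δ + s) j * rate α j := by
    unfold T
    rw [e]
    refine Finset.sum_congr rfl fun j hj => ?_
    have : j ≤ α + δ + s := by simpa [Nat.lt_succ_iff] using hj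
    unfold w; rw [if_pos this]
  rw [h1, split]
  have h2 : ∑ i ∈ range α, w (m * α) (m * δ) (α + δ + s) (α - 1 - i) * rate α (α - 1 - i) = 0 := by
    refine Finset.sum_eq_zero fun i hi => ?_
    have : i < α := by simpa using hi
    rw [rate_zero (by omega)]; simp
  rw [h2, zero_add]
  refine Finset.sum_congr rfl fun i _ => ?_
  rw [rate_add]

/-- Jensen/Cauchy–Schwarz -/
lemma jensen (hα : 1 ≤ α) (v : ℕ → ℝ) (hv : ∀ k, 0 ≤ v k) :
    (∑ i ∈ range (δ + s + 1), w (m * α) (m * δ) (α + δ + s) (α + i) * (α / A α i))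
        * (∑ k ∈ range α, v k) ^ 2
      ≤ α * ∑ k ∈ range α, v k ^ 2 * (E1 m α δ s + Pi m α δ s * ((k : ℝ) + 1)) := by
  have h1 : ∀ i : ℕ, (α / A α i) * (∑ k ∈ range α, v k) ^ 2
      ≤ α * ∑ k ∈ range α, v k ^ 2 * ((i : ℝ) + ((k : ℝ) + 1)) := by
    intro i
    have hA : 0 < A α (i : ℝ) := A_pos hα (by positivity)
    have hcs : (∑ k ∈ range α, v k) ^ 2 ≤
        (∑ k ∈ range α, v k ^ 2 * ((i : ℝ) + ((k : ℝ) + 1))) * (∑ k ∈ range α, 1 / ((i : ℝ) + ((k : ℝ) + 1))) := by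
      apply Finset.sum_sq_le_sum_mul_sum_of_sq_eq_mul
      · intro k _; have := hv k; positivity
      · intro k _; positivity
      · intro k _
        field_simp
    have hcs' : (∑ k ∈ range α, v k) ^ 2 ≤
        (∑ k ∈ range α, v k ^ 2 * ((i : ℝ) + ((k : ℝ) + 1))) * A α (i : ℝ) := hcs
    rw [div_mul_eq_mul_div, div_le_iff₀ hA, mul_assoc]
    exact mul_le_mul_of_nonneg_left hcs' (by positivity)
  rw [Finset.sum_mul]
  calc ∑ i ∈ range (δ + s + 1), w (m * α) (m * δ) (α + δ + s) (α + i) * (α / A α i) * (∑ k ∈ range α, v k) ^ 2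
      ≤ ∑ i ∈ range (δ + s + 1), w (m * α) (m * δ) (α + δ + s) (α + i) * (α * ∑ k ∈ range α, v k ^ 2 * ((i : ℝ) + ((k : ℝ) + 1))) := by
        refine Finset.sum_le_sum fun i _ => ?_
        rw [mul_assoc]
        exact mul_le_mul_of_nonneg_left (h1 i) (w_nonneg _ _ _ _)
    _ = α * ∑ i ∈ range (δ + s + 1), ∑ k ∈ range α, w (m * α) (m * δ) (α + δ + s) (α + i) * (v k ^ 2 * ((i : ℝ) + ((k : ℝ) + 1))) := by
        rw [Finset.mul_sum]
        refine Finset.sum_congr rfl fun i _ => ?_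
        rw [Finset.mul_sum, Finset.mul_sum, Finset.mul_sum]
        exact Finset.sum_congr rfl fun k _ => by ring
    _ = α * ∑ k ∈ range α, ∑ i ∈ range (δ + s + 1), w (m * α) (m * δ) (α + δ + s) (α + i) * (v k ^ 2 * ((i : ℝ) + ((k : ℝ) + 1))) := by
        rw [Finset.sum_comm]
    _ = _ := by
        congr 1
        refine Finset.sum_congr rfl fun k _ => ?_
        unfold E1 Pi
        rw [Finset.sum_mul, ← Finset.sum_add_distrib, Finset.mul_sum]
        exact Finset.sum_congr rfl fun i _ => by ring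

end

/-- The goal for one quadruple. -/
def Goal (m α δ s : ℕ) : Prop :=
  T (m * (α + δ)) (m * α) (rate α) (α + δ + s)
    < (((m * (α + δ)).choose (α + δ + s) : ℕ) : ℝ) * rate (α + δ) (α + δ + s)

lemma goal_of {m α δ s : ℕ} (hm : 1 ≤ m) (hα : 1 ≤ α) (hs : α + δ + s ≤ m * (α + δ))
    {X : ℝ} (hX : 0 < X)
    (h1 : (∑ i ∈ range (δ + s + 1), w (m * α) (m * δ) (α + δ + s) (α + i) * (α / A α i)) * X
      ≤ α * W m α δ s)
    (h2 : (α : ℝ) * A (α + δ) s < ((α : ℝ) + δ) * X) : Goal m α δ s := by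
  unfold Goal
  rw [T_eq m α δ s hm, rate_add]
  have hA : 0 < A (α + δ) (s : ℝ) := A_pos (by omega) (by positivity)
  have hW := W_pos m α δ s hs
  have hW' : (((m * (α + δ)).choose (α + δ + s) : ℕ) : ℝ) = W m α δ s := rfl
  rw [hW']
  set S := ∑ i ∈ range (δ + s + 1), w (m * α) (m * δ) (α + δ + s) (α + i) * (α / A α i) with hS
  rw [← mul_div_assoc, lt_div_iff₀ hA]
  push_cast
  have h3 : S * A (α + δ) s * X < W m α δ s * ((α : ℝ) + δ) * X := by
    calc S * A (α + δ) s * X = (S * X) * A (α + δ) s := by ring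
      _ ≤ (α * W m α δ s) * A (α + δ) s := mul_le_mul_of_nonneg_right h1 hA.le
      _ = W m α δ s * (α * A (α + δ) s) := by ring
      _ < W m α δ s * (((α : ℝ) + δ) * X) := mul_lt_mul_of_pos_left h2 hW
      _ = _ := by ring
  exact lt_of_mul_lt_mul_right h3 hX.le

/-- common estimate for regimes I and R -/
lemma regime_pre {m α δ s : ℕ} (hm : 1 ≤ m) (hα : 1 ≤ α) (hδ : 1 ≤ δ) {B : ℝ} (hB : 1 ≤ B)
    (hBq : 3 * ((α : ℝ) / (α + δ)) * (δ + s) ≤
      4 * B ^ 2 + (3 * ((α : ℝ) / (α + δ)) * (s - 1) - 1) * B) {x : ℝ} (hx : x = (α : ℝ) * s / (α + δ)) :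
    (∑ i ∈ range (δ + s + 1), w (m * α) (m * δ) (α + δ + s) (α + i) * (α / A α i)) * (A α x) ^ 2
      ≤ α * (W m α δ s * A α x - P0 m α δ s * (A α x - (x + B) * A2 α x)) := by
  have hx0 : 0 ≤ x := by rw [hx]; positivity
  have hov := overshoot (m := m) (s := s) hm hα hδ hB hBq
  have hov' : Em m α δ s ≤ B * P0 m α δ s := hov
  have hmean := mean_id m α δ s hm hα
  rw [← hx] at hmean
  have htot := total m α δ s
  have hj := jensen m α δ s hα (fun k => 1 / (x + ((k : ℝ) + 1))) (fun k => by positivity)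
  have hAdef : ∑ k ∈ range α, 1 / (x + ((k : ℝ) + 1)) = A α x := rfl
  rw [hAdef] at hj
  refine hj.trans ?_
  apply mul_le_mul_of_nonneg_left _ (by positivity)
  have h1 : ∀ k ∈ range α, (1 / (x + ((k : ℝ) + 1))) ^ 2 * (E1 m α δ s + Pi m α δ s * ((k : ℝ) + 1))
      ≤ W m α δ s * (1 / (x + ((k : ℝ) + 1))) - P0 m α δ s * ((1 / (x + ((k : ℝ) + 1))) - (x + B) * (1 / (x + ((k : ℝ) + 1)) ^ 2)) := by
    intro k _
    have hk : 0 < x + ((k : ℝ) + 1) := by positivity
    have h2 : E1 m α δ s + Pi m α δ s * ((k : ℝ) + 1)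
        ≤ W m α δ s * (x + ((k : ℝ) + 1)) - P0 m α δ s * ((x + ((k : ℝ) + 1)) - (x + B)) := by
      rw [hmean, ← htot]; nlinarith
    have h3 := mul_le_mul_of_nonneg_left h2 (by positivity : 0 ≤ (1 / (x + ((k : ℝ) + 1))) ^ 2)
    refine h3.trans (le_of_eq ?_)
    field_simp
  refine (Finset.sum_le_sum h1).trans (le_of_eq ?_)
  unfold A A2
  rw [Finset.sum_sub_distrib, ← Finset.mul_sum, ← Finset.mul_sum, Finset.sum_sub_distrib, ← Finset.mul_sum]

/-- Regime I -/
lemma regimeI {m α δ s : ℕ} (hm : 1 ≤ m) (hα : 1 ≤ α) (hδ : 1 ≤ δ) (hs : α + δ + s ≤ m * (α + δ))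
    {B : ℝ} (hB : 1 ≤ B)
    (hBq : 3 * ((α : ℝ) / (α + δ)) * (δ + s) ≤
      4 * B ^ 2 + (3 * ((α : ℝ) / (α + δ)) * (s - 1) - 1) * B) {x : ℝ} (hx : x = (α : ℝ) * s / (α + δ))
    (hA : (x + B) * A2 α x ≤ A α x) : Goal m α δ s := by
  have hx0 : 0 ≤ x := by rw [hx]; positivity
  have hpre := regime_pre (s := s) hm hα hδ hB hBq hx
  have hAp : 0 < A α x := A_pos hα hx0
  have hα' : (1 : ℝ) ≤ α := by exact_mod_cast hα
  have hP := P0_nonneg m α δ s
  apply goal_of hm hα hs hAp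
  · have h1 : (∑ i ∈ range (δ + s + 1), w (m * α) (m * δ) (α + δ + s) (α + i) * (α / A α i)) * (A α x) * A α x
      ≤ (α * W m α δ s) * A α x := by
      have : 0 ≤ P0 m α δ s * (A α x - (x + B) * A2 α x) := mul_nonneg hP (by linarith)
      have h2 : (α : ℝ) * (W m α δ s * A α x - P0 m α δ s * (A α x - (x + B) * A2 α x)) ≤ α * (W m α δ s * A α x) :=
        mul_le_mul_of_nonneg_left (by linarith) (by positivity)
      calc _ = (∑ i ∈ range (δ + s + 1), w (m * α) (m * δ) (α + δ + s) (α + i) * (α / A α i)) * (A α x) ^ 2 := by ring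
        _ ≤ _ := hpre
        _ ≤ _ := h2
        _ = _ := by ring
    exact le_of_mul_le_mul_right h1 hAp
  · apply avg_lt hα hδ hx0
    rw [hx, div_le_iff₀ (by positivity)]
    have : (0 : ℝ) ≤ s := by positivity
    have : (0 : ℝ) ≤ δ := by positivity
    nlinarith

/-- Regime R (relaxed) -/
lemma regimeR {m α δ s : ℕ} (hm : 1 ≤ m) (hα : 1 ≤ α) (hδ : 1 ≤ δ) (hs : α + δ + s ≤ m * (α + δ))
    {B : ℝ} (hB : 1 ≤ B)
    (hBq : 3 * ((α : ℝ) / (α + δ)) * (δ + s) ≤
      4 * B ^ 2 + (3 * ((α : ℝ) / (α + δ)) * (s - 1) - 1) * B) {x : ℝ} (hx : x = (α : ℝ) * s / (α + δ))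
    (hA : (α : ℝ) * A (α + δ) s * ((x + B) * A2 α x) < (α + δ) * (A α x) ^ 2) : Goal m α δ s := by
  by_cases hcase : (x + B) * A2 α x ≤ A α x
  · exact regimeI hm hα hδ hs hB hBq hx hcase
  push Not at hcase
  have hx0 : 0 ≤ x := by rw [hx]; positivity
  have hpre := regime_pre (s := s) hm hα hδ hB hBq hx
  have hAp : 0 < A α x := A_pos hα hx0
  have hA2p : 0 < A2 α x := A2_pos hα hx0
  have hα' : (1 : ℝ) ≤ α := by exact_mod_cast hα
  have hP := P0_nonneg m α δ s
  have htot := total m α δ s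
  have hPi := Pi_nonneg m α δ s
  have hBx : 0 < (x + B) * A2 α x := by positivity
  have hX : 0 < (A α x) ^ 2 / ((x + B) * A2 α x) := by positivity
  apply goal_of hm hα hs hX
  · rw [← mul_div_assoc, div_le_iff₀ hBx]
    refine hpre.trans ?_
    have h3 : P0 m α δ s ≤ W m α δ s := by linarith
    have h4 : P0 m α δ s * ((x + B) * A2 α x - A α x) ≤ W m α δ s * ((x + B) * A2 α x - A α x) :=
      mul_le_mul_of_nonneg_right h3 (by linarith)
    calc α * (W m α δ s * A α x - P0 m α δ s * (A α x - (x + B) * A2 α x))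
        ≤ α * (W m α δ s * ((x + B) * A2 α x)) := by
          apply mul_le_mul_of_nonneg_left _ (by positivity)
          nlinarith
      _ = _ := by ring
  · rw [← mul_div_assoc, lt_div_iff₀ hBx]
    linarith

/-- Regime II -/
lemma regimeII {m α δ s : ℕ} (hm : 1 ≤ m) (hα : 1 ≤ α) (hs : α + δ + s ≤ m * (α + δ))
    {e p : ℝ} (he0 : 0 ≤ e) (hp0 : 0 < p) (he : E1 m α δ s ≤ W m α δ s * e)
    (hp : Pi m α δ s ≤ W m α δ s * p)
    (h : (α : ℝ) * p * A (α + δ) s < (α + δ) * A α (e / p)) : Goal m α δ s := by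
  have hj := jensen m α δ s hα (fun k => 1 / (e / p + ((k : ℝ) + 1))) (fun k => by positivity)
  have hAdef : ∑ k ∈ range α, 1 / (e / p + ((k : ℝ) + 1)) = A α (e / p) := rfl
  rw [hAdef] at hj
  have hAp : 0 < A α (e / p) := A_pos hα (by positivity)
  have hX : 0 < A α (e / p) / p := by positivity
  apply goal_of hm hα hs hX
  · set S := ∑ i ∈ range (δ + s + 1), w (m * α) (m * δ) (α + δ + s) (α + i) * (α / A α i) with hS
    have h1 : ∑ k ∈ range α, (1 / (e / p + ((k : ℝ) + 1))) ^ 2 * (E1 m α δ s + Pi m α δ s * ((k : ℝ) + 1))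
        ≤ W m α δ s * p * A α (e / p) := by
      unfold A
      rw [Finset.mul_sum]
      refine Finset.sum_le_sum fun k _ => ?_
      have hk : 0 < e / p + ((k : ℝ) + 1) := by positivity
      have h2 : E1 m α δ s + Pi m α δ s * ((k : ℝ) + 1) ≤ W m α δ s * p * (e / p + ((k : ℝ) + 1)) := by
        have h3 : Pi m α δ s * ((k : ℝ) + 1) ≤ W m α δ s * p * ((k : ℝ) + 1) :=
          mul_le_mul_of_nonneg_right hp (by positivity)
        have h4 : W m α δ s * p * (e / p + ((k : ℝ) + 1)) = W m α δ s * e + W m α δ s * p * ((k : ℝ) + 1) := by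
          field_simp
        rw [h4]; linarith
      have h3 := mul_le_mul_of_nonneg_left h2 (by positivity : 0 ≤ (1 / (e / p + ((k : ℝ) + 1))) ^ 2)
      refine h3.trans (le_of_eq ?_)
      field_simp
    have h5 : S * (A α (e / p)) ^ 2 ≤ α * (W m α δ s * p * A α (e / p)) :=
      hj.trans (mul_le_mul_of_nonneg_left h1 (by positivity))
    have h6 : (S * (A α (e / p) / p)) * (p * A α (e / p)) ≤ (α * W m α δ s) * (p * A α (e / p)) := by
      calc _ = S * (A α (e / p)) ^ 2 := by field_simp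
        _ ≤ _ := h5
        _ = _ := by ring
    exact le_of_mul_le_mul_right h6 (by positivity)
  · rw [← mul_div_assoc, lt_div_iff₀ hp0]
    linarith

end Spread

/-!
# Analytic bounds for the harmonic-type sums
-/

namespace Spread

open Finset

/-- `exp y ≥ 1 + y/(1 - 0.4 y)` on `(0,1]`, in logarithmic form. -/
lemma term_lower {t : ℝ} (ht : 1 ≤ t) : Real.log ((t + 0.6) / (t - 0.4)) ≤ 1 / t := by
  have h1 : 0 < t - 0.4 := by linarith
  have h2 : 0 < (t + 0.6) / (t - 0.4) := by positivity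
  rw [Real.log_le_iff_le_exp h2]
  have hy0 : 0 ≤ 1 / t := by positivity
  have hy1 : 1 / t ≤ 1 := by rw [div_le_one (by linarith)]; exact ht
  set y := 1 / t with hy
  have h3 : 1 + y + y ^ 2 / 2 + y ^ 3 / 6 ≤ Real.exp y := by
    have := Real.sum_le_exp_of_nonneg hy0 4
    simp [Finset.sum_range_succ, Nat.factorial] at this
    linarith
  refine le_trans ?_ h3
  have ht' : t = 1 / y := by rw [hy]; field_simp
  have hyp : 0 < y := by rw [hy]; positivity
  rw [div_le_iff₀ h1, ht']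
  have e : (1 + y + y ^ 2 / 2 + y ^ 3 / 6) * (1 / y - 0.4) - (1 / y + 0.6)
      = y * (1 - y) * (0.1 + y * (1/15)) := by
    field_simp
    ring
  have : 0 ≤ y * (1 - y) * (0.1 + y * (1/15)) := by
    apply mul_nonneg (mul_nonneg hyp.le (by linarith)) (by positivity)
  linarith

lemma term_upper {t : ℝ} (ht : 1 ≤ t) : 1 / t ≤ Real.log ((t + 1 / 2) / (t - 1 / 2)) := by
  have h1 : 0 < t - 1 / 2 := by linarith
  have h := Real.le_log_one_add_of_nonneg (x := 1 / (t - 1 / 2)) (by positivity)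
  have h1' : t - 1 / 2 ≠ 0 := h1.ne'
  have ht0 : t ≠ 0 := by linarith
  have e0 : 1 / (t - 1 / 2) + 2 = 2 * t / (t - 1 / 2) := by
    rw [eq_div_iff h1', add_mul, div_mul_cancel₀ _ h1']; ring
  have e1 : 2 * (1 / (t - 1 / 2)) / (1 / (t - 1 / 2) + 2) = 1 / t := by
    rw [e0, mul_one_div, div_div_div_cancel_right₀ h1']
    rw [div_eq_div_iff (by positivity) ht0]; ring
  have e2 : 1 + 1 / (t - 1 / 2) = (t + 1 / 2) / (t - 1 / 2) := by
    rw [eq_div_iff h1', add_mul, div_mul_cancel₀ _ h1']; ring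
  rw [e1, e2] at h
  exact h

lemma A_lower (n : ℕ) {x : ℝ} (hx : 0 ≤ x) : Real.log (1 + n / (x + 0.6)) ≤ A n x := by
  induction n with
  | zero => simp [A]
  | succ n ih =>
    have h1 : A (n + 1) x = A n x + 1 / (x + ((n : ℝ) + 1)) := by
      unfold A; rw [Finset.sum_range_succ]
    rw [h1]
    have h2 := term_lower (t := x + ((n : ℝ) + 1)) (by
      have : (0 : ℝ) ≤ n := by positivity
      linarith)
    have h3 : Real.log (1 + ((n + 1 : ℕ) : ℝ) / (x + 0.6)) =
        Real.log (1 + n / (x + 0.6)) + Real.log ((x + ((n : ℝ) + 1) + 0.6) / (x + ((n : ℝ) + 1) - 0.4)) := by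
      have hn : (0 : ℝ) ≤ n := by positivity
      have e1 : x + ((n : ℝ) + 1) - 0.4 = x + 0.6 + n := by ring
      rw [e1, ← Real.log_mul (by positivity) (by positivity)]
      congr 1
      push_cast
      field_simp
      ring
    rw [h3]
    linarith

lemma A_upper (n : ℕ) {x : ℝ} (hx : 0 ≤ x) : A n x ≤ Real.log (1 + n / (x + 1 / 2)) := by
  induction n with
  | zero => simp [A]
  | succ n ih =>
    have h1 : A (n + 1) x = A n x + 1 / (x + ((n : ℝ) + 1)) := by
      unfold A; rw [Finset.sum_range_succ]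
    rw [h1]
    have h2 := term_upper (t := x + ((n : ℝ) + 1)) (by
      have : (0 : ℝ) ≤ n := by positivity
      linarith)
    have h3 : Real.log (1 + ((n + 1 : ℕ) : ℝ) / (x + 1 / 2)) =
        Real.log (1 + n / (x + 1 / 2)) + Real.log ((x + ((n : ℝ) + 1) + 1 / 2) / (x + ((n : ℝ) + 1) - 1 / 2)) := by
      have hn : (0 : ℝ) ≤ n := by positivity
      have e1 : x + ((n : ℝ) + 1) - 1 / 2 = x + 1 / 2 + n := by ring
      rw [e1, ← Real.log_mul (by positivity) (by positivity)]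
      congr 1
      push_cast
      field_simp
      ring
    rw [h3]
    linarith

lemma A2_upper (n : ℕ) {x : ℝ} (hx : 0 ≤ x) : A2 n x ≤ n / ((x + 1 / 2) * (x + n + 1 / 2)) := by
  have key : A2 n x ≤ 1 / (x + 1 / 2) - 1 / (x + n + 1 / 2) := by
    induction n with
    | zero => simp [A2]
    | succ n ih =>
      have h1 : A2 (n + 1) x = A2 n x + 1 / (x + ((n : ℝ) + 1)) ^ 2 := by
        unfold A2; rw [Finset.sum_range_succ]
      rw [h1]
      have hn : (0 : ℝ) ≤ n := by positivity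
      have h2 : 1 / (x + ((n : ℝ) + 1)) ^ 2 ≤ 1 / (x + n + 1 / 2) - 1 / (x + ((n + 1 : ℕ) : ℝ) + 1 / 2) := by
        push_cast
        rw [div_sub_div _ _ (by positivity) (by positivity), div_le_div_iff₀ (by positivity) (by positivity)]
        nlinarith
      linarith
  refine key.trans (le_of_eq ?_)
  have hn : (0 : ℝ) ≤ n := by positivity
  field_simp
  ring

/-- upper bound for `A` from a starting value -/
lemma A_upper_from (n0 n : ℕ) (h : n0 ≤ n) {x : ℝ} (hx : 0 ≤ x) :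
    A n x ≤ A n0 x + Real.log ((x + n + 1 / 2) / (x + n0 + 1 / 2)) := by
  induction n, h using Nat.le_induction with
  | base =>
    have hn : (0 : ℝ) ≤ n0 := by positivity
    rw [div_self (by positivity)]; simp
  | succ n hn ih =>
    have h1 : A (n + 1) x = A n x + 1 / (x + ((n : ℝ) + 1)) := by
      unfold A; rw [Finset.sum_range_succ]
    rw [h1]
    have h2 := term_upper (t := x + ((n : ℝ) + 1)) (by
      have : (0 : ℝ) ≤ n := by positivity
      linarith)
    have h3 : Real.log ((x + ((n + 1 : ℕ) : ℝ) + 1 / 2) / (x + n0 + 1 / 2)) =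
        Real.log ((x + n + 1 / 2) / (x + n0 + 1 / 2)) + Real.log ((x + ((n : ℝ) + 1) + 1 / 2) / (x + ((n : ℝ) + 1) - 1 / 2)) := by
      have hn : (0 : ℝ) ≤ n := by positivity
      have hn0 : (0 : ℝ) ≤ n0 := by positivity
      have e1 : x + ((n : ℝ) + 1) - 1 / 2 = x + n + 1 / 2 := by ring
      rw [e1, ← Real.log_mul (by positivity) (by positivity)]
      congr 1
      push_cast
      field_simp
    rw [h3]
    linarith

/-- The function `f_{n,B}(x) = A - (x+B) A2` as a sum. -/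
lemma f_eq (n : ℕ) {x : ℝ} (hx : 0 ≤ x) (B : ℝ) :
    A n x - (x + B) * A2 n x = ∑ k ∈ range n, ((k : ℝ) + 1 - B) / (x + ((k : ℝ) + 1)) ^ 2 := by
  unfold A A2
  rw [Finset.mul_sum, ← Finset.sum_sub_distrib]
  refine Finset.sum_congr rfl fun k _ => ?_
  have : 0 < x + ((k : ℝ) + 1) := by positivity
  field_simp
  ring

/-- monotonicity of regime I -/
lemma mono_I {n n' : ℕ} {x x' B : ℝ} (hx : 0 ≤ x) (hxx : x ≤ x') (hn : n ≤ n') (hB0 : 0 ≤ B)
    (hBn : B ≤ n + 1) (h : (x + B) * A2 n x ≤ A n x) : (x' + B) * A2 n' x' ≤ A n' x' := by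
  have hx' : 0 ≤ x' := hx.trans hxx
  have h1 : 0 ≤ ∑ k ∈ range n, ((k : ℝ) + 1 - B) / (x + ((k : ℝ) + 1)) ^ 2 := by
    rw [← f_eq n hx B]; linarith
  suffices h2 : 0 ≤ ∑ k ∈ range n', ((k : ℝ) + 1 - B) / (x' + ((k : ℝ) + 1)) ^ 2 by
    rw [← f_eq n' hx' B] at h2; linarith
  have h3 : 0 ≤ ∑ k ∈ range n, ((k : ℝ) + 1 - B) / (x' + ((k : ℝ) + 1)) ^ 2 := by
    rcases eq_or_lt_of_le (by linarith : 0 ≤ x + B) with h0 | h0
    · -- x = 0 and B = 0
      have hB : B = 0 := by linarith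
      subst hB
      apply Finset.sum_nonneg
      intro k _
      have : (0 : ℝ) ≤ (k : ℝ) + 1 - 0 := by simp; positivity
      positivity
    have h4 : ((x + B) / (x' + B)) ^ 2 * ∑ k ∈ range n, ((k : ℝ) + 1 - B) / (x + ((k : ℝ) + 1)) ^ 2
        ≤ ∑ k ∈ range n, ((k : ℝ) + 1 - B) / (x' + ((k : ℝ) + 1)) ^ 2 := by
      rw [Finset.mul_sum]
      refine Finset.sum_le_sum fun k _ => ?_
      have hk : (0 : ℝ) < (k : ℝ) + 1 := by positivity
      have hp : 0 < x + ((k : ℝ) + 1) := by positivity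
      have hp' : 0 < x' + ((k : ℝ) + 1) := by positivity
      have hq' : 0 < x' + B := by linarith
      have e1 : ((k : ℝ) + 1 - B) / (x' + ((k : ℝ) + 1)) ^ 2
          = ((x + ((k : ℝ) + 1)) / (x' + ((k : ℝ) + 1))) ^ 2 * (((k : ℝ) + 1 - B) / (x + ((k : ℝ) + 1)) ^ 2) := by
        field_simp
      rw [e1]
      rcases le_total B ((k : ℝ) + 1) with hB | hB
      · apply mul_le_mul_of_nonneg_right
        · apply pow_le_pow_left₀ (by positivity)
          rw [div_le_div_iff₀ hq' hp']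
          nlinarith
        · apply div_nonneg (by linarith) (by positivity)
      · apply mul_le_mul_of_nonpos_right
        · apply pow_le_pow_left₀ (by positivity)
          rw [div_le_div_iff₀ hp' hq']
          nlinarith
        · apply div_nonpos_of_nonpos_of_nonneg (by linarith) (by positivity)
    exact le_trans (mul_nonneg (by positivity) h1) h4
  obtain ⟨d, rfl⟩ := Nat.exists_eq_add_of_le hn
  rw [Finset.sum_range_add]
  apply add_nonneg h3
  apply Finset.sum_nonneg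
  intro k _
  apply div_nonneg _ (by positivity)
  push_cast
  have : (0 : ℝ) ≤ k := by positivity
  linarith

end Spread

/-!
# Easy cases: `m = 1`, `α = 1`, and `2 ≤ α ≤ δ`
-/

namespace Spread

open Finset

lemma goal_m_one {α δ s : ℕ} (hα : 1 ≤ α) (hδ : 1 ≤ δ) (hs : α + δ + s ≤ 1 * (α + δ)) :
    Goal 1 α δ s := by
  have hs0 : s = 0 := by omega
  subst hs0
  have hW := W_pos 1 α δ 0 hs
  apply regimeII (e := 0) (p := 1) le_rfl hα hs le_rfl one_pos
  · rw [mul_zero]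
    apply le_of_eq
    unfold E1
    refine Finset.sum_eq_zero fun i _ => ?_
    rcases Nat.eq_zero_or_pos i with h | h
    · subst h; simp
    · have : w (1 * α) (1 * δ) (α + δ + 0) (α + i) = 0 := by
        unfold w
        split_ifs
        · rw [Nat.choose_eq_zero_of_lt (by omega : 1 * α < α + i)]; simp
        · rfl
      rw [this, zero_mul]
  · have h1 := total 1 α δ 0
    have h2 := P0_nonneg 1 α δ 0
    linarith
  · have := avg_lt (x := 0) (s := 0) hα hδ le_rfl le_rfl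
    simpa using this

lemma H_lt {n : ℕ} (hn : 2 ≤ n) : A n 0 < n := by
  unfold A
  have h : ∑ k ∈ range n, 1 / ((0 : ℝ) + ((k : ℝ) + 1)) < ∑ k ∈ range n, (1 : ℝ) := by
    apply Finset.sum_lt_sum
    · intro k _
      rw [div_le_one (by positivity)]
      have : (0 : ℝ) ≤ k := by positivity
      linarith
    · refine ⟨1, by simp; omega, ?_⟩
      norm_num
  simpa using h

lemma goal_alpha_one {m δ s : ℕ} (hm : 1 ≤ m) (hδ : 1 ≤ δ) (hs : 1 + δ + s ≤ m * (1 + δ)) :
    Goal m 1 δ s := by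
  have hδ' : (1 : ℝ) ≤ δ := by exact_mod_cast hδ
  have hs' : (0 : ℝ) ≤ s := by positivity
  have hX : (0 : ℝ) < (1 + (δ : ℝ)) / (1 + δ + s) := by positivity
  have hmean := mean_id m 1 δ s hm le_rfl
  have hEm : Em m 1 δ s = P0 m 1 δ s := by
    unfold Em P0; simp
  have htot := total m 1 δ s
  apply goal_of (X := (1 + (δ : ℝ)) / (1 + δ + s)) hm le_rfl hs hX
  · have h1 : ∑ i ∈ range (δ + s + 1), w (m * 1) (m * δ) (1 + δ + s) (1 + i) * (((1 : ℕ) : ℝ) / A 1 i)
        = E1 m 1 δ s + Pi m 1 δ s := by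
      unfold E1 Pi
      rw [← Finset.sum_add_distrib]
      refine Finset.sum_congr rfl fun i _ => ?_
      have : ((1 : ℕ) : ℝ) / A 1 i = (i : ℝ) + 1 := by
        unfold A; simp
      rw [this]; ring
    rw [h1, hmean, hEm]
    have h2 : W m 1 δ s * (((1 : ℕ) : ℝ) * s / (((1 : ℕ) : ℝ) + δ)) + P0 m 1 δ s + Pi m 1 δ s
        = W m 1 δ s * ((1 + δ + s) / (1 + δ)) := by
      rw [add_assoc, htot]
      push_cast
      field_simp
      ring
    rw [h2]
    apply le_of_eq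
    push_cast
    field_simp
  · -- A (1+δ) s < (1+δ)^2/(1+δ+s)
    have h1 : A (1 + δ) s * (1 + δ + s) ≤ (1 + δ) * A (1 + δ) 0 := by
      unfold A
      rw [Finset.sum_mul, Finset.mul_sum]
      refine Finset.sum_le_sum fun k hk => ?_
      have hk' : k < 1 + δ := by simpa using hk
      have hk'' : (k : ℝ) + 1 ≤ 1 + δ := by
        have : k + 1 ≤ 1 + δ := hk'
        exact_mod_cast this
      rw [div_mul_eq_mul_div, mul_one_div, div_le_div_iff₀ (by positivity) (by positivity)]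
      nlinarith
    have h2 := H_lt (n := 1 + δ) (by omega)
    push_cast at h2 ⊢
    rw [one_mul, ← mul_div_assoc, lt_div_iff₀ (by positivity)]
    nlinarith

/-- Bernoulli in logarithmic form -/
lemma bern {Q θ : ℝ} (hQ : 0 < Q) (h0 : 0 ≤ θ) (h1 : θ ≤ 1) :
    θ * Real.log Q ≤ Real.log (1 + θ * (Q - 1)) := by
  have h := rpow_one_add_le_one_add_mul_self (s := Q - 1) (by linarith) h0 h1
  have e : 1 + (Q - 1) = Q := by ring
  rw [e] at h
  rw [← Real.log_rpow hQ]
  exact Real.log_le_log (Real.rpow_pos_of_pos hQ θ) h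

/-- `E1 ≤ W y` with `y = (x+√(x²+V))/2`. -/
lemma E1_le {m α δ s : ℕ} (hm : 1 ≤ m) (hα : 1 ≤ α) (hδ : 1 ≤ δ) {x V : ℝ}
    (hx : x = (α : ℝ) * s / (α + δ)) (hV : V = (α + δ + s) * (α / (α + δ)) * (δ / (α + δ))) :
    E1 m α δ s ≤ W m α δ s * ((x + Real.sqrt (x ^ 2 + V)) / 2) := by
  have hα' : (1 : ℝ) ≤ α := by exact_mod_cast hα
  have hδ' : (1 : ℝ) ≤ δ := by exact_mod_cast hδ
  have hV0 : 0 < V := by rw [hV]; positivity
  have hxV : 0 < x ^ 2 + V := by positivity
  have ht : 0 < Real.sqrt (x ^ 2 + V) := Real.sqrt_pos.mpr hxV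
  have h := E1_var m α δ s hm hα hδ ht
  rw [← hx, ← hV] at h
  refine h.trans (le_of_eq ?_)
  congr 1
  have hsq := Real.sq_sqrt hxV.le
  set t := Real.sqrt (x ^ 2 + V)
  rw [div_eq_div_iff (by positivity) (by norm_num)]
  nlinarith

/-- core of case A -/
lemma caseA_core {m α δ s : ℕ} (hm : 1 ≤ m) (hα : 1 ≤ α) (hδ : 1 ≤ δ) (hs : α + δ + s ≤ m * (α + δ))
    (hαδ : α ≤ δ) {y Q : ℝ} (hy0 : 0 ≤ y) (hQ : 1 ≤ Q) (hE : E1 m α δ s ≤ W m α δ s * y)
    (hA : A (α + δ) s ≤ Real.log (Q ^ 2))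
    (h : (2 * y + 1.2) * (Q - 1) < α + δ) : Goal m α δ s := by
  have hα' : (1 : ℝ) ≤ α := by exact_mod_cast hα
  have hδ' : (1 : ℝ) ≤ δ := by exact_mod_cast hδ
  have hαδ' : (α : ℝ) ≤ δ := by exact_mod_cast hαδ
  have h1 := total m α δ s
  have h2 := P0_nonneg m α δ s
  apply regimeII (e := y) (p := 1) hm hα hs hy0 one_pos hE (by linarith)
  rw [div_one, mul_one]
  have h3 := A_lower α hy0
  have h4 := bern (Q := Q) (θ := 2 * (α : ℝ) / (α + δ)) (by linarith) (by positivity)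
    (by rw [div_le_one (by positivity)]; linarith)
  have h5 : Real.log (1 + 2 * (α : ℝ) / (α + δ) * (Q - 1)) < Real.log (1 + α / (y + 0.6)) := by
    apply Real.log_lt_log
    · have : 0 ≤ 2 * (α : ℝ) / (α + δ) * (Q - 1) := mul_nonneg (by positivity) (by linarith)
      linarith
    · have : 2 * (α : ℝ) / (α + δ) * (Q - 1) < α / (y + 0.6) := by
        rw [div_mul_eq_mul_div, div_lt_div_iff₀ (by positivity) (by positivity)]
        nlinarith
      linarith
  have h6 : (α : ℝ) * A (α + δ) s ≤ (α + δ) * (2 * (α : ℝ) / (α + δ) * Real.log Q) := by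
    have h7 : Real.log (Q ^ 2) = 2 * Real.log Q := by
      rw [Real.log_pow]; norm_num
    rw [h7] at hA
    calc (α : ℝ) * A (α + δ) s ≤ α * (2 * Real.log Q) := mul_le_mul_of_nonneg_left hA (by positivity)
      _ = _ := by field_simp
  have h8 : 0 < (α : ℝ) + δ := by positivity
  nlinarith

lemma H5_bound {n : ℕ} (hn : 5 ≤ n) : A n 0 ≤ Real.log (1.784 * (n + 1 / 2)) := by
  have h1 := A_upper_from 5 n hn (x := 0) le_rfl
  have h2 : A 5 0 ≤ Real.log (1.784 * 5.5) := by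
    rw [Real.le_log_iff_exp_le (by norm_num)]
    have e : A 5 0 = 1 + 1 + 17 / 60 := by
      unfold A; norm_num [Finset.sum_range_succ]
    rw [e, Real.exp_add, Real.exp_add]
    have h3 := Real.exp_one_lt_d9
    have h4 : Real.exp (17 / 60) ≤ 1.327549 := by
      refine (Real.exp_bound' (by norm_num) (by norm_num) (n := 6) (by norm_num)).trans ?_
      norm_num [Finset.sum_range_succ, Nat.factorial]
    have h5 := Real.exp_pos 1
    have h6 := Real.exp_pos (17 / 60)
    calc Real.exp 1 * Real.exp 1 * Real.exp (17 / 60) ≤ 2.7182818286 * 2.7182818286 * 1.327549 := by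
          gcongr
      _ ≤ _ := by norm_num
  have hn' : (5 : ℝ) ≤ n := by exact_mod_cast hn
  have h3 : Real.log (1.784 * (n + 1 / 2)) = Real.log (1.784 * 5.5) + Real.log ((0 + (n : ℝ) + 1 / 2) / (0 + ((5 : ℕ) : ℝ) + 1 / 2)) := by
    rw [← Real.log_mul (by norm_num) (by positivity)]
    congr 1
    push_cast
    ring
  rw [h3]
  linarith

lemma H10_bound {n : ℕ} (hn : 10 ≤ n) : A n 0 ≤ Real.log (1.782 * (n + 1 / 2)) := by
  have h1 := A_upper_from 10 n hn (x := 0) le_rfl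
  have h2 : A 10 0 ≤ Real.log (1.782 * 10.5) := by
    rw [Real.le_log_iff_exp_le (by norm_num)]
    have e : A 10 0 = 1 + 1 + (7381 / 2520 - 2) := by
      unfold A; norm_num [Finset.sum_range_succ]
    rw [e, Real.exp_add, Real.exp_add]
    have h3 := Real.exp_one_lt_d9
    have h4 : Real.exp (7381 / 2520 - 2) ≤ 2.53196 := by
      refine (Real.exp_bound' (by norm_num) (by norm_num) (n := 9) (by norm_num)).trans ?_
      norm_num [Finset.sum_range_succ, Nat.factorial]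
    have h5 := Real.exp_pos 1
    calc Real.exp 1 * Real.exp 1 * Real.exp (7381 / 2520 - 2) ≤ 2.7182818286 * 2.7182818286 * 2.53196 := by
          gcongr
      _ ≤ _ := by norm_num
  have hn' : (10 : ℝ) ≤ n := by exact_mod_cast hn
  have h3 : Real.log (1.782 * (n + 1 / 2)) = Real.log (1.782 * 10.5) + Real.log ((0 + (n : ℝ) + 1 / 2) / (0 + ((10 : ℕ) : ℝ) + 1 / 2)) := by
    rw [← Real.log_mul (by norm_num) (by positivity)]
    congr 1
    push_cast
    ring
  rw [h3]
  linarith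

/-- Case A with `s = 0`, `β ≥ 5`. -/
lemma caseA_s0 {m α δ : ℕ} (hm : 1 ≤ m) (hα : 1 ≤ α) (hδ : 1 ≤ δ) (hs : α + δ + 0 ≤ m * (α + δ))
    (hαδ : α ≤ δ) (hβ : 5 ≤ α + δ) : Goal m α δ 0 := by
  have hα' : (1 : ℝ) ≤ α := by exact_mod_cast hα
  have hδ' : (1 : ℝ) ≤ δ := by exact_mod_cast hδ
  have hβ' : (5 : ℝ) ≤ (α : ℝ) + δ := by exact_mod_cast hβ
  set u := Real.sqrt ((α : ℝ) + δ) with hu
  have hu2 : u ^ 2 = (α : ℝ) + δ := Real.sq_sqrt (by positivity)
  have hu0 : 0 ≤ u := Real.sqrt_nonneg _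
  have hu5 : 2.236 ≤ u := by nlinarith
  have hE := E1_le (s := 0) hm hα hδ (x := 0) (V := ((α : ℝ) + δ + (0 : ℕ)) * (α / (α + δ)) * (δ / (α + δ)))
    (by simp) rfl
  have hV : ((α : ℝ) + δ + (0 : ℕ)) * (α / (α + δ)) * (δ / (α + δ)) ≤ (u / 2) ^ 2 := by
    have : ((α : ℝ) + δ + (0 : ℕ)) * (α / (α + δ)) * (δ / (α + δ)) = α * δ / (α + δ) := by
      push_cast; field_simp; ring
    rw [this, div_pow, hu2, div_le_div_iff₀ (by positivity) (by norm_num)]
    nlinarith [sq_nonneg ((α : ℝ) - δ)]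
  have hy : E1 m α δ 0 ≤ W m α δ 0 * (u / 4) := by
    refine hE.trans ?_
    apply mul_le_mul_of_nonneg_left _ (W_pos m α δ 0 hs).le
    have : Real.sqrt (0 ^ 2 + ((α : ℝ) + δ + (0 : ℕ)) * (α / (α + δ)) * (δ / (α + δ))) ≤ u / 2 := by
      apply Real.sqrt_le_iff.mpr
      constructor
      · positivity
      · rw [zero_pow (by norm_num), zero_add]; exact hV
    linarith
  set Q := Real.sqrt (1.784 * ((α : ℝ) + δ + 1 / 2)) with hQ
  have hQ2 : Q ^ 2 = 1.784 * ((α : ℝ) + δ + 1 / 2) := Real.sq_sqrt (by positivity)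
  have hQ0 : 0 ≤ Q := Real.sqrt_nonneg _
  have hQ1 : 1 ≤ Q := by nlinarith
  apply caseA_core hm hα hδ hs hαδ (y := u / 4) (Q := Q) (by positivity) hQ1 hy
  · rw [hQ2]
    have := H5_bound hβ
    push_cast at this ⊢
    exact this
  · -- Q ≤ 1.3357 u + .334/u
    have hup : 0 < u := by linarith
    have hQle : Q ≤ 1.3357 * u + 0.334 / u := by
      apply Real.sqrt_le_iff.mpr
      constructor
      · positivity
      · have : (1.3357 * u + 0.334 / u) ^ 2 = 1.3357 ^ 2 * u ^ 2 + 2 * 1.3357 * 0.334 + (0.334 / u) ^ 2 := by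
          field_simp
          ring
        rw [this, ← hu2]
        have : 0 ≤ (0.334 / u) ^ 2 := by positivity
        nlinarith
    have h1 : (2 * (u / 4) + 1.2) * (Q - 1) ≤ (2 * (u / 4) + 1.2) * (1.3357 * u + 0.334 / u - 1) := by
      apply mul_le_mul_of_nonneg_left (by linarith) (by positivity)
    refine lt_of_le_of_lt h1 ?_
    rw [← hu2]
    have h2 : (2 * (u / 4) + 1.2) * (1.3357 * u + 0.334 / u - 1) * u
        = (u / 2 + 1.2) * (1.3357 * u ^ 2 + 0.334 - u) := by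
      field_simp
      ring
    have h3 : (2 * (u / 4) + 1.2) * (1.3357 * u + 0.334 / u - 1) * u < u ^ 2 * u := by
      rw [h2]
      nlinarith [mul_nonneg (sub_nonneg.mpr hu5) (sub_nonneg.mpr hu5), mul_nonneg (mul_nonneg (sub_nonneg.mpr hu5) (sub_nonneg.mpr hu5)) (sub_nonneg.mpr hu5)]
    exact lt_of_mul_lt_mul_right h3 hup.le

lemma caseA_22 {m : ℕ} (hm : 1 ≤ m) (hs : 2 + 2 + 0 ≤ m * (2 + 2)) : Goal m 2 2 0 := by
  have hE := E1_le (m := m) (α := 2) (δ := 2) (s := 0) hm (by norm_num) (by norm_num) (x := 0) (V := 1)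
    (by simp) (by norm_num)
  have hE' : E1 m 2 2 0 ≤ W m 2 2 0 * (1 / 2) := by
    refine hE.trans (le_of_eq ?_)
    norm_num
  have h1 := total m 2 2 0
  have h2 := P0_nonneg m 2 2 0
  apply regimeII (e := 1 / 2) (p := 1) hm (by norm_num) hs (by norm_num) one_pos hE' (by linarith)
  unfold A
  norm_num [Finset.sum_range_succ]

/-- Case A with `s ≥ 1`. -/
lemma caseA_s1 {m α δ s : ℕ} (hm : 1 ≤ m) (hα : 1 ≤ α) (hδ : 1 ≤ δ) (hs : α + δ + s ≤ m * (α + δ))
    (hαδ : α ≤ δ) (hs1 : 1 ≤ s) : Goal m α δ s := by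
  have hα' : (1 : ℝ) ≤ α := by exact_mod_cast hα
  have hδ' : (1 : ℝ) ≤ δ := by exact_mod_cast hδ
  have hs' : (1 : ℝ) ≤ s := by exact_mod_cast hs1
  have hαδ' : (α : ℝ) ≤ δ := by exact_mod_cast hαδ
  have hE := E1_le (s := s) hm hα hδ (x := (α : ℝ) * s / (α + δ)) (V := ((α : ℝ) + δ + s) * (α / (α + δ)) * (δ / (α + δ)))
    rfl rfl
  set x := (α : ℝ) * s / (α + δ) with hx
  set V := ((α : ℝ) + δ + s) * (α / (α + δ)) * (δ / (α + δ)) with hV
  set β := (α : ℝ) + δ with hβ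
  have hβ2 : 2 ≤ β := by linarith
  have hx1 : x ≤ s / 2 := by
    rw [hx, div_le_div_iff₀ (by positivity) (by norm_num)]
    nlinarith
  have hx0 : 0 ≤ x := by positivity
  have hV1 : V ≤ (β + s) / 4 := by
    have h1 : (α / β) * (δ / β) ≤ 1 / 4 := by
      rw [div_mul_div_comm, div_le_div_iff₀ (by positivity) (by norm_num)]
      nlinarith [sq_nonneg ((α : ℝ) - δ)]
    rw [hV, mul_assoc]
    have : (0 : ℝ) < β + s := by positivity
    nlinarith
  set R := Real.sqrt (s ^ 2 + s + β) with hR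
  have hR0 : 0 ≤ R := Real.sqrt_nonneg _
  have hR2 : R ^ 2 = s ^ 2 + s + β := Real.sq_sqrt (by positivity)
  have hR1 : 2 ≤ R := by nlinarith
  have hy1 : (x + Real.sqrt (x ^ 2 + V)) / 2 ≤ (s / 2 + R / 2) / 2 := by
    have : Real.sqrt (x ^ 2 + V) ≤ R / 2 := by
      apply Real.sqrt_le_iff.mpr
      constructor
      · positivity
      · nlinarith
    linarith
  have hy : E1 m α δ s ≤ W m α δ s * ((s / 2 + R / 2) / 2) :=
    hE.trans (mul_le_mul_of_nonneg_left hy1 (W_pos m α δ s hs).le)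
  set Q := Real.sqrt (1 + β / (s + 1 / 2)) with hQ
  have hQ0 : 0 ≤ Q := Real.sqrt_nonneg _
  have hQ2 : Q ^ 2 = 1 + β / (s + 1 / 2) := Real.sq_sqrt (by positivity)
  have hQ1 : 1 ≤ Q := by
    have : 0 ≤ β / (s + 1 / 2) := by positivity
    nlinarith
  apply caseA_core hm hα hδ hs hαδ (y := (s / 2 + R / 2) / 2) (Q := Q) (by positivity) hQ1 hy
  · rw [hQ2]
    have := A_upper (α + δ) (x := s) (by positivity)
    push_cast at this
    exact this
  · -- (s/2+R/2+1.2)(Q-1) < β, using β = (s+1/2)(Q-1)(Q+1)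
    have e : (s + 1 / 2) * (Q ^ 2 - 1) = β := by
      rw [hQ2]; field_simp; ring
    have hQgt : 1 < Q := by
      by_contra hcon
      push Not at hcon
      have : Q = 1 := le_antisymm hcon hQ1
      rw [this] at e
      linarith
    have hR3 : R ≤ (s + 1 / 2) * Q := by
      apply Real.sqrt_le_iff.mpr
      constructor
      · positivity
      · have : ((s + 1 / 2) * Q) ^ 2 = (s + 1 / 2) * ((s + 1 / 2) + β) := by
          rw [mul_pow, hQ2]; field_simp
        rw [this]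
        nlinarith
    rw [← hβ, ← e]
    have h2 : 2 * ((s / 2 + R / 2) / 2) + 1.2 < (s + 1 / 2) * (Q + 1) := by nlinarith
    nlinarith

theorem caseA {m α δ s : ℕ} (hm : 1 ≤ m) (hα : 2 ≤ α) (hs : α + δ + s ≤ m * (α + δ))
    (hαδ : α ≤ δ) : Goal m α δ s := by
  rcases Nat.eq_zero_or_pos s with h | h
  · subst h
    rcases Nat.lt_or_ge (α + δ) 5 with h5 | h5
    · have h1 : α = 2 := by omega
      have h2 : δ = 2 := by omega
      subst h1; subst h2
      exact caseA_22 hm hs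
    · exact caseA_s0 hm (by omega) (by omega) hs hαδ h5
  · exact caseA_s1 hm (by omega) (by omega) hs hαδ h

end Spread

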