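import Pool.Agent.Lib.MP_33b3f7_co.SpreadB

/-!
# Regime II: scalar inequalities
-/

namespace Spread

open Finset

lemma exp_le_of (x y : ℝ) (h0 : 0 ≤ x) (h1 : x ≤ 1)
    (h : 1 + x + x ^ 2 / 2 + x ^ 3 / 6 + x ^ 4 / 24 + x ^ 5 / 120 + x ^ 6 / 720 + x ^ 7 / 5040 + x ^ 8 / 35000 ≤ y) :
    Real.exp x ≤ y := by
  refine (Real.exp_bound' h0 h1 (n := 8) (by norm_num)).trans (le_trans ?_ h)
  simp only [Finset.sum_range_succ, Finset.sum_range_zero, Nat.factorial]
  have : 0 ≤ x ^ 8 := by positivity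
  push_cast
  nlinarith

lemma le_exp_of (x y : ℝ) (h0 : 0 ≤ x)
    (h : y ≤ 1 + x + x ^ 2 / 2 + x ^ 3 / 6 + x ^ 4 / 24 + x ^ 5 / 120 + x ^ 6 / 720 + x ^ 7 / 5040) :
    y ≤ Real.exp x := by
  refine le_trans h (le_trans (le_of_eq ?_) (Real.sum_le_exp_of_nonneg h0 8))
  simp only [Finset.sum_range_succ, Finset.sum_range_zero, Nat.factorial]
  push_cast
  ring

lemma log_ge_of (x y : ℝ) (hy : 0 < y) (h0 : 0 ≤ x) (h1 : x ≤ 1)
    (h : 1 + x + x ^ 2 / 2 + x ^ 3 / 6 + x ^ 4 / 24 + x ^ 5 / 120 + x ^ 6 / 720 + x ^ 7 / 5040 + x ^ 8 / 35000 ≤ y) :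
    x ≤ Real.log y := by
  rw [Real.le_log_iff_exp_le hy]
  exact exp_le_of x y h0 h1 h

lemma log_le_of (x y : ℝ) (hy : 0 < y) (h0 : 0 ≤ x)
    (h : y ≤ 1 + x + x ^ 2 / 2 + x ^ 3 / 6 + x ^ 4 / 24 + x ^ 5 / 120 + x ^ 6 / 720 + x ^ 7 / 5040) :
    Real.log y ≤ x := by
  rw [Real.log_le_iff_le_exp hy]
  exact le_exp_of x y h0 h

/-- Padé lower bound for `log` from a base point. -/
lemma log_pade {t N : ℝ} (ht : 0 < t) (hN : t ≤ N) :
    Real.log t + 2 * (N - t) / (N + t) ≤ Real.log N := by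
  have h := Real.le_log_one_add_of_nonneg (x := N / t - 1) (by
    rw [sub_nonneg, le_div_iff₀ ht]; linarith)
  have e1 : 1 + (N / t - 1) = N / t := by ring
  have hN' : 0 < N := by linarith
  have e2 : 2 * (N / t - 1) / (N / t - 1 + 2) = 2 * (N - t) / (N + t) := by
    have : N / t - 1 + 2 = (N + t) / t := by field_simp; ring
    rw [this]
    field_simp
  rw [e1, e2, Real.log_div hN'.ne' ht.ne'] at h
  linarith

lemma phi1 {N : ℝ} (hN : 1 ≤ N) : 2.53 ≤ Real.log N + 5.75 / (N + 1) := by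
  have hN1 : 0 < N + 1 := by linarith
  rcases le_total N 2.3 with h | h
  · have h1 := log_pade one_pos hN
    rw [Real.log_one, zero_add] at h1
    have h2 : 2.53 ≤ 2 * (N - 1) / (N + 1) + 5.75 / (N + 1) := by
      rw [← add_div, le_div_iff₀ hN1]; linarith
    linarith
  rcases le_total N 3 with h' | h'
  · have hl : 0.8329 ≤ Real.log 2.3 := log_ge_of _ _ (by norm_num) (by norm_num) (by norm_num) (by norm_num)
    have h1 := log_pade (t := 2.3) (by norm_num) h
    have h2 : 2.53 ≤ 0.8329 + 2 * (N - 2.3) / (N + 2.3) + 5.75 / (N + 1) := by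
      have h3 : 0 < N + 2.3 := by linarith
      rw [← sub_nonneg]
      have e : 0.8329 + 2 * (N - 2.3) / (N + 2.3) + 5.75 / (N + 1) - 2.53
        = (0.3029 * N ^ 2 - 2.45043 * N + 4.72167) / ((N + 2.3) * (N + 1)) := by
        field_simp
        ring
      rw [e]
      apply div_nonneg _ (by positivity)
      nlinarith [mul_nonneg (sub_nonneg.mpr h) (sub_nonneg.mpr h')]
    linarith
  · have hl : 1.0986 ≤ Real.log 3 := by
      have h1 : 0.405465 ≤ Real.log 1.5 := log_ge_of _ _ (by norm_num) (by norm_num) (by norm_num) (by norm_num)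
      have h2 := Real.log_two_gt_d9
      have h3 : Real.log 3 = Real.log 1.5 + Real.log 2 := by
        rw [← Real.log_mul (by norm_num) (by norm_num)]; norm_num
      rw [h3]; linarith
    have h1 := log_pade (t := 3) (by norm_num) h'
    have h2 : 2.53 ≤ 1.0986 + 2 * (N - 3) / (N + 3) + 5.75 / (N + 1) := by
      have h3 : 0 < N + 3 := by linarith
      rw [← sub_nonneg]
      have e : 1.0986 + 2 * (N - 3) / (N + 3) + 5.75 / (N + 1) - 2.53
        = (0.5686 * N ^ 2 - 3.9756 * N + 6.9558) / ((N + 3) * (N + 1)) := by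
        field_simp
        ring
      rw [e]
      apply div_nonneg _ (by positivity)
      nlinarith [sq_nonneg (N - 3.496)]
    linarith

lemma phi2 {N : ℝ} (hN : 1 ≤ N) : 2.79 ≤ Real.log N + 7.1 / (N + 1) := by
  have hN1 : 0 < N + 1 := by linarith
  rcases le_total N 2.5 with h | h
  · have h1 := log_pade one_pos hN
    rw [Real.log_one, zero_add] at h1
    have h2 : 2.79 ≤ 2 * (N - 1) / (N + 1) + 7.1 / (N + 1) := by
      rw [← add_div, le_div_iff₀ hN1]; linarith
    linarith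
  rcases le_total N 4 with h' | h'
  · have hl : 0.9162 ≤ Real.log 2.5 := log_ge_of _ _ (by norm_num) (by norm_num) (by norm_num) (by norm_num)
    have h1 := log_pade (t := 2.5) (by norm_num) h
    have h2 : 2.79 ≤ 0.9162 + 2 * (N - 2.5) / (N + 2.5) + 7.1 / (N + 1) := by
      have h3 : 0 < N + 2.5 := by linarith
      rw [← sub_nonneg]
      have e : 0.9162 + 2 * (N - 2.5) / (N + 2.5) + 7.1 / (N + 1) - 2.79
        = (0.1262 * N ^ 2 - 2.4583 * N + 8.0655) / ((N + 2.5) * (N + 1)) := by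
        field_simp
        ring
      rw [e]
      apply div_nonneg _ (by positivity)
      nlinarith [mul_nonneg (sub_nonneg.mpr h) (sub_nonneg.mpr h')]
    linarith
  · have hl : 1.386294 ≤ Real.log 4 := by
      have h2 := Real.log_two_gt_d9
      have h3 : Real.log 4 = 2 * Real.log 2 := by
        have : (4 : ℝ) = 2 ^ 2 := by norm_num
        rw [this, Real.log_pow]; norm_num
      rw [h3]; linarith
    have h1 := log_pade (t := 4) (by norm_num) h'
    have h2 : 2.79 ≤ 1.386294 + 2 * (N - 4) / (N + 4) + 7.1 / (N + 1) := by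
      have h3 : 0 < N + 4 := by linarith
      rw [← sub_nonneg]
      have e : 1.386294 + 2 * (N - 4) / (N + 4) + 7.1 / (N + 1) - 2.79
        = (0.596294 * N ^ 2 - 5.91853 * N + 14.785176) / ((N + 4) * (N + 1)) := by
        field_simp
        ring
      rw [e]
      apply div_nonneg _ (by positivity)
      nlinarith [sq_nonneg (N - 4.963)]
    linarith

/-- tangent line bound: `-log a ≥ l0 + 1 - a/a0` whenever `l0 ≤ -log a0`. -/
lemma tangent {a a0 l0 : ℝ} (ha : 0 < a) (ha0 : 0 < a0) (h : l0 ≤ -Real.log a0) :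
    l0 + 1 - a / a0 ≤ -Real.log a := by
  have h1 := Real.log_le_sub_one_of_pos (x := a / a0) (by positivity)
  rw [Real.log_div ha.ne' ha0.ne'] at h1
  linarith

/-- `-a log a ≤ a0 - a + a*u0` whenever `-log a0 ≤ u0`. -/
lemma tangent' {a a0 u0 : ℝ} (ha : 0 < a) (ha0 : 0 < a0) (h : -Real.log a0 ≤ u0) :
    a * (-Real.log a) ≤ a0 - a + a * u0 := by
  have h1 := Real.log_le_sub_one_of_pos (x := a0 / a) (by positivity)
  rw [Real.log_div ha0.ne' ha.ne'] at h1
  have h2 : a * (Real.log a0 - Real.log a) ≤ a * (a0 / a - 1) := mul_le_mul_of_nonneg_left h1 ha.le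
  have h3 : a * (a0 / a - 1) = a0 - a := by field_simp
  rw [h3] at h2
  nlinarith

lemma neg_log_ge (a0 l0 : ℝ) (ha0 : 0 < a0) (h : l0 ≤ Real.log (1 / a0)) : l0 ≤ -Real.log a0 := by
  rw [one_div, Real.log_inv] at h; exact h

lemma neg_log_le (a0 l0 : ℝ) (ha0 : 0 < a0) (h : Real.log (1 / a0) ≤ l0) : -Real.log a0 ≤ l0 := by
  rw [one_div, Real.log_inv] at h; exact h

lemma M_s0 {a : ℝ} (ha : 0 < a) (ha1 : a ≤ 0.3569) :
    5.75 * (1 - a) ≤ (1 + 0.5 * a) * (0.8195 + 2 * (-Real.log a)) + Real.log 2 * (1 - 1.5 * a) := by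
  have hl2 := Real.log_two_gt_d9
  have hl2' : 0.6931 * (1 - 1.5 * a) ≤ Real.log 2 * (1 - 1.5 * a) :=
    mul_le_mul_of_nonneg_right (by linarith) (by linarith)
  rcases le_total a 0.15 with h | h
  · have h0 : 1.897 ≤ -Real.log 0.15 := by
      have e : -Real.log 0.15 = Real.log (5/3) + 2 * Real.log 2 := by
        have : (0.15 : ℝ) = (5/3)⁻¹ * (2 ^ 2)⁻¹ := by norm_num
        rw [this, Real.log_mul (by norm_num) (by norm_num), Real.log_inv, Real.log_inv, Real.log_pow]
        norm_num; ring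
      have h1 : 0.5108 ≤ Real.log (5/3) := log_ge_of _ _ (by norm_num) (by norm_num) (by norm_num) (by norm_num)
      rw [e]; linarith
    have h1 := tangent ha (by norm_num) h0
    have h2 : (1 + 0.5 * a) * (0.8195 + 2 * (1.897 + 1 - a / 0.15)) ≤ (1 + 0.5 * a) * (0.8195 + 2 * (-Real.log a)) := by
      apply mul_le_mul_of_nonneg_left _ (by positivity)
      linarith
    have h3 : 5.75 * (1 - a) ≤ (1 + 0.5 * a) * (0.8195 + 2 * (1.897 + 1 - a / 0.15)) + 0.6931 * (1 - 1.5 * a) := by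
      have : a / 0.15 = 20 / 3 * a := by ring
      rw [this]
      nlinarith
    linarith
  · have h0 : 1.0498 ≤ -Real.log 0.35 := by
      have e : -Real.log 0.35 = Real.log (10/7) + Real.log 2 := by
        have : (0.35 : ℝ) = (10/7)⁻¹ * (2)⁻¹ := by norm_num
        rw [this, Real.log_mul (by norm_num) (by norm_num), Real.log_inv, Real.log_inv]
        ring
      have h1 : 0.35667 ≤ Real.log (10/7) := log_ge_of _ _ (by norm_num) (by norm_num) (by norm_num) (by norm_num)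
      rw [e]; linarith
    have h1 := tangent ha (by norm_num) h0
    have h2 : (1 + 0.5 * a) * (0.8195 + 2 * (1.0498 + 1 - a / 0.35)) ≤ (1 + 0.5 * a) * (0.8195 + 2 * (-Real.log a)) := by
      apply mul_le_mul_of_nonneg_left _ (by positivity)
      linarith
    have h3 : 5.75 * (1 - a) ≤ (1 + 0.5 * a) * (0.8195 + 2 * (1.0498 + 1 - a / 0.35)) + 0.6931 * (1 - 1.5 * a) := by
      have : a / 0.35 = 20 / 7 * a := by ring
      rw [this]
      nlinarith [mul_nonneg (sub_nonneg.mpr h) (sub_nonneg.mpr ha1)]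
    linarith

lemma M_s1 {a : ℝ} (ha : 0 < a) (ha1 : a ≤ 0.63) :
    7.1 * (1 - a) ≤ (1 + 0.875 * a) * (1.3454 + 2 * (-Real.log a)) + Real.log 2 * (1 - 1.125 * a) := by
  have hl2 := Real.log_two_gt_d9
  have hl2' : 0.6931 * (1 - 1.125 * a) ≤ Real.log 2 * (1 - 1.125 * a) :=
    mul_le_mul_of_nonneg_right (by linarith) (by linarith)
  rcases le_total a 0.1 with h | h
  · have h0 : 2.3025 ≤ -Real.log 0.1 := by
      have e : -Real.log 0.1 = Real.log (5/4) + 3 * Real.log 2 := by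
        have : (0.1 : ℝ) = (5/4)⁻¹ * (2 ^ 3)⁻¹ := by norm_num
        rw [this, Real.log_mul (by norm_num) (by norm_num), Real.log_inv, Real.log_inv, Real.log_pow]
        norm_num; ring
      have h1 : 0.2231 ≤ Real.log (5/4) := log_ge_of _ _ (by norm_num) (by norm_num) (by norm_num) (by norm_num)
      rw [e]; linarith
    have h1 := tangent ha (by norm_num) h0
    have h2 : (1 + 0.875 * a) * (1.3454 + 2 * (2.3025 + 1 - a / 0.1)) ≤ (1 + 0.875 * a) * (1.3454 + 2 * (-Real.log a)) := by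
      apply mul_le_mul_of_nonneg_left _ (by positivity)
      linarith
    have h3 : 7.1 * (1 - a) ≤ (1 + 0.875 * a) * (1.3454 + 2 * (2.3025 + 1 - a / 0.1)) + 0.6931 * (1 - 1.125 * a) := by
      have : a / 0.1 = 10 * a := by ring
      rw [this]
      nlinarith
    linarith
  rcases le_total a 0.31 with h' | h'
  · have h0 : 1.5141 ≤ -Real.log 0.22 := by
      have e : -Real.log 0.22 = Real.log (25/22) + 2 * Real.log 2 := by
        have : (0.22 : ℝ) = (25/22)⁻¹ * (2 ^ 2)⁻¹ := by norm_num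
        rw [this, Real.log_mul (by norm_num) (by norm_num), Real.log_inv, Real.log_inv, Real.log_pow]
        norm_num; ring
      have h1 : 0.12783 ≤ Real.log (25/22) := log_ge_of _ _ (by norm_num) (by norm_num) (by norm_num) (by norm_num)
      rw [e]; linarith
    have h1 := tangent ha (by norm_num) h0
    have h2 : (1 + 0.875 * a) * (1.3454 + 2 * (1.5141 + 1 - a / 0.22)) ≤ (1 + 0.875 * a) * (1.3454 + 2 * (-Real.log a)) := by
      apply mul_le_mul_of_nonneg_left _ (by positivity)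
      linarith
    have h3 : 7.1 * (1 - a) ≤ (1 + 0.875 * a) * (1.3454 + 2 * (1.5141 + 1 - a / 0.22)) + 0.6931 * (1 - 1.125 * a) := by
      have : a / 0.22 = 50 / 11 * a := by ring
      rw [this]
      nlinarith [mul_nonneg (sub_nonneg.mpr h) (sub_nonneg.mpr h')]
    linarith
  · have h0 : 0.7985 ≤ -Real.log 0.45 := by
      have e : -Real.log 0.45 = Real.log (10/9) + Real.log 2 := by
        have : (0.45 : ℝ) = (10/9)⁻¹ * (2)⁻¹ := by norm_num
        rw [this, Real.log_mul (by norm_num) (by norm_num), Real.log_inv, Real.log_inv]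
        ring
      have h1 : 0.10536 ≤ Real.log (10/9) := log_ge_of _ _ (by norm_num) (by norm_num) (by norm_num) (by norm_num)
      rw [e]; linarith
    have h1 := tangent ha (by norm_num) h0
    have h2 : (1 + 0.875 * a) * (1.3454 + 2 * (0.7985 + 1 - a / 0.45)) ≤ (1 + 0.875 * a) * (1.3454 + 2 * (-Real.log a)) := by
      apply mul_le_mul_of_nonneg_left _ (by positivity)
      linarith
    have h3 : 7.1 * (1 - a) ≤ (1 + 0.875 * a) * (1.3454 + 2 * (0.7985 + 1 - a / 0.45)) + 0.6931 * (1 - 1.125 * a) := by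
      have : a / 0.45 = 20 / 9 * a := by ring
      rw [this]
      nlinarith [mul_nonneg (sub_nonneg.mpr h') (sub_nonneg.mpr ha1)]
    linarith

/-- the abstract final inequality -/
lemma final_ineq {a b N LD c0 M : ℝ} (hN : 1 ≤ N) (ha : 0 < a) (hb0 : 0 ≤ b)
    (hM : M * (1 - a) ≤ (1 + b * a) * LD + Real.log 2 * (1 - (2 - b) * a))
    (h : 0 < (1 - a) * (Real.log N + M / (N + 1)) + c0 - a * LD) :
    0 < Real.log N + c0 + (1 / (N + 1) - a * (1 - b * (1 / (N + 1)))) * (Real.log (N + 1) + LD) := by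
  have hN1 : 0 < N + 1 := by linarith
  set y := 1 / (N + 1) with hy
  have hy0 : 0 < y := by positivity
  have hy1 : y ≤ 1 / 2 := by
    rw [hy]; apply one_div_le_one_div_of_le <;> linarith
  have h1 : Real.log 2 ≤ Real.log (N + 1) := Real.log_le_log (by norm_num) (by linarith)
  have h2 := bern (Q := 1 / 2) (θ := 2 * y) (by norm_num) (by positivity) (by linarith)
  have h3 : Real.log (1 + 2 * y * (1 / 2 - 1)) = Real.log N - Real.log (N + 1) := by
    have : 1 + 2 * y * (1 / 2 - 1) = N / (N + 1) := by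
      rw [hy]; field_simp; ring
    rw [this, Real.log_div (by linarith) (by linarith)]
  have h4 : Real.log (1 / 2) = - Real.log 2 := by rw [one_div, Real.log_inv]
  rw [h3, h4] at h2
  -- h2 : 2 y (-log 2) ≤ log N - log (N+1)
  have hl2 : 0 < Real.log 2 := Real.log_pos (by norm_num)
  have h5 : a * (2 * y * (-Real.log 2)) ≤ a * (Real.log N - Real.log (N + 1)) :=
    mul_le_mul_of_nonneg_left h2 ha.le
  have h6 : (1 + b * a) * y * Real.log 2 ≤ (1 + b * a) * y * Real.log (N + 1) :=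
    mul_le_mul_of_nonneg_left h1 (by positivity)
  have h7 : y * (M * (1 - a)) ≤ y * ((1 + b * a) * LD + Real.log 2 * (1 - (2 - b) * a)) :=
    mul_le_mul_of_nonneg_left hM hy0.le
  have h8 : M / (N + 1) = y * M := by rw [hy]; ring
  rw [h8] at h
  have e : Real.log N + c0 + (y - a * (1 - b * y)) * (Real.log (N + 1) + LD)
      = (1 - a) * Real.log N + c0 + a * (Real.log N - Real.log (N + 1)) + (1 + b * a) * y * Real.log (N + 1)
        + (1 + b * a) * y * LD - a * LD := by ring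
  rw [e]
  nlinarith

end Spread

/-!
# Regime II applied: large `δ`
-/

namespace Spread

open Finset

lemma log_compare {P X Y : ℝ} (hP1 : P ≤ 1) (hY : 0 < Y) (hYX : Y ≤ X)
    (h : P * Real.log X < Real.log Y) : P * Real.log (1 + X) < Real.log (1 + Y) := by
  have hX : 0 < X := lt_of_lt_of_le hY hYX
  have h1 : Real.log (1 + X) = Real.log X + Real.log (1 + 1 / X) := by
    rw [← Real.log_mul hX.ne' (by positivity)]
    congr 1; field_simp; ring
  have h2 : Real.log (1 + Y) = Real.log Y + Real.log (1 + 1 / Y) := by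
    rw [← Real.log_mul hY.ne' (by positivity)]
    congr 1; field_simp; ring
  have h3 : Real.log (1 + 1 / X) ≤ Real.log (1 + 1 / Y) := by
    apply Real.log_le_log (by positivity)
    have := one_div_le_one_div_of_le hY hYX
    linarith
  have h4 : 0 ≤ Real.log (1 + 1 / X) := Real.log_nonneg (by
    have : 0 < 1 / X := by positivity
    linarith)
  rw [h1, h2]
  nlinarith

lemma caseII_general {m α δ s : ℕ} (hm : 2 ≤ m) (hα : 1 ≤ α) (hδ : 1 ≤ δ)
    (hs : α + δ + s ≤ m * (α + δ)) {c q x V p' e : ℝ} (hc : 0.5643 ≤ c)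
    (hq : q = Real.sqrt ((α : ℝ) * δ / (α + δ)))
    (hx : x = (α : ℝ) * s / (α + δ)) (hV : V = (α + δ + s) * (α / (α + δ)) * (δ / (α + δ)))
    (hp' : p' = 1 / 2 + c / q * (1 + x)) (he : (x + Real.sqrt (x ^ 2 + V)) / 2 ≤ e)
    (h1 : e + 0.6 * p' ≤ q * p')
    (h2 : (α : ℝ) / (α + δ) * p' * A (α + δ) s < Real.log (1 + α / q)) : Goal m α δ s := by
  have hα' : (1 : ℝ) ≤ α := by exact_mod_cast hα
  have hδ' : (1 : ℝ) ≤ δ := by exact_mod_cast hδ
  have hq0 : 0 < q := by
    rw [hq]; apply Real.sqrt_pos.mpr; positivity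
  have hx0 : 0 ≤ x := by rw [hx]; positivity
  have hc0 : 0 < c := by linarith
  have hp0 : 0 < p' := by rw [hp']; positivity
  have hW := W_pos m α δ s hs
  have hE : E1 m α δ s ≤ W m α δ s * e :=
    (E1_le (s := s) (by omega) hα hδ hx hV).trans (mul_le_mul_of_nonneg_left he hW.le)
  have hP : Pi m α δ s ≤ W m α δ s * p' := by
    have := Pi_bound m α δ s hm hα hδ hs hc
    rw [← hq, ← hx, ← hp'] at this
    exact this
  have he0 : 0 ≤ e := by
    refine le_trans ?_ he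
    have := Real.sqrt_nonneg (x ^ 2 + V)
    linarith
  apply regimeII (e := e) (p := p') (by omega) hα hs he0 hp0 hE hP
  have h3 : e / p' + 0.6 ≤ q := by
    have : e / p' ≤ q - 0.6 := by
      rw [div_le_iff₀ hp0]; linarith
    linarith
  have h4 := A_lower α (x := e / p') (by positivity)
  have h5 : Real.log (1 + α / q) ≤ Real.log (1 + α / (e / p' + 0.6)) := by
    apply Real.log_le_log (by positivity)
    have : (α : ℝ) / q ≤ α / (e / p' + 0.6) := by
      apply div_le_div_of_nonneg_left (by positivity) (by positivity) h3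
    linarith
  have h6 : (α : ℝ) / (α + δ) * p' * A (α + δ) s < A α (e / p') := by linarith
  have h7 : (0 : ℝ) < α + δ := by positivity
  have h8 := mul_lt_mul_of_pos_left h6 h7
  calc (α : ℝ) * p' * A (α + δ) s = (α + δ) * ((α : ℝ) / (α + δ) * p' * A (α + δ) s) := by field_simp
    _ < _ := h8

lemma final_s0 {a N LD : ℝ} (hN : 1 ≤ N) (ha0 : 0 < a) (ha1 : a ≤ 0.3569)
    (hLD : LD = Real.log (1.782 * 1.1286 ^ 2) + 2 * (- Real.log a)) :
    0 < Real.log N + -Real.log 1.782 +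
      (1 / (N + 1) - a * (1 - 0.5 * (1 / (N + 1)))) * (Real.log (N + 1) + LD) := by
  have hκ : Real.log 1.782 ≤ 0.578 := log_le_of _ _ (by norm_num) (by norm_num) (by norm_num)
  have hl1 : 0.8195 ≤ Real.log (1.782 * 1.1286 ^ 2) :=
    log_ge_of _ _ (by norm_num) (by norm_num) (by norm_num) (by norm_num)
  have hl2 : Real.log (1.782 * 1.1286 ^ 2) ≤ 0.8198 :=
    log_le_of _ _ (by norm_num) (by norm_num) (by norm_num)
  have hMs := M_s0 ha0 ha1
  have htan := tangent' (a := a) (a0 := 5 / 14) (u0 := 1.02963) ha0 (by norm_num)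
    (by
      apply neg_log_le _ _ (by norm_num)
      have : Real.log (1 / (5 / 14)) = Real.log 1.4 + Real.log 2 := by
        rw [← Real.log_mul (by norm_num) (by norm_num)]; norm_num
      rw [this]
      have h1 : Real.log 1.4 ≤ 0.33648 := log_le_of _ _ (by norm_num) (by norm_num) (by norm_num)
      have h2 := Real.log_two_lt_d9
      linarith)
  apply final_ineq (M := 5.75) hN ha0 (by norm_num)
  · rw [hLD]
    have h3 : (1 + 0.5 * a) * (0.8195 + 2 * (-Real.log a)) ≤ (1 + 0.5 * a) * (Real.log (1.782 * 1.1286 ^ 2) + 2 * (-Real.log a)) :=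
      mul_le_mul_of_nonneg_left (by linarith) (by positivity)
    have h4 : Real.log 2 * (1 - 1.5 * a) = Real.log 2 * (1 - (2 - 0.5) * a) := by ring
    rw [← h4]
    linarith
  · have h3 := phi1 hN
    have h4 : (1 - a) * 2.53 ≤ (1 - a) * (Real.log N + 5.75 / (N + 1)) :=
      mul_le_mul_of_nonneg_left h3 (by linarith)
    have h5 : a * Real.log (1.782 * 1.1286 ^ 2) ≤ a * 0.8198 := mul_le_mul_of_nonneg_left hl2 ha0.le
    rw [hLD]
    have h6 : a * (Real.log (1.782 * 1.1286 ^ 2) + 2 * -Real.log a)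
      = a * Real.log (1.782 * 1.1286 ^ 2) + 2 * (a * -Real.log a) := by ring
    rw [h6]
    linarith

lemma final_s1 {a N LD s : ℝ} (hN : 1 ≤ N) (ha0 : 0 < a) (ha1 : a ≤ 0.63) (hs : 1 ≤ s)
    (hLD : LD = Real.log (1.44 * (1 + s) ^ 2 / (s + 1 / 2)) + 2 * (- Real.log a)) :
    0 < Real.log N + Real.log (s + 1 / 2) +
      (1 / (N + 1) - a * (1 - 0.875 * (1 / (N + 1)))) * (Real.log (N + 1) + LD) := by
  have hs0 : 0 < s + 1 / 2 := by linarith
  have hl15 : 0.405465 ≤ Real.log (s + 1 / 2) := by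
    have h1 : 0.405465 ≤ Real.log 1.5 := log_ge_of _ _ (by norm_num) (by norm_num) (by norm_num) (by norm_num)
    have h2 : Real.log 1.5 ≤ Real.log (s + 1 / 2) := Real.log_le_log (by norm_num) (by linarith)
    linarith
  have hl16 : Real.log 1.6 ≤ 0.47001 := log_le_of _ _ (by norm_num) (by norm_num) (by norm_num)
  have hr1 : 1.3454 ≤ Real.log (1.44 * (1 + s) ^ 2 / (s + 1 / 2)) := by
    have h1 : 1.3454 ≤ Real.log 3.84 := by
      have e : Real.log 3.84 = Real.log 1.92 + Real.log 2 := by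
        rw [← Real.log_mul (by norm_num) (by norm_num)]; norm_num
      have h1 : 0.65232 ≤ Real.log 1.92 := log_ge_of _ _ (by norm_num) (by norm_num) (by norm_num) (by norm_num)
      have h2 := Real.log_two_gt_d9
      rw [e]; linarith
    have h2 : Real.log 3.84 ≤ Real.log (1.44 * (1 + s) ^ 2 / (s + 1 / 2)) := by
      apply Real.log_le_log (by norm_num)
      rw [le_div_iff₀ hs0]
      nlinarith
    linarith
  have hr2 : Real.log (1.44 * (1 + s) ^ 2 / (s + 1 / 2)) ≤ 2 * Real.log 1.6 + Real.log (s + 1 / 2) := by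
    have h1 : 2 * Real.log 1.6 + Real.log (s + 1 / 2) = Real.log (1.6 ^ 2 * (s + 1 / 2)) := by
      rw [Real.log_mul (by norm_num) hs0.ne', Real.log_pow]; norm_num
    rw [h1]
    apply Real.log_le_log (by positivity)
    rw [div_le_iff₀ hs0]
    nlinarith
  have hMs := M_s1 ha0 ha1
  have htan := tangent' (a := a) (a0 := 0.6) (u0 := 0.51083) ha0 (by norm_num)
    (by
      apply neg_log_le _ _ (by norm_num)
      have : Real.log (1 / 0.6) ≤ 0.51083 := log_le_of _ _ (by norm_num) (by norm_num) (by norm_num)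
      exact this)
  apply final_ineq (M := 7.1) hN ha0 (by norm_num)
  · rw [hLD]
    have h3 : (1 + 0.875 * a) * (1.3454 + 2 * (-Real.log a)) ≤ (1 + 0.875 * a) * (Real.log (1.44 * (1 + s) ^ 2 / (s + 1 / 2)) + 2 * (-Real.log a)) :=
      mul_le_mul_of_nonneg_left (by linarith) (by positivity)
    have h4 : Real.log 2 * (1 - 1.125 * a) = Real.log 2 * (1 - (2 - 0.875) * a) := by ring
    rw [← h4]
    linarith
  · have h3 := phi2 hN
    have h4 : (1 - a) * 2.79 ≤ (1 - a) * (Real.log N + 7.1 / (N + 1)) :=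
      mul_le_mul_of_nonneg_left h3 (by linarith)
    have h5 : a * Real.log (1.44 * (1 + s) ^ 2 / (s + 1 / 2)) ≤ a * (2 * 0.47001 + Real.log (s + 1 / 2)) :=
      mul_le_mul_of_nonneg_left (by linarith) ha0.le
    have h7 : (1 - a) * 0.405465 ≤ (1 - a) * Real.log (s + 1 / 2) :=
      mul_le_mul_of_nonneg_left hl15 (by linarith)
    rw [hLD]
    have h6 : a * (Real.log (1.44 * (1 + s) ^ 2 / (s + 1 / 2)) + 2 * -Real.log a)
      = a * Real.log (1.44 * (1 + s) ^ 2 / (s + 1 / 2)) + 2 * (a * -Real.log a) := by ring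
    rw [h6]
    have h8 : a * (2 * 0.47001 + Real.log (s + 1 / 2)) = 0.94002 * a + a * Real.log (s + 1 / 2) := by ring
    have h9 : (1 - a) * Real.log (s + 1 / 2) = Real.log (s + 1 / 2) - a * Real.log (s + 1 / 2) := by ring
    linarith

lemma combine {P LX LY lβ lN lk t : ℝ} (h2P : 2 * P ≤ 1 - t) (hLX : 0 < LX) (hLY : 2 * LY = lβ + lN)
    (hX : LX = lβ - lk) (hfin : 0 < lN + lk + t * LX) : P * LX < LY := by
  have := mul_le_mul_of_nonneg_right h2P hLX.le
  linarith

/-- Real-variable set-up common to both parts. -/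
lemma setup {α δ : ℝ} (hδ : 0 < δ) (hαδ : δ ≤ α) :
    ∃ N rp sd q : ℝ, 1 ≤ N ∧ α + δ = δ * (N + 1) ∧ α / (α + δ) = 1 - 1 / (N + 1) ∧
      0 < 1 / (N + 1) ∧ 1 / (N + 1) ≤ 1 / 2 ∧ 0 < rp ∧ rp ≤ 1 - 1 / (N + 1) / 2 ∧ 0 < sd ∧ sd ^ 2 = δ ∧
      q = Real.sqrt (α * δ / (α + δ)) ∧ q = rp * sd ∧ α / (α + δ) = rp ^ 2 ∧ q ^ 2 = α * δ / (α + δ) ∧
      2 * Real.log (α / q) = Real.log (α + δ) + Real.log N := by
  have hα0 : 0 < α := by linarith
  have hβ : 0 < α + δ := by positivity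
  have hN1 : 1 ≤ α / δ := by rw [le_div_iff₀ hδ]; linarith
  have hy1 : α / (α + δ) = 1 - 1 / (α / δ + 1) := by
    field_simp; ring
  have hyh : 1 / (α / δ + 1) ≤ 1 / 2 := by
    apply one_div_le_one_div_of_le <;> linarith
  have hq2 : Real.sqrt (α * δ / (α + δ)) ^ 2 = α * δ / (α + δ) := Real.sq_sqrt (by positivity)
  have hq0 : 0 < Real.sqrt (α * δ / (α + δ)) := Real.sqrt_pos.mpr (by positivity)
  refine ⟨α / δ, Real.sqrt (α / (α + δ)), Real.sqrt δ, Real.sqrt (α * δ / (α + δ)), hN1,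
    by field_simp, hy1, by positivity, hyh, Real.sqrt_pos.mpr (by positivity), ?_,
    Real.sqrt_pos.mpr hδ, Real.sq_sqrt hδ.le, rfl, ?_, (Real.sq_sqrt (by positivity)).symm, hq2, ?_⟩
  · apply Real.sqrt_le_iff.mpr
    constructor
    · linarith
    · rw [hy1]
      have := sq_nonneg (1 / (α / δ + 1))
      have e : (1 - 1 / (α / δ + 1) / 2) ^ 2 = 1 - 1 / (α / δ + 1) + (1 / (α / δ + 1)) ^ 2 / 4 := by ring
      rw [e]; linarith
  · rw [← Real.sqrt_mul (by positivity)]
    congr 1; field_simp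
  · have e1 : Real.log ((α / Real.sqrt (α * δ / (α + δ))) ^ 2) = 2 * Real.log (α / Real.sqrt (α * δ / (α + δ))) := by
      rw [Real.log_pow]; norm_num
    rw [← e1, ← Real.log_mul hβ.ne' (by positivity)]
    congr 1
    rw [div_pow, hq2]
    field_simp

/-- the real part of `s = 0` -/
lemma real_s0 {α δ : ℝ} (hδ : 10 ≤ δ) (hαδ : δ ≤ α) :
    ∃ q P : ℝ, q = Real.sqrt (α * δ / (α + δ)) ∧ P = α / (α + δ) * (1 / 2 + 0.5643 / q) ∧ 2.2 ≤ q ∧ P ≤ 1 ∧
      q ^ 2 = α * δ / (α + δ) ∧ P * Real.log (1.782 * (α + δ)) < Real.log (α / q) := by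
  have hδ0 : 0 < δ := by linarith
  have hα0 : 0 < α := by linarith
  obtain ⟨N, rp, sd, q, hN1, hNβ, hy1, hy0, hyh, hrp0, hrp1, hsd0, hsd2, hq, hqe, hrp2, hq2, hLY⟩ := setup hδ0 hαδ
  have hβ : 0 < α + δ := by positivity
  have hq0 : 0 < q := by rw [hqe]; positivity
  have hq5 : 5 ≤ q ^ 2 := by
    rw [hq2, le_div_iff₀ hβ]
    nlinarith
  have hq1 : 2.2 ≤ q := by nlinarith
  have hsd1 : 3.16227 ≤ sd := by nlinarith
  have ha0 : 0 < 1.1286 / sd := by positivity
  have ha1 : 1.1286 / sd ≤ 0.3569 := by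
    rw [div_le_iff₀ hsd0]; linarith
  have h2P : 2 * (α / (α + δ) * (1 / 2 + 0.5643 / q)) ≤ 1 - (1 / (N + 1) - 1.1286 / sd * (1 - 0.5 * (1 / (N + 1)))) := by
    have e1 : 2 * (α / (α + δ) * (1 / 2 + 0.5643 / q)) = α / (α + δ) + 1.1286 / sd * rp := by
      rw [hrp2, hqe]
      field_simp
      norm_num
    rw [e1, hy1]
    have := mul_le_mul_of_nonneg_left hrp1 ha0.le
    have e2 : 1.1286 / sd * (1 - 1 / (N + 1) / 2) = 1.1286 / sd * (1 - 0.5 * (1 / (N + 1))) := by ring
    rw [e2] at this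
    linarith
  refine ⟨q, _, hq, rfl, hq1, ?_, hq2, ?_⟩
  · have h1 : 1.1286 / sd * (1 - 0.5 * (1 / (N + 1))) ≤ 1.1286 / sd * 1 :=
      mul_le_mul_of_nonneg_left (by linarith) ha0.le
    linarith
  · have hX : Real.log (1.782 * (α + δ)) = Real.log (N + 1) + Real.log (1.782 * δ) := by
      rw [← Real.log_mul (by positivity) (by positivity), hNβ]
      congr 1; ring
    have hX' : Real.log (1.782 * (α + δ)) = Real.log (α + δ) - (- Real.log 1.782) := by
      rw [Real.log_mul (by norm_num) hβ.ne']; ring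
    have hLD : Real.log (1.782 * δ) = Real.log (1.782 * 1.1286 ^ 2) + 2 * (- Real.log (1.1286 / sd)) := by
      have e1 : 1.782 * δ = 1.782 * 1.1286 ^ 2 * ((1.1286 / sd) ^ 2)⁻¹ := by
        rw [← hsd2]
        field_simp
      rw [e1, Real.log_mul (by norm_num) (by positivity), Real.log_inv, Real.log_pow]
      push_cast; ring
    have hfin := final_s0 hN1 ha0 ha1 hLD
    rw [← hX] at hfin
    have hXpos : 0 < Real.log (1.782 * (α + δ)) := Real.log_pos (by linarith)
    exact combine h2P hXpos hLY hX' hfin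

/-- `s = 0`, `δ ≥ 10`. -/
theorem caseII_s0 {m α δ : ℕ} (hm : 2 ≤ m) (hs : α + δ + 0 ≤ m * (α + δ)) (hδ : 10 ≤ δ)
    (hαδ : δ < α) : Goal m α δ 0 := by
  have hα : 1 ≤ α := by omega
  have hδ' : (10 : ℝ) ≤ δ := by exact_mod_cast hδ
  have hαδ' : (δ : ℝ) ≤ α := by exact_mod_cast hαδ.le
  obtain ⟨q, P, hq, hP, hq1, hP1, hq2, hmain⟩ := real_s0 hδ' hαδ'
  have hβ : (0 : ℝ) < α + δ := by linarith
  have hα0 : (0 : ℝ) < α := by linarith
  have hq0 : 0 < q := by linarith
  apply caseII_general (c := 0.5643) (q := q) (x := 0)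
    (V := ((α : ℝ) + δ + (0 : ℕ)) * (α / (α + δ)) * (δ / (α + δ))) (p' := 1 / 2 + 0.5643 / q * (1 + 0)) (e := q / 2)
    hm hα (by omega) hs le_rfl hq (by simp) rfl rfl
  · apply le_of_eq
    have : (0 : ℝ) ^ 2 + ((α : ℝ) + δ + (0 : ℕ)) * (α / (α + δ)) * (δ / (α + δ)) = q ^ 2 := by
      rw [hq2]; push_cast; field_simp; ring
    rw [this, Real.sqrt_sq hq0.le]; ring
  · rw [add_zero, mul_one]
    have h1 : q * (1 / 2 + 0.5643 / q) = q / 2 + 0.5643 := by field_simp
    rw [h1]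
    have h2 : 0.5643 / q ≤ 0.5643 / 2.2 := div_le_div_of_nonneg_left (by norm_num) (by norm_num) hq1
    have h3 : (0.5643 : ℝ) / 2.2 = 0.2565 := by norm_num
    rw [h3] at h2
    linarith
  · rw [add_zero, mul_one, ← hP]
    have hH := H10_bound (n := α + δ) (by omega)
    have hP0 : 0 ≤ P := by rw [hP]; positivity
    have hε : Real.log (1.782 * (((α + δ : ℕ) : ℝ) + 1 / 2)) = Real.log (1.782 * (α + δ)) + Real.log (1 + 1 / (2 * (α + δ))) := by
      rw [← Real.log_mul (by positivity) (by positivity)]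
      congr 1
      push_cast
      field_simp
    have hε0 : 0 ≤ Real.log (1 + 1 / (2 * ((α : ℝ) + δ))) := Real.log_nonneg (by
      have : 0 < 1 / (2 * ((α : ℝ) + δ)) := by positivity
      linarith)
    have hY : Real.log (1 + α / q) = Real.log (α / q) + Real.log (1 + q / α) := by
      rw [← Real.log_mul (by positivity) (by positivity)]
      congr 1; field_simp; ring
    have hYε : Real.log (1 + 1 / (2 * ((α : ℝ) + δ))) ≤ Real.log (1 + q / α) := by
      apply Real.log_le_log (by positivity)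
      have : 1 / (2 * ((α : ℝ) + δ)) ≤ q / α := by
        rw [div_le_div_iff₀ (by positivity) hα0]
        have h1 : α * 1 ≤ ((α : ℝ) + δ) * q := by
          apply mul_le_mul <;> linarith
        linarith
      linarith
    rw [hY]
    have e0 : A (α + δ) ((0 : ℕ) : ℝ) = A (α + δ) 0 := by norm_num
    rw [e0]
    have h9 : P * A (α + δ) 0 ≤ P * (Real.log (1.782 * (α + δ)) + Real.log (1 + 1 / (2 * (α + δ)))) := by
      rw [← hε]; exact mul_le_mul_of_nonneg_left hH hP0
    have h10 : P * Real.log (1 + 1 / (2 * ((α : ℝ) + δ))) ≤ 1 * Real.log (1 + 1 / (2 * ((α : ℝ) + δ))) :=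
      mul_le_mul_of_nonneg_right hP1 hε0
    rw [mul_add] at h9
    linarith

/-- the real part of `s ≥ 1` -/
lemma real_s1 {α δ s : ℝ} (hs : 1 ≤ s) (hδ : 16 ≤ δ) (hδs : 8 * s ^ 2 ≤ δ)
    (hδ3 : 1.44 * (1 + s) ^ 2 ≤ 0.3969 * δ) (hαδ : δ ≤ α) :
    ∃ q P : ℝ, q = Real.sqrt (α * δ / (α + δ)) ∧
      P = α / (α + δ) * (1 / 2 + 0.6 / q * (1 + α * s / (α + δ))) ∧ 8 ≤ q ^ 2 ∧ 0 < q ∧
      8 * (α * s / (α + δ)) ^ 2 ≤ q ^ 2 ∧ P ≤ 1 ∧ s + 1 / 2 ≤ q ∧
      q ^ 2 = α * δ / (α + δ) ∧ P * Real.log ((α + δ) / (s + 1 / 2)) < Real.log (α / q) := by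
  have hδ0 : 0 < δ := by linarith
  have hα0 : 0 < α := by linarith
  obtain ⟨N, rp, sd, q, hN1, hNβ, hy1, hy0, hyh, hrp0, hrp1, hsd0, hsd2, hq, hqe, hrp2, hq2, hLY⟩ := setup hδ0 hαδ
  have hβ : 0 < α + δ := by positivity
  have hs0 : 0 < s + 1 / 2 := by linarith
  have hq0 : 0 < q := by rw [hqe]; positivity
  have hp12 : 1 / 2 ≤ α / (α + δ) := by linarith
  have hp1 : α / (α + δ) ≤ 1 := by linarith
  have hq2p : q ^ 2 = α / (α + δ) * δ := by rw [hq2]; ring
  have hq8 : 8 ≤ q ^ 2 := by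
    rw [hq2p]
    calc (8 : ℝ) = 1 / 2 * 16 := by norm_num
      _ ≤ _ := by apply mul_le_mul <;> linarith
  have hqx : 8 * (α * s / (α + δ)) ^ 2 ≤ q ^ 2 := by
    rw [hq2p]
    have e : 8 * (α * s / (α + δ)) ^ 2 = α / (α + δ) * (α / (α + δ)) * (8 * s ^ 2) := by
      field_simp
    rw [e]
    have h1 : α / (α + δ) * (α / (α + δ)) ≤ α / (α + δ) * 1 :=
      mul_le_mul_of_nonneg_left hp1 (by linarith)
    rw [mul_one] at h1
    calc _ ≤ α / (α + δ) * (8 * s ^ 2) := mul_le_mul_of_nonneg_right h1 (by positivity)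
      _ ≤ _ := mul_le_mul_of_nonneg_left hδs (by linarith)
  have hqs : s + 1 / 2 ≤ q := by
    have h1 : (2 * s) ^ 2 ≤ q ^ 2 := by
      rw [hq2p]
      calc (2 * s) ^ 2 = 1 / 2 * (8 * s ^ 2) := by ring
        _ ≤ _ := by
          apply mul_le_mul hp12 hδs (by positivity) (by linarith)
    have h2 : 2 * s ≤ q := by
      apply le_of_sq_le_sq h1 hq0.le
    linarith
  have ha0 : 0 < 1.2 * (1 + s) / sd := by positivity
  have ha1 : 1.2 * (1 + s) / sd ≤ 0.63 := by
    rw [div_le_iff₀ hsd0]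
    have h1 : (1.2 * (1 + s)) ^ 2 ≤ (0.63 * sd) ^ 2 := by
      rw [mul_pow 0.63, hsd2, mul_pow]; linarith
    exact le_of_sq_le_sq h1 (by positivity)
  have hrps : rp * (1 + α * s / (α + δ)) ≤ (1 + s) * (1 - 0.875 * (1 / (N + 1))) := by
    have e1 : α * s / (α + δ) = (1 - 1 / (N + 1)) * s := by rw [← hy1]; ring
    rw [e1]
    set y := 1 / (N + 1) with hy
    have h1 : 0 ≤ 1 + (1 - y) * s := by
      have : 0 ≤ (1 - y) * s := mul_nonneg (by linarith) (by linarith)
      linarith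
    calc rp * (1 + (1 - y) * s) ≤ (1 - y / 2) * (1 + (1 - y) * s) := mul_le_mul_of_nonneg_right hrp1 h1
      _ ≤ _ := by
        have g1 : 0 ≤ y * (s - 1) := mul_nonneg hy0.le (by linarith)
        have g2 : 0 ≤ s * (y * (1 / 2 - y)) := mul_nonneg (by linarith) (mul_nonneg hy0.le (by linarith))
        have e2 : (1 + s) * (1 - 0.875 * y) - (1 - y / 2) * (1 + (1 - y) * s)
          = 0.375 * (y * (s - 1)) + 0.5 * (s * (y * (1 / 2 - y))) := by ring
        linarith
  have h2P : 2 * (α / (α + δ) * (1 / 2 + 0.6 / q * (1 + α * s / (α + δ)))) ≤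
      1 - (1 / (N + 1) - 1.2 * (1 + s) / sd * (1 - 0.875 * (1 / (N + 1)))) := by
    have e1 : 2 * (α / (α + δ) * (1 / 2 + 0.6 / q * (1 + α * s / (α + δ))))
        = α / (α + δ) + 1.2 / sd * (rp * (1 + α * s / (α + δ))) := by
      have e2 : α / (α + δ) * (0.6 / q) = 0.6 / sd * rp := by
        rw [hrp2, hqe]; field_simp
      linear_combination (2 * (1 + α * s / (α + δ))) * e2
    rw [e1, hy1]
    have h3 : 1.2 / sd * (rp * (1 + α * s / (α + δ))) ≤ 1.2 / sd * ((1 + s) * (1 - 0.875 * (1 / (N + 1)))) :=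
      mul_le_mul_of_nonneg_left hrps (by positivity)
    have e3 : 1.2 / sd * ((1 + s) * (1 - 0.875 * (1 / (N + 1)))) = 1.2 * (1 + s) / sd * (1 - 0.875 * (1 / (N + 1))) := by
      ring
    rw [e3] at h3
    linarith
  refine ⟨q, _, hq, rfl, hq8, hq0, hqx, ?_, hqs, hq2, ?_⟩
  · have h1 : 1.2 * (1 + s) / sd * (1 - 0.875 * (1 / (N + 1))) ≤ 1.2 * (1 + s) / sd * 1 :=
      mul_le_mul_of_nonneg_left (by linarith) ha0.le
    linarith
  · have hX : Real.log ((α + δ) / (s + 1 / 2)) = Real.log (N + 1) + Real.log (δ / (s + 1 / 2)) := by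
      rw [← Real.log_mul (by positivity) (by positivity), hNβ]
      congr 1; ring
    have hX' : Real.log ((α + δ) / (s + 1 / 2)) = Real.log (α + δ) - Real.log (s + 1 / 2) :=
      Real.log_div hβ.ne' hs0.ne'
    have hLD : Real.log (δ / (s + 1 / 2)) = Real.log (1.44 * (1 + s) ^ 2 / (s + 1 / 2)) + 2 * (- Real.log (1.2 * (1 + s) / sd)) := by
      have hs1 : 0 < 1 + s := by linarith
      have e1 : δ / (s + 1 / 2) = 1.44 * (1 + s) ^ 2 / (s + 1 / 2) * ((1.2 * (1 + s) / sd) ^ 2)⁻¹ := by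
        rw [← hsd2]
        field_simp
        norm_num
      rw [e1, Real.log_mul (by positivity) (by positivity), Real.log_inv, Real.log_pow]
      push_cast; ring
    have hfin := final_s1 hN1 ha0 ha1 hs hLD
    rw [← hX] at hfin
    have hXpos : 0 < Real.log ((α + δ) / (s + 1 / 2)) := Real.log_pos (by
      rw [lt_div_iff₀ hs0]
      nlinarith)
    exact combine h2P hXpos hLY hX' hfin

/-- the bound on `e` in the case `s ≥ 1`. -/
lemma e_bound {α δ s q x V : ℝ} (hs : 1 ≤ s) (hδ0 : 0 < δ) (hδs : 8 * s ^ 2 ≤ δ) (hαδ : δ ≤ α)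
    (hq0 : 0 < q) (hq2 : q ^ 2 = α * δ / (α + δ)) (hq8 : 8 ≤ q ^ 2) (hx0 : 0 ≤ x) (hqx : 8 * x ^ 2 ≤ q ^ 2)
    (hV : V = (α + δ + s) * (α / (α + δ)) * (δ / (α + δ))) :
    (x + Real.sqrt (x ^ 2 + V)) / 2 ≤ (q - 0.6) * (1 / 2 + 0.6 / q * (1 + x)) := by
  have hα0 : 0 < α := by linarith
  have hβ : 0 < α + δ := by positivity
  have hsq : Real.sqrt (x ^ 2 + V) ≤ q + q * s / (2 * (α + δ)) + x ^ 2 / (2 * q) := by
    apply Real.sqrt_le_iff.mpr
    constructor
    · positivity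
    · have e1 : V = q ^ 2 + q ^ 2 * s / (α + δ) := by
        rw [hq2, hV]; field_simp
      have e2 : (q + q * s / (2 * (α + δ)) + x ^ 2 / (2 * q)) ^ 2
          = q ^ 2 + q ^ 2 * s / (α + δ) + x ^ 2 + (q * s / (2 * (α + δ)) + x ^ 2 / (2 * q)) ^ 2 := by
        field_simp; ring
      rw [e1, e2]
      have : 0 ≤ (q * s / (2 * (α + δ)) + x ^ 2 / (2 * q)) ^ 2 := by positivity
      linarith
  have h1 : q * s / (2 * (α + δ)) ≤ 0.0625 := by
    rw [div_le_iff₀ (by positivity)]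
    have h2 : (q * s) ^ 2 ≤ (0.125 * (α + δ)) ^ 2 := by
      rw [mul_pow, hq2]
      have h3 : α * δ / (α + δ) * s ^ 2 ≤ α * δ / (α + δ) * (δ / 8) :=
        mul_le_mul_of_nonneg_left (by linarith) (by positivity)
      refine h3.trans ?_
      rw [div_mul_eq_mul_div, div_le_iff₀ hβ]
      have hd : 0 ≤ α - δ := by linarith
      have g1 : 0 ≤ (α - δ) * ((α - δ) * (α + δ) + 4 * (α * δ)) := by positivity
      have e4 : (0.125 * (α + δ)) ^ 2 * (α + δ) - α * δ * (δ / 8)
        = 1 / 64 * ((α - δ) * ((α - δ) * (α + δ) + 4 * (α * δ))) := by ring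
      linarith
    have h4 := le_of_sq_le_sq h2 (by positivity)
    linarith
  have h2 : x ≤ 0.35356 * q := by
    have : x ^ 2 ≤ (0.35356 * q) ^ 2 := by nlinarith
    exact le_of_sq_le_sq this (by positivity)
  have h3 : 2.828 ≤ q := by nlinarith
  have h4 : x ^ 2 / (2 * q) ≤ 0.17678 * x := by
    rw [div_le_iff₀ (by positivity)]; nlinarith
  have h5 : 0.72 / q ≤ 0.2546 := by
    rw [div_le_iff₀ hq0]; linarith
  have h6 : 0.72 * x / q ≤ 0.25457 := by
    rw [div_le_iff₀ hq0]; linarith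
  have e3 : (q - 0.6) * (1 / 2 + 0.6 / q * (1 + x)) = q / 2 + 0.6 * (1 + x) - 0.3 - (0.72 / q + 0.72 * x / q) / 2 := by
    field_simp; ring
  rw [e3]
  linarith

/-- `s ≥ 1`, large `δ`. -/
theorem caseII_s1 {m α δ s : ℕ} (hm : 2 ≤ m) (hs : α + δ + s ≤ m * (α + δ)) (hs1 : 1 ≤ s)
    (hδ : 16 ≤ δ) (hδs : s = 1 ∨ 8 * s ^ 2 < δ)
    (hαδ : δ < α) : Goal m α δ s := by
  have hα : 1 ≤ α := by omega
  have hδ' : (16 : ℝ) ≤ δ := by exact_mod_cast hδ
  have hs' : (1 : ℝ) ≤ s := by exact_mod_cast hs1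
  have hαδ' : (δ : ℝ) ≤ α := by exact_mod_cast hαδ.le
  have hδs' : 8 * (s : ℝ) ^ 2 ≤ δ := by
    rcases hδs with h | h
    · subst h; push_cast; linarith
    · exact_mod_cast h.le
  have hδ3 : 1.44 * (1 + (s : ℝ)) ^ 2 ≤ 0.3969 * δ := by
    rcases hδs with h | h
    · subst h; push_cast; linarith
    · rcases Nat.lt_or_ge s 2 with h2 | h2
      · have : s = 1 := by omega
        subst this; push_cast; linarith
      · have h2' : (2 : ℝ) ≤ s := by exact_mod_cast h2
        have h3 : 8 * (s : ℝ) ^ 2 + 1 ≤ δ := by exact_mod_cast h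
        nlinarith
  obtain ⟨q, P, hq, hP, hq8, hq0, hqx, hP1, hqs, hq2, hmain⟩ := real_s1 hs' hδ' hδs' hδ3 hαδ'
  have hβ : (0 : ℝ) < α + δ := by linarith
  have hα0 : (0 : ℝ) < α := by linarith
  have hs0 : (0 : ℝ) < s + 1 / 2 := by linarith
  set x : ℝ := (α : ℝ) * s / (α + δ) with hx
  have hx0 : 0 ≤ x := by positivity
  have he := e_bound hs' (by linarith) hδs' hαδ' hq0 hq2 hq8 hx0 hqx (V := ((α : ℝ) + δ + s) * (α / (α + δ)) * (δ / (α + δ))) rfl
  apply caseII_general (c := 0.6) (q := q) (x := x)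
    (V := ((α : ℝ) + δ + s) * (α / (α + δ)) * (δ / (α + δ))) (p' := 1 / 2 + 0.6 / q * (1 + x))
    (e := (q - 0.6) * (1 / 2 + 0.6 / q * (1 + x)))
    hm hα (by omega) hs (by norm_num) hq rfl rfl rfl he
  · apply le_of_eq; ring
  · rw [← hP]
    have hP0 : 0 ≤ P := by rw [hP]; positivity
    have hH := A_upper (α + δ) (x := (s : ℝ)) (by positivity)
    have h1 := log_compare (P := P) (X := ((α : ℝ) + δ) / (s + 1 / 2)) (Y := α / q) hP1 (by positivity)
      (by
        rw [div_le_div_iff₀ hq0 hs0]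
        apply mul_le_mul <;> linarith) hmain
    refine lt_of_le_of_lt ?_ h1
    push_cast at hH
    exact mul_le_mul_of_nonneg_left hH hP0

end Spread

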