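import Pool.Agent.Lib.MP_33b3f7_co.SpreadC

/-!
# Finite checks by scaled integer arithmetic
-/

namespace Spread

open Finset

/-- scaled lower bound for `A` -/
def lo (u v : ℕ) : ℕ → ℕ
  | 0 => 0
  | n + 1 => lo u v n + 1000000000 * v / (u + v * (n + 1))

/-- scaled upper bound for `A` -/
def hi (u v : ℕ) : ℕ → ℕ
  | 0 => 0
  | n + 1 => hi u v n + (1000000000 * v / (u + v * (n + 1)) + 1)

/-- scaled upper bound for `A2` -/
def hi2 (u v : ℕ) : ℕ → ℕ
  | 0 => 0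
  | n + 1 => hi2 u v n + (1000000000 * v ^ 2 / (u + v * (n + 1)) ^ 2 + 1)

lemma div_lt_cast (a b : ℕ) (hb : 0 < b) : (a : ℝ) / b ≤ ((a / b + 1 : ℕ) : ℝ) := by
  have h : a < b * (a / b + 1) := Nat.lt_mul_div_succ a hb
  have hb' : (0 : ℝ) < b := by exact_mod_cast hb
  rw [div_le_iff₀ hb']
  have h' : (a : ℝ) < b * ((a / b + 1 : ℕ) : ℝ) := by exact_mod_cast h
  linarith

lemma lo_le (u v : ℕ) (hv : 0 < v) (n : ℕ) : (lo u v n : ℝ) ≤ 1000000000 * A n ((u : ℝ) / v) := by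
  have hv' : (0 : ℝ) < v := by exact_mod_cast hv
  induction n with
  | zero => simp [lo, A]
  | succ n ih =>
    have h1 : A (n + 1) ((u : ℝ) / v) = A n ((u : ℝ) / v) + 1 / ((u : ℝ) / v + ((n : ℝ) + 1)) := by
      unfold A; rw [Finset.sum_range_succ]
    have h2 : ((1000000000 * v / (u + v * (n + 1)) : ℕ) : ℝ) ≤ 1000000000 * (1 / ((u : ℝ) / v + ((n : ℝ) + 1))) := by
      refine Nat.cast_div_le.trans (le_of_eq ?_)
      push_cast
      field_simp
    rw [h1]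
    have h3 : (lo u v (n + 1) : ℝ) = lo u v n + ((1000000000 * v / (u + v * (n + 1)) : ℕ) : ℝ) := by
      rw [lo]; push_cast; ring
    rw [h3]
    linarith

lemma le_hi (u v : ℕ) (hv : 0 < v) (n : ℕ) : 1000000000 * A n ((u : ℝ) / v) ≤ (hi u v n : ℝ) := by
  have hv' : (0 : ℝ) < v := by exact_mod_cast hv
  induction n with
  | zero => simp [hi, A]
  | succ n ih =>
    have h1 : A (n + 1) ((u : ℝ) / v) = A n ((u : ℝ) / v) + 1 / ((u : ℝ) / v + ((n : ℝ) + 1)) := by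
      unfold A; rw [Finset.sum_range_succ]
    have h2 : 1000000000 * (1 / ((u : ℝ) / v + ((n : ℝ) + 1))) ≤ ((1000000000 * v / (u + v * (n + 1)) + 1 : ℕ) : ℝ) := by
      refine le_trans (le_of_eq ?_) (div_lt_cast (1000000000 * v) (u + v * (n + 1)) (by positivity))
      push_cast
      field_simp
    rw [h1]
    have h3 : (hi u v (n + 1) : ℝ) = hi u v n + ((1000000000 * v / (u + v * (n + 1)) + 1 : ℕ) : ℝ) := by
      rw [hi]; push_cast; ring
    rw [h3]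
    linarith

lemma le_hi2 (u v : ℕ) (hv : 0 < v) (n : ℕ) : 1000000000 * A2 n ((u : ℝ) / v) ≤ (hi2 u v n : ℝ) := by
  have hv' : (0 : ℝ) < v := by exact_mod_cast hv
  induction n with
  | zero => simp [hi2, A2]
  | succ n ih =>
    have h1 : A2 (n + 1) ((u : ℝ) / v) = A2 n ((u : ℝ) / v) + 1 / ((u : ℝ) / v + ((n : ℝ) + 1)) ^ 2 := by
      unfold A2; rw [Finset.sum_range_succ]
    have h2 : 1000000000 * (1 / ((u : ℝ) / v + ((n : ℝ) + 1)) ^ 2) ≤ ((1000000000 * v ^ 2 / (u + v * (n + 1)) ^ 2 + 1 : ℕ) : ℝ) := by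
      refine le_trans (le_of_eq ?_) (div_lt_cast (1000000000 * v ^ 2) ((u + v * (n + 1)) ^ 2) (by positivity))
      push_cast
      field_simp
    rw [h1]
    have h3 : (hi2 u v (n + 1) : ℝ) = hi2 u v n + ((1000000000 * v ^ 2 / (u + v * (n + 1)) ^ 2 + 1 : ℕ) : ℝ) := by
      rw [hi2]; push_cast; ring
    rw [h3]
    linarith

/-- regime I condition from a finite check -/
lemma I_of_check {n u v b : ℕ} (hv : 0 < v)
    (h : (1000 * u + b * v) * hi2 u v n ≤ 1000 * v * lo u v n) :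
    ((u : ℝ) / v + (b : ℝ) / 1000) * A2 n ((u : ℝ) / v) ≤ A n ((u : ℝ) / v) := by
  have hv' : (0 : ℝ) < v := by exact_mod_cast hv
  have h' : (1000 * (u : ℝ) + b * v) * hi2 u v n ≤ 1000 * v * lo u v n := by exact_mod_cast h
  have h1 := lo_le u v hv n
  have h2 := le_hi2 u v hv n
  have h3 : (1000 * (u : ℝ) + b * v) * (1000000000 * A2 n ((u : ℝ) / v)) ≤ 1000 * v * (1000000000 * A n ((u : ℝ) / v)) := by
    calc (1000 * (u : ℝ) + b * v) * (1000000000 * A2 n ((u : ℝ) / v))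
        ≤ (1000 * (u : ℝ) + b * v) * hi2 u v n := mul_le_mul_of_nonneg_left h2 (by positivity)
      _ ≤ 1000 * v * lo u v n := h'
      _ ≤ _ := mul_le_mul_of_nonneg_left h1 (by positivity)
  have e1 : (1000 * (u : ℝ) + b * v) = 1000 * v * ((u : ℝ) / v + (b : ℝ) / 1000) := by
    field_simp
  rw [e1] at h3
  have h4 : 1000 * (v : ℝ) * (((u : ℝ) / v + (b : ℝ) / 1000) * (1000000000 * A2 n ((u : ℝ) / v)))
      ≤ 1000 * v * (1000000000 * A n ((u : ℝ) / v)) := by linarith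
  have h5 := le_of_mul_le_mul_left h4 (by positivity)
  linarith

/-- values of `B` for `s = 0` -/
def b0 (δ α : ℕ) : ℕ :=
  if δ = 1 then (if α ≤ 32 then 1472 else 1600)
  else if δ = 2 then 1802
  else if δ = 3 then 2050
  else if δ = 4 then 2260
  else if δ = 5 then 2440
  else if δ = 6 then 2595
  else if δ = 7 then (if α ≤ 91 then 2732 else 2800)
  else if δ = 8 then (if α ≤ 80 then 2848 else 2900)
  else (if α ≤ 72 then 2951 else 3050)

/-- check for `s = 0` -/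
def chk0 (δ α b : ℕ) : Prop :=
  1000 ≤ b ∧ 3 * α * δ * 1000000 + (4 * α + δ) * 1000 * b ≤ 4 * b * b * (α + δ) ∧
    α * hi 0 1 (α + δ) * (b * hi2 0 1 α) < 1000 * (α + δ) * lo 0 1 α ^ 2

instance (δ α b : ℕ) : Decidable (chk0 δ α b) := by unfold chk0; infer_instance

lemma check0 : ∀ δ < 10, ∀ α < 100, 1 ≤ δ → δ < α → chk0 δ α (b0 δ α) := by
  decide +kernel

/-- table for `s = 1` -/
def bt1 : List ℕ := [0, 0, 1198, 1382, 1540, 1679, 1804, 1917, 2021, 2117, 2207, 2291, 2371, 2447, 2519, 2588, 2654, 2699, 2741, 2781, 2818, 2854, 2888, 2920, 2951, 2980, 3008, 3035, 3061, 3086, 3110, 3133, 3156, 3177, 3198, 3218, 3238, 3256, 3275, 3293, 3310, 3327, 3344, 3360, 3375]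

/-- values of `B` for `s = 1` -/
def b1 (α : ℕ) : ℕ := bt1.getD α 0

/-- check for `s = 1`. -/
def chk1 (α b : ℕ) : Prop :=
  1000 ≤ b ∧ b ≤ 1000 * (α + 1) ∧ (1000 * 1 + b * 2) * hi2 1 2 α ≤ 1000 * 2 * lo 1 2 α ∧
    ∀ δ < 16, 1 ≤ δ → δ < α → 3 * α * (δ + 1) * 1000000 + 1000 * b * (α + δ) ≤ 4 * b * b * (α + δ)

instance (α b : ℕ) : Decidable (chk1 α b) := by unfold chk1; infer_instance

lemma check1 : ∀ α < 45, 2 ≤ α → chk1 α (b1 α) := by
  decide +kernel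

lemma checkBig : ((1000 * 3 + 3600 * 4) * hi2 3 4 45 ≤ 1000 * 4 * lo 3 4 45) ∧
    ((1000 * 0 + 3150 * 1) * hi2 0 1 100 ≤ 1000 * 1 * lo 0 1 100) ∧
    ((1000 * 1 + 1300 * 1) * hi2 1 1 2 ≤ 1000 * 1 * lo 1 1 2) ∧
    ((1000 * 1 + 1550 * 1) * hi2 1 1 3 ≤ 1000 * 1 * lo 1 1 3) ∧
    ((1000 * 1 + 1950 * 1) * hi2 1 1 5 ≤ 1000 * 1 * lo 1 1 5) ∧
    ((1000 * 1 + 2500 * 1) * hi2 1 1 9 ≤ 1000 * 1 * lo 1 1 9) ∧
    ((1000 * 1 + 3150 * 1) * hi2 1 1 16 ≤ 1000 * 1 * lo 1 1 16) ∧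
    ((1000 * 1 + 3750 * 1) * hi2 1 1 26 ≤ 1000 * 1 * lo 1 1 26) := by
  decide +kernel

end Spread

/-!
# Case B: `δ < α`
-/

namespace Spread

open Finset

lemma half_le {α δ : ℝ} (hδ : 0 < δ) (hαδ : δ ≤ α) : 1 / 2 ≤ α / (α + δ) := by
  rw [div_le_div_iff₀ (by norm_num) (by linarith)]; linarith

lemma le_one' {α δ : ℝ} (hδ : 0 < δ) (hαδ : δ ≤ α) : α / (α + δ) ≤ 1 := by
  rw [div_le_one (by linarith)]; linarith

/-- `s = 0`, `δ ≤ 9`, `α < 100`. -/
lemma caseB_s0_small {m α δ : ℕ} (hm : 1 ≤ m) (hδ : 1 ≤ δ) (hαδ : δ < α) (hδ9 : δ < 10) (hα : α < 100)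
    (hs : α + δ + 0 ≤ m * (α + δ)) : Goal m α δ 0 := by
  obtain ⟨h1, h2, h3⟩ := check0 δ hδ9 α hα hδ hαδ
  set b := b0 δ α
  have h1' : (1000 : ℝ) ≤ b := by exact_mod_cast h1
  have h2' : 3 * (α : ℝ) * δ * 1000000 + (4 * α + δ) * 1000 * b ≤ 4 * b * b * (α + δ) := by exact_mod_cast h2
  have h3' : (α : ℝ) * hi 0 1 (α + δ) * (b * hi2 0 1 α) < 1000 * (α + δ) * (lo 0 1 α : ℝ) ^ 2 := by exact_mod_cast h3
  have hα' : (1 : ℝ) ≤ α := by exact_mod_cast (by omega : 1 ≤ α)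
  have hδ' : (1 : ℝ) ≤ δ := by exact_mod_cast hδ
  have hβ : (0 : ℝ) < (α : ℝ) + δ := by positivity
  apply regimeR (B := (b : ℝ) / 1000) (x := 0) hm (by omega) hδ hs
  · rw [le_div_iff₀ (by norm_num)]; linarith
  · push_cast
    have e1 : 3 * ((α : ℝ) / (α + δ)) * (δ + 0) = (3 * (α : ℝ) * δ * 1000000) / (1000000 * (α + δ)) := by
      field_simp; ring
    have e2 : 4 * ((b : ℝ) / 1000) ^ 2 + (3 * ((α : ℝ) / (α + δ)) * (0 - 1) - 1) * (b / 1000)
        = (4 * b * b * (α + δ) - (4 * α + δ) * 1000 * b) / (1000000 * (α + δ)) := by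
      field_simp; ring
    rw [e1, e2]
    apply div_le_div_of_nonneg_right _ (by positivity)
    linarith
  · simp
  · have g1 := le_hi 0 1 one_pos (α + δ)
    have g2 := le_hi2 0 1 one_pos α
    have g3 := lo_le 0 1 one_pos α
    have e0 : (((0 : ℕ) : ℝ) / ((1 : ℕ) : ℝ)) = 0 := by norm_num
    rw [e0] at g1 g2 g3
    have e1 : ((0 : ℕ) : ℝ) = 0 := by norm_num
    rw [e1]
    have hA1 : 0 < A (α + δ) 0 := A_pos (by omega) le_rfl
    have hA2 : 0 < A2 α 0 := A2_pos (by omega) le_rfl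
    have hA3 : 0 < A α 0 := A_pos (by omega) le_rfl
    have hlo : (0 : ℝ) ≤ lo 0 1 α := by positivity
    have k1 : (1000000000 * A (α + δ) 0) * (1000000000 * A2 α 0) ≤ (hi 0 1 (α + δ) : ℝ) * hi2 0 1 α := by
      apply mul_le_mul g1 g2 (by positivity) (by positivity)
    have k2 : (lo 0 1 α : ℝ) ^ 2 ≤ (1000000000 * A α 0) ^ 2 := pow_le_pow_left₀ hlo g3 2
    have k3 : (α : ℝ) * b * ((1000000000 * A (α + δ) 0) * (1000000000 * A2 α 0)) < 1000 * (α + δ) * (1000000000 * A α 0) ^ 2 := by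
      calc (α : ℝ) * b * ((1000000000 * A (α + δ) 0) * (1000000000 * A2 α 0))
          ≤ (α : ℝ) * b * ((hi 0 1 (α + δ) : ℝ) * hi2 0 1 α) := mul_le_mul_of_nonneg_left k1 (by positivity)
        _ = (α : ℝ) * hi 0 1 (α + δ) * (b * hi2 0 1 α) := by ring
        _ < 1000 * (α + δ) * (lo 0 1 α : ℝ) ^ 2 := h3'
        _ ≤ _ := mul_le_mul_of_nonneg_left k2 (by positivity)
    have k4 : (α : ℝ) * A (α + δ) 0 * ((0 + (b : ℝ) / 1000) * A2 α 0)
        = ((α : ℝ) * b * ((1000000000 * A (α + δ) 0) * (1000000000 * A2 α 0))) / (1000 * 1000000000 ^ 2) := by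
      field_simp; ring
    have k5 : ((α : ℝ) + δ) * A α 0 ^ 2 = (1000 * (α + δ) * (1000000000 * A α 0) ^ 2) / (1000 * 1000000000 ^ 2) := by
      field_simp
    rw [k4, k5]
    exact div_lt_div_of_pos_right k3 (by norm_num)

/-- `s = 0`, `δ ≤ 9`, `α ≥ 100`. -/
lemma caseB_s0_large {m α δ : ℕ} (hm : 1 ≤ m) (hδ : 1 ≤ δ) (hδ9 : δ < 10) (hα : 100 ≤ α)
    (hs : α + δ + 0 ≤ m * (α + δ)) : Goal m α δ 0 := by
  have hα' : (100 : ℝ) ≤ α := by exact_mod_cast hα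
  have hδ' : (1 : ℝ) ≤ δ := by exact_mod_cast hδ
  have hδ9' : (δ : ℝ) ≤ 9 := by exact_mod_cast (by omega : δ ≤ 9)
  have hp1 : (α : ℝ) / (α + δ) ≤ 1 := le_one' (by linarith) (by linarith)
  have hp0 : 0 ≤ (α : ℝ) / (α + δ) := by positivity
  apply regimeI (B := 3.15) (x := 0) hm (by omega) hδ hs (by norm_num)
  · push_cast
    have h1 : 3 * ((α : ℝ) / (α + δ)) * (δ + 0) ≤ 3 * 1 * 9 := by
      apply mul_le_mul _ (by linarith) (by positivity) (by norm_num)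
      linarith
    linarith
  · simp
  · have h := I_of_check one_pos checkBig.2.1
    have e0 : (((0 : ℕ) : ℝ) / ((1 : ℕ) : ℝ)) = 0 := by norm_num
    have e1 : (((3150 : ℕ) : ℝ) / 1000) = 3.15 := by norm_num
    rw [e0, e1] at h
    exact mono_I le_rfl le_rfl hα (by norm_num) (by norm_num) h

/-- `s = 1`, `δ ≤ 15`, `α < 45` -/
lemma caseB_s1_small {m α δ : ℕ} (hm : 1 ≤ m) (hδ : 1 ≤ δ) (hαδ : δ < α) (hδ15 : δ < 16) (hα : α < 45)
    (hs : α + δ + 1 ≤ m * (α + δ)) : Goal m α δ 1 := by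
  obtain ⟨h1, h2, h3, h4⟩ := check1 α hα (by omega)
  have h4 := h4 δ hδ15 hδ hαδ
  set b := b1 α
  have h1' : (1000 : ℝ) ≤ b := by exact_mod_cast h1
  have h2' : (b : ℝ) ≤ 1000 * (α + 1) := by exact_mod_cast h2
  have h4' : 3 * (α : ℝ) * (δ + 1) * 1000000 + 1000 * b * (α + δ) ≤ 4 * b * b * (α + δ) := by exact_mod_cast h4
  have hα' : (1 : ℝ) ≤ α := by exact_mod_cast (by omega : 1 ≤ α)
  have hδ' : (1 : ℝ) ≤ δ := by exact_mod_cast hδ
  have hαδ' : (δ : ℝ) ≤ α := by exact_mod_cast hαδ.le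
  have hβ : (0 : ℝ) < (α : ℝ) + δ := by positivity
  apply regimeI (B := (b : ℝ) / 1000) (x := (α : ℝ) / (α + δ)) hm (by omega) hδ hs
  · rw [le_div_iff₀ (by norm_num)]; linarith
  · push_cast
    have e1 : 3 * ((α : ℝ) / (α + δ)) * (δ + 1) = (3 * (α : ℝ) * (δ + 1) * 1000000) / (1000000 * (α + δ)) := by
      field_simp
    have e2 : 4 * ((b : ℝ) / 1000) ^ 2 + (3 * ((α : ℝ) / (α + δ)) * (1 - 1) - 1) * (b / 1000)
        = (4 * b * b * (α + δ) - 1000 * b * (α + δ)) / (1000000 * (α + δ)) := by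
      field_simp; ring
    rw [e1, e2]
    apply div_le_div_of_nonneg_right _ (by positivity)
    linarith
  · simp
  · have h := I_of_check (by norm_num) h3
    have e0 : (((1 : ℕ) : ℝ) / ((2 : ℕ) : ℝ)) = 1 / 2 := by norm_num
    rw [e0] at h
    exact mono_I (by norm_num) (half_le (by linarith) hαδ') le_rfl (by positivity)
      (by rw [div_le_iff₀ (by norm_num)]; linarith) h

/-- `s = 1`, `δ ≤ 15`, `α ≥ 45` -/
lemma caseB_s1_large {m α δ : ℕ} (hm : 1 ≤ m) (hδ : 1 ≤ δ) (hδ15 : δ < 16) (hα : 45 ≤ α)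
    (hs : α + δ + 1 ≤ m * (α + δ)) : Goal m α δ 1 := by
  have hα' : (45 : ℝ) ≤ α := by exact_mod_cast hα
  have hδ' : (1 : ℝ) ≤ δ := by exact_mod_cast hδ
  have hδ15' : (δ : ℝ) ≤ 15 := by exact_mod_cast (by omega : δ ≤ 15)
  have hp1 : (α : ℝ) / (α + δ) ≤ 1 := le_one' (by linarith) (by linarith)
  have hp0 : 0 ≤ (α : ℝ) / (α + δ) := by positivity
  apply regimeI (B := 3.6) (x := (α : ℝ) / (α + δ)) hm (by omega) hδ hs (by norm_num)
  · push_cast
    have h1 : 3 * ((α : ℝ) / (α + δ)) * (δ + 1) ≤ 3 * 1 * 16 := by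
      apply mul_le_mul _ (by linarith) (by positivity) (by norm_num)
      linarith
    linarith
  · simp
  · have h := I_of_check (by norm_num) checkBig.1
    have e0 : (((3 : ℕ) : ℝ) / ((4 : ℕ) : ℝ)) = 3 / 4 := by norm_num
    have e1 : (((3600 : ℕ) : ℝ) / 1000) = 3.6 := by norm_num
    rw [e0, e1] at h
    apply mono_I (by norm_num) _ hα (by norm_num) (by norm_num) h
    rw [div_le_div_iff₀ (by norm_num) (by linarith)]
    linarith

/-- reduction of the quadratic condition -/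
lemma hBq_of {p δ s x B K : ℝ} (hx : x = p * s)
    (hK : 3 * (p * δ) + 3 * p * B ≤ K + 1.5 * B) (h : K + 2.5 * B + 3 * x ≤ 4 * B ^ 2 + 3 * x * B) :
    3 * p * (δ + s) ≤ 4 * B ^ 2 + (3 * p * (s - 1) - 1) * B := by
  have e1 : 3 * p * (δ + s) = 3 * (p * δ) + 3 * x := by rw [hx]; ring
  have e2 : 4 * B ^ 2 + (3 * p * (s - 1) - 1) * B = 4 * B ^ 2 + 3 * x * B - 3 * p * B - B := by rw [hx]; ring
  rw [e1, e2]; linarith

lemma K_small {α δ B : ℝ} (hδ : 0 < δ) (hαδ : δ ≤ α) (hB : B ≤ α) :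
    3 * (α / (α + δ) * δ) + 3 * (α / (α + δ)) * B ≤ 1.5 * α + 1.5 * B := by
  have h1 := half_le hδ hαδ
  have e : α / (α + δ) * δ = α - α / (α + δ) * α := by
    have : α + δ ≠ 0 := by linarith
    field_simp; ring
  rw [e]
  have := mul_nonneg (sub_nonneg.mpr h1) (sub_nonneg.mpr hB)
  linarith

/-- `s ≥ 2`, `α ≤ 32`, one group. -/
lemma caseB_group {m α δ s : ℕ} (hm : 1 ≤ m) (hδ : 1 ≤ δ) (hαδ : δ < α) (hs2 : 2 ≤ s)
    (hs : α + δ + s ≤ m * (α + δ)) {n0 b : ℕ} (hn : n0 ≤ α) (hb : 1000 ≤ b) (hbn : b ≤ 1000 * n0)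
    (hc : (1000 * 1 + b * 1) * hi2 1 1 n0 ≤ 1000 * 1 * lo 1 1 n0)
    (hq : 1.5 * (α : ℝ) + 3 ≤ 4 * ((b : ℝ) / 1000) ^ 2 + 0.5 * ((b : ℝ) / 1000)) : Goal m α δ s := by
  have hα' : (1 : ℝ) ≤ α := by exact_mod_cast (by omega : 1 ≤ α)
  have hδ' : (1 : ℝ) ≤ δ := by exact_mod_cast hδ
  have hαδ' : (δ : ℝ) ≤ α := by exact_mod_cast hαδ.le
  have hs' : (2 : ℝ) ≤ s := by exact_mod_cast hs2
  have hb' : (1000 : ℝ) ≤ b := by exact_mod_cast hb
  have hn' : (n0 : ℝ) ≤ α := by exact_mod_cast hn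
  have hbn' : (b : ℝ) ≤ 1000 * n0 := by exact_mod_cast hbn
  have hβ : (0 : ℝ) < (α : ℝ) + δ := by positivity
  have hp := half_le (by linarith : (0 : ℝ) < δ) hαδ'
  have hx1 : 1 ≤ (α : ℝ) * s / (α + δ) := by
    have e : (α : ℝ) * s / (α + δ) = α / (α + δ) * s := by ring
    rw [e]; nlinarith
  have hB1 : 1 ≤ (b : ℝ) / 1000 := by rw [le_div_iff₀ (by norm_num)]; linarith
  have hBn : (b : ℝ) / 1000 ≤ n0 := by rw [div_le_iff₀ (by norm_num)]; linarith
  apply regimeI (B := (b : ℝ) / 1000) (x := (α : ℝ) * s / (α + δ)) hm (by omega) hδ hs hB1 _ rfl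
  · have h := I_of_check one_pos hc
    have e0 : (((1 : ℕ) : ℝ) / ((1 : ℕ) : ℝ)) = 1 := by norm_num
    rw [e0] at h
    exact mono_I (by norm_num) hx1 hn (by positivity) (by linarith) h
  · apply hBq_of (x := (α : ℝ) * s / (α + δ)) (K := 1.5 * α) (by ring) (K_small (by linarith) hαδ' (by linarith))
    have := mul_nonneg (sub_nonneg.mpr hx1) (sub_nonneg.mpr hB1)
    linarith

lemma caseB_s2_small {m α δ s : ℕ} (hm : 1 ≤ m) (hδ : 1 ≤ δ) (hαδ : δ < α) (hs2 : 2 ≤ s)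
    (hs : α + δ + s ≤ m * (α + δ)) (hα : α ≤ 32) : Goal m α δ s := by
  obtain ⟨-, -, c1, c2, c3, c4, c5, c6⟩ := checkBig
  have hα' : (α : ℝ) ≤ 32 := by exact_mod_cast hα
  rcases Nat.lt_or_ge α 3 with h | h
  · have h' : (α : ℝ) ≤ 2 := by exact_mod_cast (by omega : α ≤ 2)
    exact caseB_group hm hδ hαδ hs2 hs (n0 := 2) (b := 1300) (by omega) (by norm_num) (by norm_num) c1
      (by norm_num; linarith)
  rcases Nat.lt_or_ge α 5 with h1 | h1
  · have h' : (α : ℝ) ≤ 4 := by exact_mod_cast (by omega : α ≤ 4)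
    exact caseB_group hm hδ hαδ hs2 hs (n0 := 3) (b := 1550) (by omega) (by norm_num) (by norm_num) c2
      (by norm_num; linarith)
  rcases Nat.lt_or_ge α 9 with h2 | h2
  · have h' : (α : ℝ) ≤ 8 := by exact_mod_cast (by omega : α ≤ 8)
    exact caseB_group hm hδ hαδ hs2 hs (n0 := 5) (b := 1950) (by omega) (by norm_num) (by norm_num) c3
      (by norm_num; linarith)
  rcases Nat.lt_or_ge α 16 with h3 | h3
  · have h' : (α : ℝ) ≤ 15 := by exact_mod_cast (by omega : α ≤ 15)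
    exact caseB_group hm hδ hαδ hs2 hs (n0 := 9) (b := 2500) (by omega) (by norm_num) (by norm_num) c4
      (by norm_num; linarith)
  rcases Nat.lt_or_ge α 26 with h4 | h4
  · have h' : (α : ℝ) ≤ 25 := by exact_mod_cast (by omega : α ≤ 25)
    exact caseB_group hm hδ hαδ hs2 hs (n0 := 16) (b := 3150) (by omega) (by norm_num) (by norm_num) c5
      (by norm_num; linarith)
  · exact caseB_group hm hδ hαδ hs2 hs (n0 := 26) (b := 3750) (by omega) (by norm_num) (by norm_num) c6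
      (by norm_num; linarith)

/-- the regime I inequality at `y ≥ 1` when `α ≥ 32 y²`. -/
lemma I_at_y {α : ℕ} {y : ℝ} (hy : 1 ≤ y) (hα : 32 * y ^ 2 ≤ α) :
    (y + (3.11 * y + 0.41)) * A2 α y ≤ A α y := by
  have hα0 : (0 : ℝ) < α := by nlinarith
  have h1 := A2_upper α (x := y) (by linarith)
  have h2 : A2 α y ≤ 1 / (y + 1 / 2) := by
    refine h1.trans ?_
    rw [div_le_div_iff₀ (by positivity) (by positivity)]
    nlinarith
  have h3 := A_lower α (x := y) (by linarith)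
  have h4 : Real.log (21 * y) ≤ Real.log (1 + α / (y + 0.6)) := by
    apply Real.log_le_log (by positivity)
    have h5 : 32 * y ^ 2 / (y + 0.6) ≤ α / (y + 0.6) := div_le_div_of_nonneg_right hα (by positivity)
    have h6 : 21 * y - 1 ≤ 32 * y ^ 2 / (y + 0.6) := by
      rw [le_div_iff₀ (by positivity)]
      nlinarith [mul_nonneg (sub_nonneg.mpr hy) (by linarith : 0 ≤ 11 * y - 0.6)]
    linarith
  have h5 : Real.log (21 * y) = Real.log (21 / 16) + 4 * Real.log 2 + Real.log y := by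
    have : (21 : ℝ) * y = 21 / 16 * 2 ^ 4 * y := by ring
    rw [this, Real.log_mul (by norm_num) (by positivity), Real.log_mul (by norm_num) (by norm_num), Real.log_pow]
    norm_num
  have h6 : 0.2719 ≤ Real.log (21 / 16) := log_ge_of _ _ (by norm_num) (by norm_num) (by norm_num) (by norm_num)
  have h7 := Real.log_two_gt_d9
  have h8 := log_pade one_pos hy
  rw [Real.log_one, zero_add] at h8
  have h9 : (4.11 * y + 0.41) / (y + 1 / 2) ≤ 3.044 + 2 * (y - 1) / (y + 1) := by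
    rw [← sub_nonneg]
    have e : 3.044 + 2 * (y - 1) / (y + 1) - (4.11 * y + 0.41) / (y + 1 / 2)
      = (0.934 * y ^ 2 - 0.954 * y + 0.112) / ((y + 1) * (y + 1 / 2)) := by
      field_simp; ring
    rw [e]
    apply div_nonneg _ (by positivity)
    nlinarith
  have h10 : (y + (3.11 * y + 0.41)) * A2 α y ≤ (y + (3.11 * y + 0.41)) * (1 / (y + 1 / 2)) :=
    mul_le_mul_of_nonneg_left h2 (by positivity)
  have e2 : (y + (3.11 * y + 0.41)) * (1 / (y + 1 / 2)) = (4.11 * y + 0.41) / (y + 1 / 2) := by ring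
  rw [e2] at h10
  linarith

lemma caseB_s2_large {m α δ s : ℕ} (hm : 1 ≤ m) (hδ : 1 ≤ δ) (hαδ : δ < α) (hs2 : 2 ≤ s)
    (hs : α + δ + s ≤ m * (α + δ)) (hα : 32 ≤ α) (hδs : δ ≤ 8 * s ^ 2) : Goal m α δ s := by
  have hα' : (32 : ℝ) ≤ α := by exact_mod_cast hα
  have hδ' : (1 : ℝ) ≤ δ := by exact_mod_cast hδ
  have hαδ' : (δ : ℝ) ≤ α := by exact_mod_cast hαδ.le
  have hs' : (2 : ℝ) ≤ s := by exact_mod_cast hs2
  have hδs' : (δ : ℝ) ≤ 8 * s ^ 2 := by exact_mod_cast hδs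
  have hβ : (0 : ℝ) < (α : ℝ) + δ := by positivity
  have hp := half_le (by linarith : (0 : ℝ) < δ) hαδ'
  have hp1 := le_one' (by linarith : (0 : ℝ) < δ) hαδ'
  have e : (α : ℝ) * s / (α + δ) = α / (α + δ) * s := by ring
  have hx1 : 1 ≤ (α : ℝ) * s / (α + δ) := by
    rw [e]; nlinarith
  obtain ⟨y, hy1, hyx, hyα, hK⟩ : ∃ y : ℝ, 1 ≤ y ∧ y ≤ (α : ℝ) * s / (α + δ) ∧ 32 * y ^ 2 ≤ α ∧
      3 * ((α : ℝ) / (α + δ) * δ) + 3 * ((α : ℝ) / (α + δ)) * (3.11 * y + 0.41) ≤ 48 * y ^ 2 + 1.5 * (3.11 * y + 0.41) := by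
    rcases le_total (32 * ((α : ℝ) * s / (α + δ)) ^ 2) (α : ℝ) with h | h
    · refine ⟨(α : ℝ) * s / (α + δ), hx1, le_rfl, h, ?_⟩
      rw [e] at hx1 ⊢
      set p := (α : ℝ) / (α + δ) with hpdef
      have h0 : 0 ≤ 2 * p - 1 := by linarith
      have hps : 0 ≤ p * s := by positivity
      have h1 : 0 ≤ (2 * p - 1) * (24 * (p * s ^ 2) - 1.5 * (3.11 * (p * s) + 0.41)) := by
        apply mul_nonneg h0
        have h2 : (p * s) ^ 2 ≤ p * s ^ 2 := by
          have : (p * s) ^ 2 = p * (p * s ^ 2) := by ring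
          rw [this]
          have : 0 ≤ p * s ^ 2 := by positivity
          nlinarith
        nlinarith
      have h3 : p * δ ≤ p * (8 * s ^ 2) := mul_le_mul_of_nonneg_left hδs' (by linarith)
      have e3 : 48 * (p * s) ^ 2 + 1.5 * (3.11 * (p * s) + 0.41) - (3 * (p * (8 * s ^ 2)) + 3 * p * (3.11 * (p * s) + 0.41))
        = (2 * p - 1) * (24 * (p * s ^ 2) - 1.5 * (3.11 * (p * s) + 0.41)) := by ring
      linarith
    · have hsq : Real.sqrt ((α : ℝ) / 32) ^ 2 = (α : ℝ) / 32 := Real.sq_sqrt (by positivity)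
      have hsq0 := Real.sqrt_nonneg ((α : ℝ) / 32)
      have hy1 : 1 ≤ Real.sqrt ((α : ℝ) / 32) := by
        rw [Real.one_le_sqrt]; linarith
      refine ⟨Real.sqrt ((α : ℝ) / 32), hy1, ?_, by rw [hsq]; linarith, ?_⟩
      · apply le_of_sq_le_sq _ (by positivity)
        rw [hsq]; linarith
      · have h1 := K_small (by linarith : (0 : ℝ) < δ) hαδ' (B := 3.11 * Real.sqrt ((α : ℝ) / 32) + 0.41) (by nlinarith)
        rw [hsq]; linarith
  have hB1 : 1 ≤ 3.11 * y + 0.41 := by linarith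
  apply regimeI (B := 3.11 * y + 0.41) (x := (α : ℝ) * s / (α + δ)) hm (by omega) hδ hs hB1 _ rfl
  · exact mono_I (by linarith) hyx le_rfl (by linarith) (by nlinarith) (I_at_y hy1 hyα)
  · apply hBq_of (x := (α : ℝ) * s / (α + δ)) (K := 48 * y ^ 2) (by ring) hK
    have h1 := mul_nonneg (sub_nonneg.mpr hyx) (sub_nonneg.mpr hB1)
    have h2 : 48 * y ^ 2 + 2.5 * (3.11 * y + 0.41) + 3 * y ≤ 4 * (3.11 * y + 0.41) ^ 2 + 3 * y * (3.11 * y + 0.41) := by
      nlinarith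
    linarith

theorem caseB {m α δ s : ℕ} (hm : 2 ≤ m) (hδ : 1 ≤ δ) (hαδ : δ < α)
    (hs : α + δ + s ≤ m * (α + δ)) : Goal m α δ s := by
  rcases Nat.lt_or_ge s 1 with h0 | h0
  · have : s = 0 := by omega
    subst this
    rcases Nat.lt_or_ge δ 10 with h1 | h1
    · rcases Nat.lt_or_ge α 100 with h2 | h2
      · exact caseB_s0_small (by omega) hδ hαδ h1 h2 hs
      · exact caseB_s0_large (by omega) hδ h1 h2 hs
    · exact caseII_s0 hm hs h1 hαδ
  rcases Nat.lt_or_ge s 2 with h1 | h1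
  · have : s = 1 := by omega
    subst this
    rcases Nat.lt_or_ge δ 16 with h2 | h2
    · rcases Nat.lt_or_ge α 45 with h3 | h3
      · exact caseB_s1_small (by omega) hδ hαδ h2 h3 hs
      · exact caseB_s1_large (by omega) hδ h2 h3 hs
    · exact caseII_s1 hm hs le_rfl h2 (Or.inl rfl) hαδ
  · rcases Nat.lt_or_ge (8 * s ^ 2) δ with h2 | h2
    · have : 4 ≤ s ^ 2 := by nlinarith
      exact caseII_s1 hm hs (by omega) (by omega) (Or.inr h2) hαδ
    · rcases Nat.lt_or_ge α 32 with h3 | h3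
      · exact caseB_s2_small (by omega) hδ hαδ h1 hs (by omega)
      · exact caseB_s2_large (by omega) hδ hαδ h1 hs h3 h2

/-- The goal in all cases. -/
theorem goal_all {m α δ s : ℕ} (hm : 1 ≤ m) (hα : 1 ≤ α) (hδ : 1 ≤ δ)
    (hs : α + δ + s ≤ m * (α + δ)) : Goal m α δ s := by
  rcases Nat.lt_or_ge m 2 with h | h
  · have : m = 1 := by omega
    subst this
    exact goal_m_one hα hδ hs
  rcases Nat.lt_or_ge α 2 with h1 | h1
  · have : α = 1 := by omega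
    subst this
    exact goal_alpha_one hm hδ hs
  rcases Nat.lt_or_ge δ α with h2 | h2
  · exact caseB h hδ h2 hs
  · exact caseA hm h1 hs h2

/-- The base inequality. -/
theorem base : Base := by
  intro m a b r hm ha hab hbr hrm
  obtain ⟨δ, rfl⟩ := Nat.exists_eq_add_of_lt hab
  obtain ⟨s, rfl⟩ := Nat.exists_eq_add_of_le hbr
  exact goal_all (m := m) (α := a) (δ := δ + 1) (s := s) hm ha (by omega) (by
    simpa [Nat.add_assoc] using hrm)

end Spread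

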